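import Pool.Agent.Lib.MP_0d4032_co.Seg

set_option autoImplicit false

open scoped Pointwise Topology
open Filter

namespace Pool.Agent.Lib.MP_0d4032_co

theorem exists_small_dir {S : Set E3} (hS : S.Finite) {l : Submodule ℝ E3} (hl : IsLine l) :
    ∃ x : E3, x ≠ 0 ∧ x ∈ lᗮ ∧ Module.finrank ℝ (dir (convexHull ℝ S) x) ≤ 1 ∧
      Module.finrank ℝ (dir (convexHull ℝ S) (-x)) ≤ 1 := by
  obtain ⟨x, hx⟩ := exists_gen (linesOf_finite hS) (fun m hm => isLine_linesOf hm) hl
  exact ⟨x, hx.1, hx.2.1, finrank_dir_of_gen hS subset_rfl hl hx,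
    finrank_dir_of_gen hS subset_rfl hl hx.neg⟩

theorem hasType_unique {S : Set E3} (hS : S.Finite) {l : Submodule ℝ E3} (hl : IsLine l)
    {a b : ℕ} (ha : HasType (convexHull ℝ S) l a) (hb : HasType (convexHull ℝ S) l b) : a = b := by
  obtain ⟨x, h1, h2, h3, h4⟩ := exists_small_dir hS hl
  rw [← ha x h1 h2 h3 h4, ← hb x h1 h2 h3 h4]

theorem hasType_le_two {S : Set E3} (hS : S.Finite) {l : Submodule ℝ E3} (hl : IsLine l)
    {a : ℕ} (ha : HasType (convexHull ℝ S) l a) : a ≤ 2 := by
  obtain ⟨x, h1, h2, h3, h4⟩ := exists_small_dir hS hl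
  rw [← ha x h1 h2 h3 h4]
  unfold typ
  split_ifs <;> omega

theorem orth_of_inner {s x : E3} (h : x ∈ (Submodule.span ℝ {s})ᗮ) : (inner ℝ x s : ℝ) = 0 :=
  mem_orth_span'.mp h

section

variable {S : Set E3} (hS : S.Finite) (hne : S.Nonempty)

include hS hne

theorem dir_add_le (s v : E3) :
    dir (convexHull ℝ S) v ≤ dir (convexHull ℝ S + segment ℝ 0 s) v := by
  by_cases h : (inner ℝ v s : ℝ) = 0
  · rw [dir_add_of_orth (face_hull_nonempty hS hne v) h]; exact le_sup_left
  · rw [dir_add_of_not_orth (face_hull_nonempty hS hne v) h]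

theorem dir_add_eq_of_orth {s v : E3} (hs : s ≠ 0) (h : (inner ℝ v s : ℝ) = 0)
    (h1 : Module.finrank ℝ (dir (convexHull ℝ S + segment ℝ 0 s) v) ≤ 1) :
    dir (convexHull ℝ S + segment ℝ 0 s) v = Submodule.span ℝ {s} := by
  symm
  apply (isLine_span hs).eq_of_le _ h1
  rw [dir_add_of_orth (face_hull_nonempty hS hne v) h]
  exact le_sup_right

theorem type_add_other {s : E3} (hs : s ≠ 0) {l : Submodule ℝ E3} (hl : IsLine l)
    (hls : l ≠ Submodule.span ℝ {s}) {c : ℕ} (h : HasType (convexHull ℝ S) l c) :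
    HasType (convexHull ℝ S + segment ℝ 0 s) l c := by
  intro x hx0 hxl h1 h2
  have f1 := (Submodule.finrank_mono (dir_add_le hS hne s x)).trans h1
  have f2 := (Submodule.finrank_mono (dir_add_le hS hne s (-x))).trans h2
  have hc := h x hx0 hxl f1 f2
  by_cases ho : (inner ℝ x s : ℝ) = 0
  · have ho' : (inner ℝ (-x) s : ℝ) = 0 := by rw [inner_neg_left, ho, neg_zero]
    have e1 := dir_add_eq_of_orth hS hne hs ho h1
    have e2 := dir_add_eq_of_orth hS hne hs ho' h2
    have g1 : dir (convexHull ℝ S) x ≠ l := by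
      intro hh
      have := dir_add_le hS hne s x
      rw [e1, hh] at this
      exact hls (hl.eq_of_le this (le_of_eq (isLine_span hs)))
    have g2 : dir (convexHull ℝ S) (-x) ≠ l := by
      intro hh
      have := dir_add_le hS hne s (-x)
      rw [e2, hh] at this
      exact hls (hl.eq_of_le this (le_of_eq (isLine_span hs)))
    rw [← hc]
    unfold typ
    rw [e1, e2, if_neg (Ne.symm hls), if_neg g1, if_neg g2]
  · have ho' : (inner ℝ (-x) s : ℝ) ≠ 0 := by rw [inner_neg_left]; exact neg_ne_zero.mpr ho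
    rw [← hc]
    unfold typ
    rw [dir_add_of_not_orth (face_hull_nonempty hS hne x) ho,
      dir_add_of_not_orth (face_hull_nonempty hS hne (-x)) ho']

theorem type_add_self {s : E3} (hs : s ≠ 0) :
    HasType (convexHull ℝ S + segment ℝ 0 s) (Submodule.span ℝ {s}) 2 := by
  intro x hx0 hxl h1 h2
  have ho := orth_of_inner hxl
  have ho' : (inner ℝ (-x) s : ℝ) = 0 := by rw [inner_neg_left, ho, neg_zero]
  unfold typ
  rw [dir_add_eq_of_orth hS hne hs ho h1, dir_add_eq_of_orth hS hne hs ho' h2, if_pos rfl]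

theorem edge_add {s v : E3} (hs : s ≠ 0)
    (h : IsLine (dir (convexHull ℝ S + segment ℝ 0 s) v)) :
    dir (convexHull ℝ S + segment ℝ 0 s) v = Submodule.span ℝ {s} ∨
      dir (convexHull ℝ S + segment ℝ 0 s) v = dir (convexHull ℝ S) v := by
  by_cases ho : (inner ℝ v s : ℝ) = 0
  · left
    exact dir_add_eq_of_orth hS hne hs ho (le_of_eq h)
  · right
    exact dir_add_of_not_orth (face_hull_nonempty hS hne v) ho

open Classical in
/-- adding a segment: the general bookkeeping -/
theorem Typed.add {k : ℕ} {L : Finset (Submodule ℝ E3)} {m : Submodule ℝ E3 → ℕ}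
    (h : Typed k (convexHull ℝ S) L m) {s : E3} (hs : s ≠ 0) :
    Typed (2 + ∑ l ∈ L.erase (Submodule.span ℝ {s}), m l) (convexHull ℝ S + segment ℝ 0 s)
      (insert (Submodule.span ℝ {s}) L) (Function.update m (Submodule.span ℝ {s}) 2) := by
  refine ⟨?_, ?_, ?_, ?_⟩
  · intro l hl
    rcases Finset.mem_insert.mp hl with rfl | hl
    · exact isLine_span hs
    · exact h.line l hl
  · intro v hv hline
    rcases edge_add hS hne hs hline with e | e
    · rw [e]; exact Finset.mem_insert_self _ _
    · rw [e] at hline ⊢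
      exact Finset.mem_insert_of_mem (h.edge v hv hline)
  · intro l hl
    by_cases hls : l = Submodule.span ℝ {s}
    · rw [hls, Function.update_self]
      exact type_add_self hS hne hs
    · rw [Function.update_of_ne hls]
      have hlL : l ∈ L := (Finset.mem_insert.mp hl).resolve_left hls
      exact type_add_other hS hne hs (h.line l hlL) hls (h.type l hlL)
  · rw [← Finset.add_sum_erase _ _ (Finset.mem_insert_self (Submodule.span ℝ {s}) L),
      Function.update_self]
    congr 1
    rw [Finset.erase_insert_eq_erase]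
    apply Finset.sum_congr rfl
    intro l hl
    rw [Function.update_of_ne (Finset.ne_of_mem_erase hl)]

/-- adding a segment in a new direction raises the count by two -/
theorem Typed.add_new {k : ℕ} {L : Finset (Submodule ℝ E3)} {m : Submodule ℝ E3 → ℕ}
    (h : Typed k (convexHull ℝ S) L m) {s : E3} (hs : s ≠ 0)
    (hnew : ∀ v : E3, v ≠ 0 → dir (convexHull ℝ S) v ≠ Submodule.span ℝ {s}) :
    ∃ L' m', Typed (k + 2) (convexHull ℝ S + segment ℝ 0 s) L' m' := by
  classical
  have h2 := Typed.add hS hne h hs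
  have hk : 2 + ∑ l ∈ L.erase (Submodule.span ℝ {s}), m l = k + 2 := by
    rw [add_comm, ← h.sum]
    congr 1
    by_cases hmem : Submodule.span ℝ {s} ∈ L
    · rw [← Finset.add_sum_erase L m hmem]
      have h0 : HasType (convexHull ℝ S) (Submodule.span ℝ {s}) 0 := by
        intro x hx0 hxl _ _
        unfold typ
        rw [if_neg (hnew x hx0), if_neg (hnew (-x) (neg_ne_zero.mpr hx0))]
      have := hasType_unique hS (isLine_span hs) (h.type _ hmem) h0
      rw [this, zero_add]
    · rw [Finset.erase_eq_of_notMem hmem]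
  rw [hk] at h2
  exact ⟨_, _, h2⟩

end

end Pool.Agent.Lib.MP_0d4032_co
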