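import Pool.Agent.Lib.MP_0d4032_co.Defs

set_option autoImplicit false

open scoped Pointwise Topology
open Filter

namespace Pool.Agent.Lib.MP_0d4032_co

/-- The direction space of the face of `P` in direction `v`. -/
noncomputable def dir (P : Set E3) (v : E3) : Submodule ℝ E3 := vectorSpan ℝ (face P v)

theorem face_subset (P : Set E3) (v : E3) : face P v ⊆ P := fun _ h => h.1

theorem face_nonempty {S : Set E3} (hS : S.Finite) (hne : S.Nonempty) (v : E3) :
    (face S v).Nonempty := by
  obtain ⟨a, ha, h⟩ := Set.exists_max_image S (fun y => inner ℝ v y) hS hne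
  exact ⟨a, ha, h⟩

theorem face_const {P : Set E3} {v x y : E3} (hx : x ∈ face P v) (hy : y ∈ face P v) :
    inner ℝ v x = inner ℝ v y :=
  le_antisymm (hy.2 x hx.1) (hx.2 y hy.1)

theorem face_finite {S : Set E3} (hS : S.Finite) (v : E3) : (face S v).Finite :=
  hS.subset (face_subset S v)

theorem face_smul {P : Set E3} {v : E3} {c : ℝ} (hc : 0 < c) : face P (c • v) = face P v := by
  ext x
  simp only [face, Set.mem_ofPred_eq, inner_smul_left, RCLike.conj_to_real]
  constructor
  · rintro ⟨h1, h2⟩
    exact ⟨h1, fun y hy => le_of_mul_le_mul_left (h2 y hy) hc⟩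
  · rintro ⟨h1, h2⟩
    exact ⟨h1, fun y hy => mul_le_mul_of_nonneg_left (h2 y hy) hc.le⟩

theorem dir_smul {P : Set E3} {v : E3} {c : ℝ} (hc : 0 < c) : dir P (c • v) = dir P v := by
  unfold dir; rw [face_smul hc]

/-- Faces of a convex hull of a finite set. -/
theorem face_convexHull {S : Set E3} (hS : S.Finite) (v : E3) :
    face (convexHull ℝ S) v = convexHull ℝ (face S v) := by
  rcases S.eq_empty_or_nonempty with rfl | hne
  · simp [face]
  obtain ⟨a, ha, hmax⟩ := face_nonempty hS hne v
  have hle : ∀ y ∈ convexHull ℝ S, inner ℝ v y ≤ inner ℝ v a := by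
    intro y hy
    have hc : Convex ℝ {y : E3 | inner ℝ v y ≤ inner ℝ v a} := by
      exact convex_halfSpace_le (innerSL ℝ v).isLinear _
    exact convexHull_min (fun y hy => hmax y hy) hc hy
  apply Set.Subset.antisymm
  · rintro x ⟨hx, hx2⟩
    set T := {y ∈ S | inner ℝ v y < inner ℝ v a} with hT
    have hxa : inner ℝ v x = inner ℝ v a :=
      le_antisymm (hle x hx) (hx2 a (subset_convexHull ℝ S ha))
    have hST : S = face S v ∪ T := by
      ext y
      constructor
      · intro hy
        rcases lt_or_ge (inner ℝ v y) (inner ℝ v a) with h | h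
        · exact Or.inr (show y ∈ T from ⟨hy, h⟩)
        · exact Or.inl (show y ∈ face S v from ⟨hy, fun z hz => (hmax z hz).trans h⟩)
      · rintro (h | h)
        · exact h.1
        · exact (show y ∈ S ∧ inner ℝ v y < inner ℝ v a from h).1
    have hTlt : ∀ y ∈ convexHull ℝ T, inner ℝ v y < inner ℝ v a := by
      intro y hy
      have hc : Convex ℝ {y : E3 | inner ℝ v y < inner ℝ v a} := by
        exact convex_halfSpace_lt (innerSL ℝ v).isLinear _
      exact convexHull_min (fun y hy => hy.2) hc hy
    rcases T.eq_empty_or_nonempty with hTe | hTne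
    · rw [hST, hTe, Set.union_empty] at hx
      exact hx
    · have hFne : (face S v).Nonempty := ⟨a, ha, hmax⟩
      rw [hST, convexHull_union hFne hTne, mem_convexJoin] at hx
      obtain ⟨y, hy, z, hz, hxyz⟩ := hx
      obtain ⟨s, t, hs, ht, hst, rfl⟩ := hxyz
      have hyS : y ∈ convexHull ℝ S := convexHull_mono (face_subset S v) hy
      have h1 := hle y hyS
      have h2 := hTlt z hz
      rw [inner_add_right, inner_smul_right, inner_smul_right] at hxa
      have ht0 : t = 0 := by
        by_contra hne'
        have htp : 0 < t := lt_of_le_of_ne ht (Ne.symm hne')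
        have : s * inner ℝ v y + t * inner ℝ v z < s * inner ℝ v a + t * inner ℝ v a :=
          add_lt_add_of_le_of_lt (mul_le_mul_of_nonneg_left h1 hs) (mul_lt_mul_of_pos_left h2 htp)
        rw [← add_mul, hst, one_mul] at this
        linarith
      subst ht0
      have hs1 : s = 1 := by linarith
      subst hs1
      simpa using hy
  · intro x hx
    have hc : Convex ℝ {y : E3 | inner ℝ v y = inner ℝ v a} := by
      exact convex_hyperplane (innerSL ℝ v).isLinear _
    have hxa : inner ℝ v x = inner ℝ v a :=
      convexHull_min (fun y hy => face_const hy ⟨ha, hmax⟩) hc hx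
    exact ⟨convexHull_mono (face_subset S v) hx, fun y hy => (hle y hy).trans hxa.ge⟩

theorem vectorSpan_convexHull (S : Set E3) :
    vectorSpan ℝ (convexHull ℝ S) = vectorSpan ℝ S := by
  rw [← direction_affineSpan, affineSpan_convexHull, direction_affineSpan]

theorem dir_convexHull {S : Set E3} (hS : S.Finite) (v : E3) :
    dir (convexHull ℝ S) v = vectorSpan ℝ (face S v) := by
  unfold dir
  rw [face_convexHull hS, vectorSpan_convexHull]

/-- Faces of faces are faces: for a finite set. -/
theorem face_perturb_finite {S : Set E3} (hS : S.Finite) (v w : E3) :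
    ∀ᶠ t in 𝓝[>] (0:ℝ), face S (v + t • w) = face (face S v) w := by
  have key : ∀ᶠ t in 𝓝[>] (0:ℝ), ∀ x ∈ S, ∀ y ∈ S, inner ℝ v y < inner ℝ v x →
      inner ℝ (v + t • w) y < inner ℝ (v + t • w) x := by
    rw [eventually_all_finite hS]
    intro x hx
    rw [eventually_all_finite hS]
    intro y hy
    by_cases h : inner ℝ v y < inner ℝ v x
    · have hcont : ∀ z : E3, Tendsto (fun t : ℝ => inner ℝ (v + t • w) z) (𝓝[>] (0:ℝ))
          (𝓝 (inner ℝ v z)) := by
        intro z
        have : Continuous (fun t : ℝ => inner ℝ (v + t • w) z) := by fun_prop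
        have h0 := this.tendsto 0
        simp only [zero_smul, add_zero] at h0
        exact h0.mono_left nhdsWithin_le_nhds
      have := (hcont y).eventually_lt (hcont x) h
      filter_upwards [this] with t ht _ using ht
    · filter_upwards with t h' using absurd h' h
  filter_upwards [key, self_mem_nhdsWithin] with t ht ht0
  have ht0 : 0 < t := ht0
  ext x
  constructor
  · rintro ⟨hxS, hx⟩
    have hxv : x ∈ face S v := by
      refine ⟨hxS, fun y hy => ?_⟩
      by_contra hlt
      push Not at hlt
      exact absurd (hx y hy) (not_le.mpr (ht y hy x hxS hlt))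
    refine ⟨hxv, fun y hy => ?_⟩
    have h1 := hx y hy.1
    have h2 := face_const hxv hy
    rw [inner_add_left, inner_add_left, inner_smul_left, inner_smul_left] at h1
    simp only [RCLike.conj_to_real] at h1
    have h3 : t * inner ℝ w y ≤ t * inner ℝ w x := by linarith
    exact le_of_mul_le_mul_left h3 ht0
  · rintro ⟨hxv, hx⟩
    refine ⟨hxv.1, fun y hy => ?_⟩
    by_cases hyv : y ∈ face S v
    · have h1 := hx y hyv
      have h2 := face_const hxv hyv
      rw [inner_add_left, inner_add_left, inner_smul_left, inner_smul_left]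
      simp only [RCLike.conj_to_real]
      have h3 : t * inner ℝ w y ≤ t * inner ℝ w x := mul_le_mul_of_nonneg_left h1 ht0.le
      linarith
    · have : inner ℝ v y < inner ℝ v x := by
        by_contra hge
        push Not at hge
        exact hyv ⟨hy, fun z hz => (hxv.2 z hz).trans hge⟩
      exact (ht x hxv.1 y hy this).le

theorem face_perturb {S : Set E3} (hS : S.Finite) (v w : E3) :
    ∀ᶠ t in 𝓝[>] (0:ℝ),
      face (convexHull ℝ S) (v + t • w) = face (face (convexHull ℝ S) v) w := by
  filter_upwards [face_perturb_finite hS v w] with t ht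
  rw [face_convexHull hS, ht, face_convexHull hS, face_convexHull (face_finite hS v)]

/-- Faces of Minkowski sums. -/
theorem face_add (A B : Set E3) (v : E3) : face (A + B) v = face A v + face B v := by
  ext x
  constructor
  · rintro ⟨⟨a, ha, b, hb, rfl⟩, hx⟩
    refine ⟨a, ⟨ha, fun y hy => ?_⟩, b, ⟨hb, fun y hy => ?_⟩, rfl⟩
    · have := hx (y + b) (Set.add_mem_add hy hb)
      simp only [inner_add_right] at this
      linarith
    · have := hx (a + y) (Set.add_mem_add ha hy)
      simp only [inner_add_right] at this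
      linarith
  · rintro ⟨a, ha, b, hb, rfl⟩
    refine ⟨Set.add_mem_add ha.1 hb.1, ?_⟩
    rintro _ ⟨a', ha', b', hb', rfl⟩
    have h1 := ha.2 a' ha'
    have h2 := hb.2 b' hb'
    simp only [inner_add_right]
    linarith

theorem vectorSpan_add {A B : Set E3} (hA : A.Nonempty) (hB : B.Nonempty) :
    vectorSpan ℝ (A + B) = vectorSpan ℝ A ⊔ vectorSpan ℝ B := by
  obtain ⟨a, ha⟩ := hA
  obtain ⟨b, hb⟩ := hB
  apply le_antisymm
  · rw [vectorSpan_def, Submodule.span_le]
    rintro _ ⟨_, ⟨x, hx, y, hy, rfl⟩, _, ⟨x', hx', y', hy', rfl⟩, rfl⟩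
    have h1 : x - x' ∈ vectorSpan ℝ A := vsub_mem_vectorSpan ℝ hx hx'
    have h2 : y - y' ∈ vectorSpan ℝ B := vsub_mem_vectorSpan ℝ hy hy'
    have h3 : (x + y) - (x' + y') = (x - x') + (y - y') := by abel
    show (x + y) - (x' + y') ∈ _
    rw [h3]
    exact Submodule.add_mem_sup h1 h2
  · apply sup_le
    · rw [vectorSpan_def, Submodule.span_le]
      rintro _ ⟨x, hx, x', hx', rfl⟩
      have := vsub_mem_vectorSpan ℝ (Set.add_mem_add hx hb) (Set.add_mem_add hx' hb)
      have h3 : (x + b) -ᵥ (x' + b) = x - x' := by simp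
      rw [h3] at this
      exact this
    · rw [vectorSpan_def, Submodule.span_le]
      rintro _ ⟨x, hx, x', hx', rfl⟩
      have := vsub_mem_vectorSpan ℝ (Set.add_mem_add ha hx) (Set.add_mem_add ha hx')
      have h3 : (a + x) -ᵥ (a + x') = x - x' := by simp
      rw [h3] at this
      exact this

theorem inner_dir {P : Set E3} {v x : E3} (hx : x ∈ dir P v) : inner ℝ v x = 0 := by
  unfold dir at hx
  rw [vectorSpan_def] at hx
  have : (Submodule.span ℝ (face P v -ᵥ face P v)) ≤ LinearMap.ker (innerSL ℝ v).toLinearMap := by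
    rw [Submodule.span_le]
    rintro _ ⟨y, hy, z, hz, rfl⟩
    have := face_const hy hz
    simp only [SetLike.mem_coe, LinearMap.mem_ker]
    show inner ℝ v (y - z) = 0
    rw [inner_sub_right, this, sub_self]
  exact this hx

end Pool.Agent.Lib.MP_0d4032_co
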