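import Pool.Agent.Lib.MP_0d4032_co.Generic

set_option autoImplicit false

open scoped Pointwise Topology
open Filter

namespace Pool.Agent.Lib.MP_0d4032_co

theorem typ_perturb {S : Set E3} (hS : S.Finite) (m : Submodule ℝ E3) (v w : E3) :
    ∃ T : ℕ, ∀ᶠ t in 𝓝[>] (0:ℝ), typ (convexHull ℝ S) m (v + t • w) = T := by
  classical
  refine ⟨(if vectorSpan ℝ (face (face (convexHull ℝ S) v) w) = m then 1 else 0) +
    (if vectorSpan ℝ (face (face (convexHull ℝ S) (-v)) (-w)) = m then 1 else 0), ?_⟩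
  filter_upwards [face_perturb hS v w, face_perturb hS (-v) (-w)] with t h1 h2
  unfold typ dir
  have h3 : -(v + t • w) = -v + t • (-w) := by rw [neg_add, smul_neg]
  rw [h3, h1, h2]

theorem tendsto_aux {α β γ : ℝ} (h : β * α < 0) :
    Tendsto (fun η : ℝ => -(η * β) / (α + η * γ)) (𝓝[>] (0:ℝ)) (𝓝[>] (0:ℝ)) := by
  have hα : α ≠ 0 := by rintro rfl; simp at h
  rw [tendsto_nhdsWithin_iff]
  constructor
  · have hc : ContinuousAt (fun η : ℝ => -(η * β) / (α + η * γ)) 0 := by
      apply ContinuousAt.div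
      · fun_prop
      · fun_prop
      · simpa using hα
    have := hc.tendsto
    simp only [zero_mul, neg_zero, add_zero, zero_div] at this
    exact this.mono_left nhdsWithin_le_nhds
  · have h1 : ∀ᶠ η in 𝓝[>] (0:ℝ), 0 < (α + η * γ) * α := by
      have hc : Tendsto (fun η : ℝ => (α + η * γ) * α) (𝓝 0) (𝓝 (α * α)) := by
        have : Continuous (fun η : ℝ => (α + η * γ) * α) := by fun_prop
        have := this.tendsto 0
        simpa using this
      have hpos : 0 < α * α := mul_self_pos.mpr hα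
      exact (hc.eventually_const_lt hpos).filter_mono nhdsWithin_le_nhds
    filter_upwards [h1, self_mem_nhdsWithin] with η hη hη0
    have hη0 : 0 < η := hη0
    have e : -(η * β) / (α + η * γ) = (η * (-(β * α))) / ((α + η * γ) * α) := by
      have hg : α + η * γ ≠ 0 := by
        intro h0; rw [h0, zero_mul] at hη; exact lt_irrefl _ hη
      field_simp
    rw [Set.mem_Ioi, e]
    exact div_pos (mul_pos hη0 (by linarith)) hη

theorem fib_formula {P : Set E3} {m : Submodule ℝ E3} (hm : IsLine m) {d v w z : E3}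
    (hv1 : ‖v‖ = 1) (hdv : inner ℝ d v = 0) (hvm : v ∈ mᗮ) (hvw : inner ℝ v w = 0)
    (hwm : w ∈ mᗮ) (hdm : d ∉ m) (hα : (inner ℝ d w : ℝ) ≠ 0) :
    ∀ᶠ η in 𝓝[>] (0:ℝ), fib P m (d + η • z) =
      typ P m (v + (-(η * inner ℝ z v) / (inner ℝ d w + η * inner ℝ z w)) • w) := by
  have hclosed : IsClosed (m : Set E3) := Submodule.closed_of_finiteDimensional m
  have hc : Tendsto (fun η : ℝ => d + η • z) (𝓝[>] (0:ℝ)) (𝓝 d) := by
    have : Continuous (fun t : ℝ => d + t • z) := by fun_prop
    have h0 := this.tendsto 0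
    simp only [zero_smul, add_zero] at h0
    exact h0.mono_left nhdsWithin_le_nhds
  have h1 : ∀ᶠ η in 𝓝[>] (0:ℝ), d + η • z ∉ m := by
    have : ∀ᶠ y in 𝓝 d, y ∉ (m : Set E3) := hclosed.isOpen_compl.mem_nhds hdm
    exact hc.eventually this
  have h2 : ∀ᶠ η in 𝓝[>] (0:ℝ), (inner ℝ d w : ℝ) + η * inner ℝ z w ≠ 0 := by
    have : Tendsto (fun η : ℝ => (inner ℝ d w : ℝ) + η * inner ℝ z w) (𝓝 0)
        (𝓝 (inner ℝ d w)) := by
      have : Continuous (fun η : ℝ => (inner ℝ d w : ℝ) + η * inner ℝ z w) := by fun_prop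
      have := this.tendsto 0
      simpa using this
    exact (this.eventually_ne hα).filter_mono nhdsWithin_le_nhds
  filter_upwards [h1, h2] with η e1 e2
  set g : ℝ := (inner ℝ d w : ℝ) + η * inner ℝ z w with hg
  set y : E3 := g • v - (η * inner ℝ z v) • w with hy
  have hvv : inner ℝ v v = (1:ℝ) := by rw [real_inner_self_eq_norm_sq, hv1]; norm_num
  have hy0 : y ≠ 0 := by
    intro h0
    have : inner ℝ v y = (0:ℝ) := by rw [h0, inner_zero_right]
    rw [hy, inner_sub_right, inner_smul_right, inner_smul_right, hvv, hvw] at this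
    apply e2; linarith
  have hyu : inner ℝ (d + η • z) y = (0:ℝ) := by
    rw [hy, inner_sub_right, inner_smul_right, inner_smul_right, inner_add_left, inner_add_left,
      inner_smul_left, inner_smul_left, hdv]
    simp only [RCLike.conj_to_real]
    rw [hg]; ring
  have hym : y ∈ mᗮ :=
    Submodule.sub_mem _ (Submodule.smul_mem _ _ hvm) (Submodule.smul_mem _ _ hwm)
  rw [fib_eq hm e1 hy0 hyu hym]
  have : y = g • (v + (-(η * inner ℝ z v) / g) • w) := by
    rw [hy, smul_add, smul_smul, mul_div_cancel₀ _ e2, neg_smul, sub_eq_add_neg]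
  rw [this, typ_smul P m _ e2]

theorem exists_T {S : Set E3} (hS : S.Finite) {l m : Submodule ℝ E3}
    (hm : IsLine m) (hne : m ≠ l) {d : E3} (hd : d ≠ 0) (hld : l = Submodule.span ℝ {d}) :
    ∃ T : ℕ, ∀ z : E3, (∀ v : E3, v ≠ 0 → inner ℝ d v = 0 → v ∈ mᗮ → (inner ℝ z v : ℝ) ≠ 0) →
      ∀ᶠ η in 𝓝[>] (0:ℝ),
        fib (convexHull ℝ S) m (d + η • z) + fib (convexHull ℝ S) m (d + η • (-z)) = T := by
  have hl : IsLine l := by rw [hld]; exact isLine_span hd
  have hdm : d ∉ m := by
    intro h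
    apply hne
    have : l ≤ m := by rw [hld, Submodule.span_singleton_le_iff_mem]; exact h
    exact (hl.eq_of_le this (le_of_eq hm)).symm
  obtain ⟨v, hv1, hdv, hvm, hvall⟩ := exists_perp hm hdm
  have hv0 : v ≠ 0 := by intro h; rw [h, norm_zero] at hv1; norm_num at hv1
  have hvnm : v ∉ m := by
    intro h
    rw [Submodule.mem_orthogonal] at hvm
    exact hv0 (inner_self_eq_zero.mp (hvm v h))
  obtain ⟨w, hw1, hvw, hwm, -⟩ := exists_perp hm hvnm
  have hα : (inner ℝ d w : ℝ) ≠ 0 := by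
    intro h
    obtain ⟨c, hc⟩ := hvall w h hwm
    rw [hc, inner_smul_right, real_inner_self_eq_norm_sq, hv1] at hvw
    have : c = 0 := by linarith
    rw [this, zero_smul] at hc
    rw [hc, norm_zero] at hw1; norm_num at hw1
  obtain ⟨T1, hT1⟩ := typ_perturb hS m v w
  obtain ⟨T2, hT2⟩ := typ_perturb hS m v (-w)
  refine ⟨T1 + T2, fun z hz => ?_⟩
  have hβ : (inner ℝ z v : ℝ) ≠ 0 := hz v hv0 hdv hvm
  -- one side
  have side : ∀ z : E3, (inner ℝ z v : ℝ) ≠ 0 →
      ∀ᶠ η in 𝓝[>] (0:ℝ), fib (convexHull ℝ S) m (d + η • z) =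
        if (inner ℝ z v : ℝ) * inner ℝ d w < 0 then T1 else T2 := by
    intro z hβ
    have hf := fib_formula (P := convexHull ℝ S) hm (z := z) hv1 hdv hvm hvw hwm hdm hα
    split_ifs with hs
    · have ht := (tendsto_aux (γ := inner ℝ z w) hs).eventually hT1
      filter_upwards [hf, ht] with η h1 h2
      rw [h1, h2]
    · have hs' : (inner ℝ z v : ℝ) * (-inner ℝ d w) < 0 := by
        have hne' : (inner ℝ z v : ℝ) * inner ℝ d w ≠ 0 := mul_ne_zero hβ hα
        have : 0 < (inner ℝ z v : ℝ) * inner ℝ d w :=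
          lt_of_le_of_ne (not_lt.mp hs) (Ne.symm hne')
        linarith
      have ht := (tendsto_aux (γ := -inner ℝ z w) hs').eventually hT2
      filter_upwards [hf, ht] with η h1 h2
      rw [h1, ← h2]
      congr 2
      have : -(η * (inner ℝ z v : ℝ)) / (inner ℝ d w + η * inner ℝ z w) =
          -(-(η * (inner ℝ z v : ℝ)) / (-inner ℝ d w + η * -inner ℝ z w)) := by
        have e : (-inner ℝ d w + η * -inner ℝ z w : ℝ) = -(inner ℝ d w + η * inner ℝ z w) := by
          ring
        rw [e, div_neg, neg_neg]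
      rw [this, neg_smul, smul_neg]
  have s1 := side z hβ
  have s2 := side (-z) (by rw [inner_neg_left]; exact neg_ne_zero.mpr hβ)
  filter_upwards [s1, s2] with η h1 h2
  rw [h1, h2, inner_neg_left]
  have hne' : (inner ℝ z v : ℝ) * inner ℝ d w ≠ 0 := mul_ne_zero hβ hα
  rcases lt_or_gt_of_ne hne' with h | h
  · rw [if_pos h, if_neg (by linarith)]
  · rw [if_neg (by linarith), if_pos (by linarith), add_comm]

/-- the direction space of a face is spanned by at most two lines of `S` -/
theorem dir_eq_sup {S : Set E3} (hS : S.Finite) {v : E3} (hv : v ≠ 0)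
    (hne : dir (convexHull ℝ S) v ≠ ⊥) :
    ∃ l ∈ linesOf S, ∃ m ∈ linesOf S, dir (convexHull ℝ S) v = l ⊔ m := by
  have h2 := finrank_dir_le_two (convexHull ℝ S) hv
  rw [dir_convexHull hS] at hne h2 ⊢
  set T := face S v with hT
  have hTn : T.Nontrivial := by
    rw [Ne, vectorSpan_eq_bot_iff_subsingleton, Set.not_subsingleton_iff] at hne
    exact hne
  obtain ⟨p, hp, q, hq, hpq⟩ := hTn
  set a := q - p with ha
  have ha0 : a ≠ 0 := sub_ne_zero.mpr (Ne.symm hpq)
  have hal : Submodule.span ℝ {a} ∈ linesOf S := ⟨q, hq.1, p, hp.1, Ne.symm hpq, rfl⟩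
  have hale : Submodule.span ℝ {a} ≤ vectorSpan ℝ T := by
    rw [Submodule.span_singleton_le_iff_mem]
    exact vsub_mem_vectorSpan ℝ hq hp
  by_cases hall : ∀ r ∈ T, r - p ∈ Submodule.span ℝ {a}
  · refine ⟨_, hal, _, hal, ?_⟩
    rw [sup_idem]
    apply le_antisymm _ hale
    rw [vectorSpan_eq_span_vsub_set_right ℝ hp, Submodule.span_le]
    rintro _ ⟨r, hr, rfl⟩
    exact hall r hr
  · push Not at hall
    obtain ⟨r, hr, hra⟩ := hall
    have hrp : r ≠ p := by rintro rfl; exact hra (by rw [sub_self]; exact Submodule.zero_mem _)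
    set b := r - p with hb
    have hb0 : b ≠ 0 := sub_ne_zero.mpr hrp
    have hbl : Submodule.span ℝ {b} ∈ linesOf S := ⟨r, hr.1, p, hp.1, hrp, rfl⟩
    have hble : Submodule.span ℝ {b} ≤ vectorSpan ℝ T := by
      rw [Submodule.span_singleton_le_iff_mem]
      exact vsub_mem_vectorSpan ℝ hr hp
    refine ⟨_, hal, _, hbl, ?_⟩
    have hne' : Submodule.span ℝ {a} ≠ Submodule.span ℝ {b} := by
      intro h; apply hra; rw [h]; exact Submodule.mem_span_singleton_self _
    have hf := (isLine_span ha0).finrank_sup (isLine_span hb0) hne'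
    exact (Submodule.eq_of_le_of_finrank_le (sup_le hale hble) (by rw [hf]; exact h2)).symm

/-- small perturbations of an edge direction are not parallel to any face -/
theorem not_parallel_perturb {S : Set E3} (hS : S.Finite) {L : Set (Submodule ℝ E3)}
    (hSL : linesOf S ⊆ L) {l : Submodule ℝ E3} {d : E3} (hd : d ≠ 0)
    (hld : l = Submodule.span ℝ {d}) {x z : E3} (hx : Gen L l x) (hz : z ≠ 0)
    (hdz : inner ℝ d z = 0) (hxz : inner ℝ x z = 0) :
    ∀ᶠ η in 𝓝[>] (0:ℝ), ¬ ParallelToFace (convexHull ℝ S) (d + η • z) := by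
  have hxd : inner ℝ x d = 0 := by
    have := hx.2.1
    rw [hld] at this
    exact mem_orth_span'.mp this
  have hlspan : IsLine l := by rw [hld]; exact isLine_span hd
  -- the plane spanned by d and z
  have hdz_ne : Submodule.span ℝ {d} ≠ Submodule.span ℝ {z} := by
    intro h
    have : z ∈ Submodule.span ℝ {d} := by rw [h]; exact Submodule.mem_span_singleton_self _
    rw [Submodule.mem_span_singleton] at this
    obtain ⟨c, hc⟩ := this
    rw [← hc, inner_smul_right, mul_eq_zero, inner_self_eq_zero] at hdz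
    rcases hdz with h | h
    · rw [h, zero_smul] at hc; exact hz hc.symm
    · exact hd h
  have hplane := (isLine_span hd).finrank_sup (isLine_span hz) hdz_ne
  have hxorth : Submodule.span ℝ {x} = (Submodule.span ℝ {d} ⊔ Submodule.span ℝ {z})ᗮ := by
    apply (isLine_span hx.1).eq_of_le _ (le_of_eq (isLine_orth hplane))
    rw [Submodule.span_singleton_le_iff_mem, ← Submodule.inf_orthogonal, Submodule.mem_inf]
    exact ⟨mem_orth_span'.mpr hxd, mem_orth_span'.mpr hxz⟩
  set W : Set (Submodule ℝ E3) :=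
    (fun p : Submodule ℝ E3 × Submodule ℝ E3 => p.1 ⊔ p.2) '' (linesOf S ×ˢ linesOf S) with hW
  have hWfin : W.Finite := ((linesOf_finite hS).prod (linesOf_finite hS)).image _
  have h1 : ∀ᶠ η in 𝓝[>] (0:ℝ), ∀ K ∈ W, d + η • z ∉ K := by
    rw [eventually_all_finite hWfin]
    rintro _ ⟨⟨l1, l2⟩, ⟨hl1, hl2⟩, rfl⟩
    simp only at hl1 hl2 ⊢
    obtain ⟨n, hn, hnn⟩ : ∃ n ∈ (l1 ⊔ l2)ᗮ, ¬ (inner ℝ n d = (0:ℝ) ∧ inner ℝ n z = (0:ℝ)) := by
      by_contra hcon
      push Not at hcon
      have hle : (l1 ⊔ l2)ᗮ ≤ Submodule.span ℝ {x} := by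
        intro n hn
        rw [hxorth, ← Submodule.inf_orthogonal, Submodule.mem_inf]
        have := hcon n hn
        exact ⟨mem_orth_span'.mpr this.1, mem_orth_span'.mpr this.2⟩
      have hf1 := finrank_orth (l1 ⊔ l2)
      have hf2 := finrank_sup_le (isLine_linesOf hl1) (isLine_linesOf hl2)
      have hf3 := Submodule.finrank_mono hle
      rw [finrank_span_singleton hx.1] at hf3
      have heq : (l1 ⊔ l2)ᗮ = Submodule.span ℝ {x} :=
        Submodule.eq_of_le_of_finrank_le hle (by rw [finrank_span_singleton hx.1]; omega)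
      have hxW : x ∈ (l1 ⊔ l2)ᗮ := by rw [heq]; exact Submodule.mem_span_singleton_self _
      rw [← Submodule.inf_orthogonal, Submodule.mem_inf] at hxW
      have e1 : l1 = l := by
        by_contra h; exact hx.2.2 l1 (hSL hl1) h hxW.1
      have e2 : l2 = l := by
        by_contra h; exact hx.2.2 l2 (hSL hl2) h hxW.2
      rw [e1, e2, sup_idem] at heq hf1
      rw [heq, finrank_span_singleton hx.1, hlspan] at hf1
      omega
    have hmem : ∀ η : ℝ, d + η • z ∈ l1 ⊔ l2 → inner ℝ n d + η * inner ℝ n z = 0 := by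
      intro η h
      rw [Submodule.mem_orthogonal'] at hn
      have := hn _ h
      rw [inner_add_right, inner_smul_right] at this
      exact this
    by_cases h0 : inner ℝ n d = (0:ℝ)
    · have hz' : inner ℝ n z ≠ (0:ℝ) := fun h => hnn ⟨h0, h⟩
      filter_upwards [self_mem_nhdsWithin] with η hη hmem'
      have := hmem η hmem'
      rw [h0, zero_add, mul_eq_zero] at this
      rcases this with h | h
      · exact (ne_of_gt hη) h
      · exact hz' h
    · have hc : Tendsto (fun η : ℝ => inner ℝ n d + η * inner ℝ n z) (𝓝[>] (0:ℝ))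
          (𝓝 (inner ℝ n d)) := by
        have : Continuous (fun η : ℝ => (inner ℝ n d : ℝ) + η * inner ℝ n z) := by fun_prop
        have h := this.tendsto 0
        simp only [zero_mul, add_zero] at h
        exact h.mono_left nhdsWithin_le_nhds
      filter_upwards [hc.eventually_ne h0] with η hη hmem'
      exact hη (hmem η hmem')
  have hne0 : ∀ᶠ η in 𝓝[>] (0:ℝ), d + η • z ≠ 0 := by
    have hc : Tendsto (fun η : ℝ => d + η • z) (𝓝[>] (0:ℝ)) (𝓝 d) := by
      have : Continuous (fun t : ℝ => d + t • z) := by fun_prop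
      have h0 := this.tendsto 0
      simp only [zero_smul, add_zero] at h0
      exact h0.mono_left nhdsWithin_le_nhds
    exact hc.eventually_ne hd
  filter_upwards [h1, hne0] with η hη hη0
  rintro ⟨v, hv, hmem⟩
  have hmem : d + η • z ∈ dir (convexHull ℝ S) v := hmem
  have hnb : dir (convexHull ℝ S) v ≠ ⊥ := by
    intro h; rw [h, Submodule.mem_bot] at hmem; exact hη0 hmem
  obtain ⟨l1, hl1, l2, hl2, heq⟩ := dir_eq_sup hS hv hnb
  rw [heq] at hmem
  exact hη _ ⟨(l1, l2), ⟨hl1, hl2⟩, rfl⟩ hmem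

theorem dir_mem_linesOf {S : Set E3} (hS : S.Finite) {v : E3}
    (h : IsLine (dir (convexHull ℝ S) v)) : dir (convexHull ℝ S) v ∈ linesOf S := by
  have hnb : dir (convexHull ℝ S) v ≠ ⊥ := by
    intro h0
    unfold IsLine at h
    rw [h0, finrank_bot] at h
    omega
  rw [dir_convexHull hS] at hnb h ⊢
  rw [Ne, vectorSpan_eq_bot_iff_subsingleton, Set.not_subsingleton_iff] at hnb
  obtain ⟨p, hp, q, hq, hpq⟩ := hnb
  refine ⟨p, hp.1, q, hq.1, hpq, ?_⟩
  symm
  apply (isLine_span (sub_ne_zero.mpr hpq)).eq_of_le _ (le_of_eq h)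
  rw [Submodule.span_singleton_le_iff_mem]
  exact vsub_mem_vectorSpan ℝ hp hq

/-- Part (II): a constant edge count forces constant types. -/
theorem typ_const {S : Set E3} (hS : S.Finite) {L : Finset (Submodule ℝ E3)}
    (hL : ∀ l ∈ L, IsLine l) (hSL : linesOf S ⊆ ↑L) {k : ℕ}
    (hk : ∀ u : E3, u ≠ 0 → ¬ ParallelToFace (convexHull ℝ S) u →
      edgeCount (convexHull ℝ S) u = k)
    {l : Submodule ℝ E3} (hl : l ∈ L) :
    ∃ m : ℕ, ∀ x, Gen (↑L) l x → typ (convexHull ℝ S) l x = m := by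
  classical
  obtain ⟨d, hd, hld⟩ := (hL l hl).exists_span
  have hT : ∀ m : Submodule ℝ E3, ∃ T : ℕ, m ∈ L → m ≠ l → ∀ z : E3,
      (∀ v : E3, v ≠ 0 → inner ℝ d v = 0 → v ∈ mᗮ → (inner ℝ z v : ℝ) ≠ 0) →
      ∀ᶠ η in 𝓝[>] (0:ℝ),
        fib (convexHull ℝ S) m (d + η • z) + fib (convexHull ℝ S) m (d + η • (-z)) = T := by
    intro m
    by_cases h : m ∈ L ∧ m ≠ l
    · obtain ⟨T, hT⟩ := exists_T hS (hL m h.1) h.2 hd hld
      exact ⟨T, fun _ _ => hT⟩
    · exact ⟨0, fun h1 h2 => absurd ⟨h1, h2⟩ h⟩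
  choose T hT using hT
  refine ⟨(2 * k - ∑ m ∈ L.erase l, T m) / 2, fun x hx => ?_⟩
  have hxd : inner ℝ x d = 0 := by
    have := hx.2.1
    rw [hld] at this
    exact mem_orth_span'.mp this
  have hxl : x ∉ l := by
    intro h
    have := (Submodule.mem_orthogonal' _ _).mp hx.2.1 x h
    exact hx.1 (inner_self_eq_zero.mp this)
  obtain ⟨z, hz1, hxz, hzl, hzall⟩ := exists_perp (hL l hl) hxl
  have hz0 : z ≠ 0 := by intro h; rw [h, norm_zero] at hz1; norm_num at hz1
  have hdz : inner ℝ d z = 0 := by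
    rw [hld] at hzl
    exact mem_orth_span.mp hzl
  have hn1 := not_parallel_perturb hS hSL hd hld hx hz0 hdz hxz
  have hn2 := not_parallel_perturb hS hSL hd hld hx (neg_ne_zero.mpr hz0)
    (by rw [inner_neg_right, hdz, neg_zero]) (by rw [inner_neg_right, hxz, neg_zero])
  -- the plane spanned by d and z has normal x
  have hdz_ne : Submodule.span ℝ {d} ≠ Submodule.span ℝ {z} := by
    intro h
    have : z ∈ Submodule.span ℝ {d} := by rw [h]; exact Submodule.mem_span_singleton_self _
    rw [Submodule.mem_span_singleton] at this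
    obtain ⟨c, hc⟩ := this
    rw [← hc, inner_smul_right, mul_eq_zero, inner_self_eq_zero] at hdz
    rcases hdz with h | h
    · rw [h, zero_smul] at hc; exact hz0 hc.symm
    · exact hd h
  have hplane := (isLine_span hd).finrank_sup (isLine_span hz0) hdz_ne
  have hxorth : Submodule.span ℝ {x} = (Submodule.span ℝ {d} ⊔ Submodule.span ℝ {z})ᗮ := by
    apply (isLine_span hx.1).eq_of_le _ (le_of_eq (isLine_orth hplane))
    rw [Submodule.span_singleton_le_iff_mem, ← Submodule.inf_orthogonal, Submodule.mem_inf]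
    exact ⟨mem_orth_span'.mpr hxd, mem_orth_span'.mpr hxz⟩
  have hsum : ∀ᶠ η in 𝓝[>] (0:ℝ), ∀ m ∈ L.erase l,
      fib (convexHull ℝ S) m (d + η • z) + fib (convexHull ℝ S) m (d + η • (-z)) = T m := by
    have : ∀ᶠ η in 𝓝[>] (0:ℝ), ∀ m ∈ (↑(L.erase l) : Set (Submodule ℝ E3)),
        fib (convexHull ℝ S) m (d + η • z) + fib (convexHull ℝ S) m (d + η • (-z)) = T m := by
      rw [eventually_all_finite (Finset.finite_toSet _)]
      intro m hm
      have hm' : m ∈ L.erase l := hm
      rw [Finset.mem_erase] at hm'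
      apply hT m hm'.2 hm'.1 z
      intro v hv hdv hvm hzv
      have : v ∈ Submodule.span ℝ {x} := by
        rw [hxorth, ← Submodule.inf_orthogonal, Submodule.mem_inf]
        exact ⟨mem_orth_span.mpr hdv, mem_orth_span.mpr hzv⟩
      rw [Submodule.mem_span_singleton] at this
      obtain ⟨c, hc⟩ := this
      have hc0 : c ≠ 0 := by rintro rfl; rw [zero_smul] at hc; exact hv hc.symm
      apply hx.2.2 m hm'.2 hm'.1
      have : x = c⁻¹ • v := by rw [← hc, smul_smul, inv_mul_cancel₀ hc0, one_smul]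
      rw [this]
      exact Submodule.smul_mem _ _ hvm
    filter_upwards [this] with η h m hm using h m hm
  have hnotl : ∀ᶠ η in 𝓝[>] (0:ℝ), d + η • z ∉ l ∧ d + η • (-z) ∉ l := by
    filter_upwards [self_mem_nhdsWithin] with η hη
    have hη : 0 < η := hη
    have hdl : d ∈ l := by rw [hld]; exact Submodule.mem_span_singleton_self _
    have hznl : z ∉ l := by
      intro h
      have := (Submodule.mem_orthogonal' _ _).mp hzl z h
      exact hz0 (inner_self_eq_zero.mp this)
    constructor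
    · intro h
      have h2 : η • z ∈ l := by
        have := Submodule.sub_mem _ h hdl
        simpa using this
      exact hznl ((Submodule.smul_mem_iff _ hη.ne').mp h2)
    · intro h
      have h2 : η • (-z) ∈ l := by
        have := Submodule.sub_mem _ h hdl
        simpa using this
      have h3 := (Submodule.smul_mem_iff _ hη.ne').mp h2
      exact hznl (by simpa using Submodule.neg_mem _ h3)
  obtain ⟨η, p1, p2, p3, p4, p5⟩ := (hn1.and (hn2.and (hsum.and hnotl))).exists
  have hdir : ∀ v : E3, v ≠ 0 → IsLine (dir (convexHull ℝ S) v) →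
      dir (convexHull ℝ S) v ∈ L := fun v _ h => hSL (dir_mem_linesOf hS h)
  have hu0 : d + η • z ≠ 0 := by intro h; rw [h] at p4; exact p4 (Submodule.zero_mem _)
  have hu0' : d + η • (-z) ≠ 0 := by intro h; rw [h] at p5; exact p5 (Submodule.zero_mem _)
  have c1 := hk _ hu0 p1
  have c2 := hk _ hu0' p2
  rw [edgeCount_eq hL hdir p1, ← Finset.add_sum_erase L _ hl] at c1
  rw [edgeCount_eq hL hdir p2, ← Finset.add_sum_erase L _ hl] at c2
  have f1 : fib (convexHull ℝ S) l (d + η • z) = typ (convexHull ℝ S) l x := by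
    apply fib_eq (hL l hl) p4 hx.1 _ hx.2.1
    rw [inner_add_left, inner_smul_left, real_inner_comm, hxd, real_inner_comm, hxz]; simp
  have f2 : fib (convexHull ℝ S) l (d + η • (-z)) = typ (convexHull ℝ S) l x := by
    apply fib_eq (hL l hl) p5 hx.1 _ hx.2.1
    rw [inner_add_left, inner_smul_left, inner_neg_left, real_inner_comm, hxd,
      real_inner_comm, hxz]; simp
  have f3 : ∑ m ∈ L.erase l, fib (convexHull ℝ S) m (d + η • z) +
      ∑ m ∈ L.erase l, fib (convexHull ℝ S) m (d + η • (-z)) = ∑ m ∈ L.erase l, T m := by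
    rw [← Finset.sum_add_distrib]
    exact Finset.sum_congr rfl p3
  rw [f1] at c1
  rw [f2] at c2
  omega

end Pool.Agent.Lib.MP_0d4032_co
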