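import Pool.Agent.Lib.MP_0d4032_co.Main

set_option autoImplicit false

open scoped Pointwise Topology
open Filter

namespace Pool.Agent.Lib.MP_0d4032_co

theorem parallelepiped_zonotope {a b c : E3} (h : LinearIndependent ℝ ![a, b, c]) :
    IsZonotope 3 (segment ℝ 0 a + segment ℝ 0 b + segment ℝ 0 c) := by
  refine ⟨![a, b, c], ?_, ?_, ?_⟩
  · intro i j hij
    have h1 := h.comp ![i, j] (by
      intro x y hxy
      fin_cases x <;> fin_cases y <;> simp_all)
    have h2 : (![a, b, c] ∘ ![i, j]) = ![![a, b, c] i, ![a, b, c] j] := by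
      ext x : 1
      fin_cases x <;> rfl
    rw [h2] at h1
    exact h1
  · exact h.span_eq_top_of_card_eq_finrank (by simp)
  · rw [Fin.sum_univ_three]
    rfl

open Classical in
theorem zonotope_constructible {n : ℕ} {Z : Set E3} (h : IsZonotope n Z) :
    Constructible (2 * n) Z := by
  obtain ⟨s, hind, hspan, rfl⟩ := h
  have hn0 := ne_zero_of_span hind hspan
  have hinj := span_injective hind
  -- three independent generators
  have hn : 2 ≤ n := by
    by_contra hh
    push Not at hh
    have h1 : Module.finrank ℝ (Submodule.span ℝ (Set.range s)) ≤ n := by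
      have := finrank_range_le_card (R := ℝ) s
      simpa [Set.finrank] using this
    rw [hspan, finrank_top, finrank_E3] at h1
    omega
  set i0 : Fin n := ⟨0, by omega⟩ with hi0
  set j0 : Fin n := ⟨1, by omega⟩ with hj0
  have hij : i0 ≠ j0 := by rw [hi0, hj0]; intro hh; simp [Fin.ext_iff] at hh
  obtain ⟨k0, hk0⟩ : ∃ k0, s k0 ∉ Submodule.span ℝ (Set.range ![s i0, s j0]) := by
    by_contra hcon
    push Not at hcon
    have hle : (⊤ : Submodule ℝ E3) ≤ Submodule.span ℝ (Set.range ![s i0, s j0]) := by
      rw [← hspan, Submodule.span_le]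
      rintro _ ⟨i, rfl⟩
      exact hcon i
    have h1 := Submodule.finrank_mono hle
    have h2 := finrank_range_le_card (R := ℝ) ![s i0, s j0]
    rw [finrank_top, finrank_E3] at h1
    simp only [Set.finrank, Fintype.card_fin] at h2
    omega
  have hik : k0 ≠ i0 := by
    rintro rfl
    exact hk0 (Submodule.subset_span ⟨0, rfl⟩)
  have hjk : k0 ≠ j0 := by
    rintro rfl
    exact hk0 (Submodule.subset_span ⟨1, rfl⟩)
  have hbase : LinearIndependent ℝ ![s k0, s i0, s j0] :=
    linearIndependent_finCons.mpr ⟨hind i0 j0 hij, hk0⟩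
  -- the condition for adding a segment
  have hcond : ∀ (K : Finset (Fin n)) (i : Fin n), i ∉ K → ∀ v : E3, v ≠ 0 →
      vectorSpan ℝ (face (∑ j ∈ K, segment ℝ 0 (s j)) v) ≠ Submodule.span ℝ {s i} := by
    intro K i hi v _ heq
    have heq : dir (∑ j ∈ K, segment ℝ 0 (s j)) v = Submodule.span ℝ {s i} := heq
    rw [dir_sum_segments] at heq
    by_cases hex : ∃ j ∈ K, (inner ℝ v (s j) : ℝ) = 0
    · obtain ⟨j, hj, hvj⟩ := hex
      have hle : Submodule.span ℝ {s j} ≤ Submodule.span ℝ {s i} := by
        rw [← heq]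
        refine le_trans ?_ (le_iSup₂ j hj)
        rw [if_pos hvj]
      have := (isLine_span (hn0 j)).eq_of_le hle (le_of_eq (isLine_span (hn0 i)))
      exact hi (hinj this ▸ hj)
    · push Not at hex
      have : (⨆ j ∈ K, (if (inner ℝ v (s j) : ℝ) = 0 then Submodule.span ℝ {s j}
          else (⊥ : Submodule ℝ E3))) = ⊥ := by
        simp only [iSup_eq_bot]
        intro j hj
        rw [if_neg (hex j hj)]
      rw [this] at heq
      exact hn0 i (Submodule.span_singleton_eq_bot.mp heq.symm)
  set J0 : Finset (Fin n) := {k0, i0, j0} with hJ0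
  have hJ0card : J0.card = 3 := by
    rw [hJ0, Finset.card_insert_of_notMem (by simp [hik, hjk]), Finset.card_pair hij]
  have hsum0 : ∑ i ∈ J0, segment ℝ 0 (s i) =
      segment ℝ 0 (s k0) + segment ℝ 0 (s i0) + segment ℝ 0 (s j0) := by
    rw [hJ0, Finset.sum_insert (by simp [hik, hjk]), Finset.sum_pair hij, add_assoc]
  have hall : ∀ J : Finset (Fin n), Disjoint J0 J →
      Constructible (6 + 2 * J.card) (∑ i ∈ J0 ∪ J, segment ℝ 0 (s i)) := by
    intro J
    induction J using Finset.induction_on with
    | empty =>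
      intro _
      rw [Finset.union_empty, hsum0]
      exact Constructible.parallelepiped _ _ _ hbase
    | insert i J hi ih =>
      intro hdisj
      rw [Finset.disjoint_insert_right] at hdisj
      have hiU : i ∉ J0 ∪ J := by
        rw [Finset.mem_union]
        rintro (hh | hh)
        · exact hdisj.1 hh
        · exact hi hh
      have e1 : J0 ∪ insert i J = insert i (J0 ∪ J) := by rw [Finset.union_insert]
      rw [e1, Finset.sum_insert hiU, add_comm (segment ℝ 0 (s i)),
        Finset.card_insert_of_notMem hi]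
      have e2 : 6 + 2 * (J.card + 1) = 6 + 2 * J.card + 2 := by omega
      rw [e2]
      exact Constructible.addSegment (s i) (ih hdisj.2) (hn0 i) (hcond _ i hiU)
  have hfinal := hall (Finset.univ \ J0) Finset.disjoint_sdiff
  rw [Finset.union_sdiff_of_subset (Finset.subset_univ J0),
    Finset.card_sdiff_of_subset (Finset.subset_univ J0), hJ0card, Finset.card_univ,
    Fintype.card_fin] at hfinal
  have hn3 : 3 ≤ n := by
    have := Finset.card_le_univ J0
    rw [hJ0card, Fintype.card_fin] at this
    exact this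
  have e3 : 6 + 2 * (n - 3) = 2 * n := by omega
  rw [e3] at hfinal
  exact hfinal

theorem constructible_sound {k : ℕ} {P : Set E3} (h : Constructible k P) :
    IsPolyhedron P ∧ ∃ L m, Typed k P L m := by
  induction h with
  | parallelepiped a b c hl =>
    have hz := parallelepiped_zonotope hl
    exact ⟨hz.polyhedron, hz.typed⟩
  | addSegment s hP hs hnew ih =>
    rename_i k P
    obtain ⟨hpoly, L, m, hT⟩ := ih
    refine ⟨add_segment_polyhedron hpoly s, ?_⟩
    obtain ⟨⟨S, hS, rfl⟩, hint⟩ := hpoly
    exact Typed.add_new hS (hull_nonempty_of_interior hint) hT hs hnew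
  | moveFacets hP hQ hiso ih =>
    rename_i k P Q
    obtain ⟨hpoly, L, m, hT⟩ := ih
    refine ⟨hQ, L, m, ?_⟩
    obtain ⟨⟨S, hS, rfl⟩, -⟩ := hpoly
    obtain ⟨⟨S', hS', rfl⟩, -⟩ := hQ
    exact Typed.transfer (fun v hv => dir_eq_of_stronglyIsomorphic hS hS' hiso hv) hT
  | halveZone s hQ hs ih =>
    rename_i k Q
    obtain ⟨hpoly, L, m, hT⟩ := ih
    obtain ⟨⟨S, hS, rfl⟩, hint⟩ := hpoly
    have hne := hull_nonempty_of_interior hint
    classical
    exact ⟨erode_polyhedron hS hne hs hint, L, _, Typed.halve hS hne hs hT⟩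

theorem halvings_constructible {r : ℕ} {Q P : Set E3} (h : Halvings r Q P) :
    ∀ j : ℕ, Constructible (j + r) Q → Constructible j P := by
  induction h with
  | zero Q => intro j hj; exact hj
  | succ s h hs ih =>
    intro j hj
    rename_i r Q P
    have e : j + (r + 1) = j + 1 + r := by omega
    rw [e] at hj
    exact Constructible.halveZone s (ih (j + 1) hj) hs

/-- The full classification: closure form and normal form. -/
theorem classification_tfae (k : ℕ) (P : Set E3) :
    [IsPolyhedron P ∧ Equiprojective k P,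
      Constructible k P,
      ∃ (n r : ℕ) (Z Q : Set E3), n ≤ k ∧ 2 * n = k + r ∧ IsZonotope n Z ∧ IsPolyhedron Q ∧
        StronglyIsomorphic Z Q ∧ Halvings r Q P].TFAE := by
  tfae_have 1 → 3 := (classification k P).mp
  tfae_have 3 → 2 := by
    rintro ⟨n, r, Z, Q, -, hk, hZ, hQ, hiso, hH⟩
    apply halvings_constructible hH
    rw [← hk]
    exact Constructible.moveFacets (zonotope_constructible hZ) hQ hiso
  tfae_have 2 → 1 := by
    intro h
    obtain ⟨hP, hT⟩ := constructible_sound h
    exact ⟨hP, (equiprojective_iff hP k).mpr hT⟩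
  tfae_finish

end Pool.Agent.Lib.MP_0d4032_co
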