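import Pool.Agent.Lib.MP_0d4032_co.Const

set_option autoImplicit false

open scoped Pointwise Topology
open Filter

namespace Pool.Agent.Lib.MP_0d4032_co

/-- The combinatorial criterion: the types of all edge directions are constant, with sum `k`. -/
structure Typed (k : ℕ) (P : Set E3) (L : Finset (Submodule ℝ E3)) (m : Submodule ℝ E3 → ℕ) :
    Prop where
  line : ∀ l ∈ L, IsLine l
  edge : ∀ v : E3, v ≠ 0 → IsLine (dir P v) → dir P v ∈ L
  type : ∀ l ∈ L, HasType P l (m l)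
  sum : ∑ l ∈ L, m l = k

theorem vectorSpan_of_interior {S : Set E3} (h : (interior (convexHull ℝ S)).Nonempty) :
    vectorSpan ℝ S = ⊤ := by
  rw [(convex_convexHull ℝ S).interior_nonempty_iff_affineSpan_eq_top, affineSpan_convexHull] at h
  exact AffineSubspace.vectorSpan_eq_top_of_affineSpan_eq_top ℝ E3 E3 h

theorem interior_of_vectorSpan {S : Set E3} (hne : S.Nonempty) (h : vectorSpan ℝ S = ⊤) :
    (interior (convexHull ℝ S)).Nonempty := by
  rw [(convex_convexHull ℝ S).interior_nonempty_iff_affineSpan_eq_top, affineSpan_convexHull]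
  exact (AffineSubspace.affineSpan_eq_top_iff_vectorSpan_eq_top_of_nonempty ℝ E3 E3 hne).mpr h

theorem edgeCount_smul (P : Set E3) (u : E3) {c : ℝ} (hc : c ≠ 0) :
    edgeCount P (c • u) = edgeCount P u := by
  unfold edgeCount
  congr 1
  ext v
  have : (inner ℝ (c • u) v : ℝ) = 0 ↔ (inner ℝ u v : ℝ) = 0 := by
    rw [inner_smul_left]; simp [hc]
  show (‖v‖ = 1 ∧ inner ℝ (c • u) v = (0:ℝ) ∧ _) ↔ (‖v‖ = 1 ∧ inner ℝ u v = (0:ℝ) ∧ _)
  rw [this]

theorem parallel_smul (P : Set E3) (u : E3) {c : ℝ} (hc : c ≠ 0) :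
    ParallelToFace P (c • u) ↔ ParallelToFace P u := by
  unfold ParallelToFace
  constructor
  · rintro ⟨v, hv, h⟩
    exact ⟨v, hv, (Submodule.smul_mem_iff _ hc).mp h⟩
  · rintro ⟨v, hv, h⟩
    exact ⟨v, hv, (Submodule.smul_mem_iff _ hc).mpr h⟩

theorem exists_not_parallel {S : Set E3} (hS : S.Finite) :
    ∃ u : E3, ‖u‖ = 1 ∧ ¬ ParallelToFace (convexHull ℝ S) u := by
  set W : Set (Submodule ℝ E3) := insert ⊥
    ((fun p : Submodule ℝ E3 × Submodule ℝ E3 => p.1 ⊔ p.2) '' (linesOf S ×ˢ linesOf S)) with hW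
  have hWfin : W.Finite :=
    Set.Finite.insert _ (((linesOf_finite hS).prod (linesOf_finite hS)).image _)
  obtain ⟨u, -, hu⟩ := avoid ⊤ hWfin (by
    rintro K (rfl | ⟨⟨l, m⟩, ⟨hl, hm⟩, rfl⟩) hle
    · have := Submodule.finrank_mono hle
      rw [finrank_top, finrank_bot, finrank_E3] at this
      omega
    · have hle' : (⊤ : Submodule ℝ E3) ≤ l ⊔ m := hle
      have := Submodule.finrank_mono hle'
      have h2 : Module.finrank ℝ (l ⊔ m : Submodule ℝ E3) ≤ 2 :=
        finrank_sup_le (isLine_linesOf hl) (isLine_linesOf hm)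
      rw [finrank_top, finrank_E3] at this
      omega)
  have hu0 : u ≠ 0 := by
    intro h; exact hu ⊥ (Or.inl rfl) (by rw [h]; exact Submodule.zero_mem _)
  have hn : ‖u‖ ≠ 0 := norm_ne_zero_iff.mpr hu0
  refine ⟨(‖u‖⁻¹ : ℝ) • u, ?_, ?_⟩
  · rw [norm_smul, norm_inv, norm_norm, inv_mul_cancel₀ hn]
  · rw [parallel_smul _ _ (inv_ne_zero hn)]
    rintro ⟨v, hv, hmem⟩
    have hmem : u ∈ dir (convexHull ℝ S) v := hmem
    have hnb : dir (convexHull ℝ S) v ≠ ⊥ := by
      intro h; rw [h, Submodule.mem_bot] at hmem; exact hu0 hmem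
    obtain ⟨l1, hl1, l2, hl2, heq⟩ := dir_eq_sup hS hv hnb
    rw [heq] at hmem
    exact hu _ (Or.inr ⟨(l1, l2), ⟨hl1, hl2⟩, rfl⟩) hmem

/-- The criterion. -/
theorem equiprojective_iff {P : Set E3} (hP : IsPolyhedron P) (k : ℕ) :
    Equiprojective k P ↔ ∃ L m, Typed k P L m := by
  classical
  obtain ⟨⟨S, hS, rfl⟩, hint⟩ := hP
  have hspan := vectorSpan_of_interior hint
  constructor
  · intro hE
    set L : Finset (Submodule ℝ E3) := (linesOf_finite hS).toFinset with hLdef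
    have hL : ∀ l ∈ L, IsLine l := fun l hl =>
      isLine_linesOf ((linesOf_finite hS).mem_toFinset.mp hl)
    have hSL : linesOf S ⊆ ↑L := by rw [hLdef, Set.Finite.coe_toFinset]
    have hk : ∀ u : E3, u ≠ 0 → ¬ ParallelToFace (convexHull ℝ S) u →
        edgeCount (convexHull ℝ S) u = k := by
      intro u hu0 hu
      have hn : ‖u‖ ≠ 0 := norm_ne_zero_iff.mpr hu0
      have h1 : ‖(‖u‖⁻¹ : ℝ) • u‖ = 1 := by
        rw [norm_smul, norm_inv, norm_norm, inv_mul_cancel₀ hn]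
      have h2 : ¬ ParallelToFace (convexHull ℝ S) ((‖u‖⁻¹ : ℝ) • u) := by
        rw [parallel_smul _ _ (inv_ne_zero hn)]; exact hu
      rw [← edgeCount_smul _ u (inv_ne_zero hn), ← shadow_count hS hspan h1 h2]
      exact hE _ h1 h2
    have hex : ∀ l : Submodule ℝ E3, ∃ m : ℕ, l ∈ L → ∀ x, Gen (↑L) l x →
        typ (convexHull ℝ S) l x = m := by
      intro l
      by_cases hl : l ∈ L
      · obtain ⟨m, hm⟩ := typ_const hS hL hSL hk hl
        exact ⟨m, fun _ => hm⟩
      · exact ⟨0, fun h => absurd h hl⟩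
    choose m hm using hex
    have htype : ∀ l ∈ L, HasType (convexHull ℝ S) l (m l) := fun l hl =>
      hasType_of_generic hS L.finite_toSet hL (hL l hl) (hm l hl)
    have hedge : ∀ v : E3, v ≠ 0 → IsLine (dir (convexHull ℝ S) v) →
        dir (convexHull ℝ S) v ∈ L := fun v _ h => hSL (dir_mem_linesOf hS h)
    refine ⟨L, m, hL, hedge, htype, ?_⟩
    obtain ⟨u, hu1, hu⟩ := exists_not_parallel hS
    have hu0 : u ≠ 0 := by intro h; rw [h, norm_zero] at hu1; norm_num at hu1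
    rw [← edgeCount_of_types hS hL hedge htype hu]
    exact hk u hu0 hu
  · rintro ⟨L, m, h⟩ u hu1 hu
    rw [shadow_count hS hspan hu1 hu, edgeCount_of_types hS h.line h.edge h.type hu]
    exact h.sum

end Pool.Agent.Lib.MP_0d4032_co
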