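import Mathlib

set_option autoImplicit false

open scoped Pointwise

/-!
Definitions for the classification of equiprojective polyhedra.
-/

namespace Pool.Agent.Lib.MP_0d4032_co

/-- Euclidean 3-space. -/
abbrev E3 : Type := EuclideanSpace ℝ (Fin 3)

/-- A polyhedron: the convex hull of finitely many points, with nonempty interior. -/
def IsPolyhedron (P : Set E3) : Prop :=
  (∃ S : Set E3, S.Finite ∧ P = convexHull ℝ S) ∧ (interior P).Nonempty

/-- The face of `P` in direction `v`: the points of `P` at which the inner product with `v` is
largest. For `v ≠ 0` these are the proper faces of a polyhedron `P`. -/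
noncomputable def face (P : Set E3) (v : E3) : Set E3 :=
  {x | x ∈ P ∧ ∀ y ∈ P, inner ℝ v y ≤ inner ℝ v x}

/-- The orthogonal projection of `P` onto the plane orthogonal to `u`. -/
noncomputable def shadow (P : Set E3) (u : E3) : Set E3 :=
  (Submodule.span ℝ {u})ᗮ.starProjection '' P

/-- The direction `u` is parallel to some (proper) face of `P`: it lies in the linear subspace
parallel to the affine hull of the face. -/
def ParallelToFace (P : Set E3) (u : E3) : Prop :=
  ∃ v : E3, v ≠ 0 ∧ u ∈ vectorSpan ℝ (face P v)

/-- `P` is `k`-equiprojective: for every unit vector `u` that is not parallel to a face of `P`, the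
orthogonal projection of `P` along `u` has exactly `k` vertices. -/
def Equiprojective (k : ℕ) (P : Set E3) : Prop :=
  ∀ u : E3, ‖u‖ = 1 → ¬ ParallelToFace P u → ((shadow P u).extremePoints ℝ).ncard = k

/-- `P` and `Q` are strongly isomorphic: in every direction `v` their faces have the same
dimension. (For polyhedra: `Q` arises from `P` by moving the planes of the facets parallel to
themselves in such a way that no face changes its dimension.) -/
def StronglyIsomorphic (P Q : Set E3) : Prop :=
  ∀ v : E3, v ≠ 0 → Module.finrank ℝ (vectorSpan ℝ (face P v)) =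
    Module.finrank ℝ (vectorSpan ℝ (face Q v))

/-- The face of `Q` in direction `v` is an edge `[a, a+s]`. -/
def ShortEdge (Q : Set E3) (v s : E3) : Prop := ∃ a : E3, face Q v = segment ℝ a (a + s)

/-- The face of `Q` in direction `v` is an edge parallel to `s` and longer than `s`. -/
def LongEdge (Q : Set E3) (v s : E3) : Prop :=
  ∃ (a : E3) (c : ℝ), 1 < c ∧ face Q v = segment ℝ a (a + c • s)

/-- On any two opposite support planes of `Q` that are parallel to `s` and contain no
two-dimensional face, `Q` has an edge `[a, a+s]` on one and a longer edge parallel to `s` on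
the other. -/
def Halvable (Q : Set E3) (s : E3) : Prop :=
  s ≠ 0 ∧ ∀ v : E3, v ≠ 0 → inner ℝ v s = 0 →
    Module.finrank ℝ (vectorSpan ℝ (face Q v)) ≤ 1 →
    Module.finrank ℝ (vectorSpan ℝ (face Q (-v))) ≤ 1 →
      (ShortEdge Q v s ∧ LongEdge Q (-v) s) ∨ (LongEdge Q v s ∧ ShortEdge Q (-v) s)

/-- The set of all `x` for which the whole segment `[x, x+s]` lies in `Q`. If `Q` is `Halvable`
along `s`, this shortens all edges parallel to `s` by the length of `s`, and exactly one of any two
opposite such edges disappears. -/
def erode (Q : Set E3) (s : E3) : Set E3 := {x | segment ℝ x (x + s) ⊆ Q}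

/-- The constructions. `Constructible k P` says that `P` is built, with counter `k`, by finitely
many of the following steps:
start with a parallelepiped (`k = 6`);
add (Minkowski sum) a segment `[0,s]` that is not parallel to any edge (`k` grows by 2);
move the facets to a strongly isomorphic polyhedron (`k` is unchanged);
halve the zone of a vector `s` (`k` drops by 1). -/
inductive Constructible : ℕ → Set E3 → Prop
  | parallelepiped (a b c : E3) (h : LinearIndependent ℝ ![a, b, c]) :
      Constructible 6 (segment ℝ 0 a + segment ℝ 0 b + segment ℝ 0 c)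
  | addSegment {k : ℕ} {P : Set E3} (s : E3) (hP : Constructible k P) (hs : s ≠ 0)
      (h : ∀ v : E3, v ≠ 0 → vectorSpan ℝ (face P v) ≠ Submodule.span ℝ {s}) :
      Constructible (k + 2) (P + segment ℝ 0 s)
  | moveFacets {k : ℕ} {P Q : Set E3} (hP : Constructible k P) (hQ : IsPolyhedron Q)
      (h : StronglyIsomorphic P Q) : Constructible k Q
  | halveZone {k : ℕ} {Q : Set E3} (s : E3) (hQ : Constructible (k + 1) Q)
      (h : Halvable Q s) : Constructible k (erode Q s)

/-- `Z` is a zonotope with `n` zones: the Minkowski sum of `n` pairwise non-parallel segments that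
span the space. -/
def IsZonotope (n : ℕ) (Z : Set E3) : Prop :=
  ∃ s : Fin n → E3, (∀ i j, i ≠ j → LinearIndependent ℝ ![s i, s j]) ∧
    Submodule.span ℝ (Set.range s) = ⊤ ∧ Z = ∑ i, segment ℝ 0 (s i)

/-- `P` arises from `Q` by halving `r` zones, one after another. -/
inductive Halvings : ℕ → Set E3 → Set E3 → Prop
  | zero (Q : Set E3) : Halvings 0 Q Q
  | succ {r : ℕ} {Q P : Set E3} (s : E3) (h : Halvings r Q P) (hs : Halvable P s) :
      Halvings (r + 1) Q (erode P s)

end Pool.Agent.Lib.MP_0d4032_co
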