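import Pool.Agent.Lib.MP_0d4032_co.Add

set_option autoImplicit false

open scoped Pointwise Topology
open Filter

namespace Pool.Agent.Lib.MP_0d4032_co

/-- A finite set that is not contained in a plane orthogonal to `x` has an edge not orthogonal
to `x`. -/
theorem edge_exists {T : Set E3} (hT : T.Finite) {x p q : E3} (hp : p ∈ T) (hq : q ∈ T)
    (hpq : (inner ℝ x p : ℝ) ≠ inner ℝ x q) :
    ∃ w : E3, w ≠ 0 ∧ IsLine (vectorSpan ℝ (face T w)) ∧
      ∃ a ∈ face T w, ∃ b ∈ face T w, (inner ℝ x a : ℝ) ≠ inner ℝ x b := by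
  have hTne : T.Nonempty := ⟨p, hp⟩
  have hx0 : x ≠ 0 := by rintro rfl; simp at hpq
  set A := face T x with hA
  -- the avoided planes
  set F : Set (Submodule ℝ E3) := insert (Submodule.span ℝ {x})
    ((fun r : Submodule ℝ E3 × Submodule ℝ E3 => Submodule.span ℝ {x} ⊔ (r.1 ⊔ r.2)ᗮ) ''
      {r | r ∈ linesOf T ×ˢ linesOf T ∧ r.1 ≠ r.2}) with hF
  have hFfin : F.Finite := by
    apply Set.Finite.insert
    apply Set.Finite.image
    exact ((linesOf_finite hT).prod (linesOf_finite hT)).subset (fun r hr => hr.1)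
  obtain ⟨y0, -, hy0⟩ := avoid ⊤ hFfin (by
    rintro K (rfl | ⟨⟨l, m⟩, ⟨⟨hl, hm⟩, hlm⟩, rfl⟩) hle
    · have := Submodule.finrank_mono hle
      rw [finrank_top, finrank_span_singleton hx0, finrank_E3] at this
      omega
    · have hle' : (⊤ : Submodule ℝ E3) ≤ Submodule.span ℝ {x} ⊔ (l ⊔ m)ᗮ := hle
      have h1 := Submodule.finrank_mono hle'
      have h2 : Module.finrank ℝ (Submodule.span ℝ {x} ⊔ (l ⊔ m)ᗮ : Submodule ℝ E3) ≤ 2 :=
        finrank_sup_le (isLine_span hx0)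
          (isLine_orth ((isLine_linesOf hl).finrank_sup (isLine_linesOf hm) hlm))
      rw [finrank_top, finrank_E3] at h1
      omega)
  obtain ⟨t, ⟨e1, e2⟩, ht⟩ := (((face_perturb_finite hT x y0).and
    (face_perturb_finite hT (-x) y0)).and self_mem_nhdsWithin).exists
  have ht : 0 < t := ht
  -- the path
  set w : ℝ → E3 := fun τ => (1 - 2 * τ) • x + t • y0 with hw
  have hwc : ∀ z : E3, Continuous (fun τ => (inner ℝ (w τ) z : ℝ)) := by
    intro z
    simp only [hw]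
    fun_prop
  have hcl : ∀ a : E3, IsClosed {τ : ℝ | ∀ y ∈ T, (inner ℝ (w τ) y : ℝ) ≤ inner ℝ (w τ) a} := by
    intro a
    have : {τ : ℝ | ∀ y ∈ T, (inner ℝ (w τ) y : ℝ) ≤ inner ℝ (w τ) a} =
        ⋂ y ∈ T, {τ : ℝ | (inner ℝ (w τ) y : ℝ) ≤ inner ℝ (w τ) a} := by
      ext τ; simp
    rw [this]
    exact isClosed_biInter (fun y _ => isClosed_le (hwc y) (hwc a))
  set UA : Set ℝ := ⋃ a ∈ A, {τ : ℝ | ∀ y ∈ T, (inner ℝ (w τ) y : ℝ) ≤ inner ℝ (w τ) a} with hUA
  set UB : Set ℝ := ⋃ b ∈ T \ A, {τ : ℝ | ∀ y ∈ T, (inner ℝ (w τ) y : ℝ) ≤ inner ℝ (w τ) b}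
    with hUB
  have hUAc : IsClosed UA := (face_finite hT x).isClosed_biUnion (fun a _ => hcl a)
  have hUBc : IsClosed UB := (hT.subset Set.sdiff_subset).isClosed_biUnion (fun a _ => hcl a)
  have hcover : Set.Icc (0:ℝ) 1 ⊆ UA ∪ UB := by
    intro τ _
    obtain ⟨a, ha⟩ := face_nonempty hT hTne (w τ)
    by_cases haA : a ∈ A
    · left
      simp only [hUA, Set.mem_iUnion]
      exact ⟨a, haA, ha.2⟩
    · right
      simp only [hUB, Set.mem_iUnion]
      exact ⟨a, ⟨ha.1, haA⟩, ha.2⟩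
  have h0 : (Set.Icc (0:ℝ) 1 ∩ UA).Nonempty := by
    refine ⟨0, ⟨le_refl _, zero_le_one⟩, ?_⟩
    obtain ⟨a, ha⟩ := face_nonempty hT hTne (x + t • y0)
    have haA : a ∈ A := by rw [e1] at ha; exact ha.1
    simp only [hUA, Set.mem_iUnion]
    refine ⟨a, haA, ?_⟩
    have hw0 : w 0 = x + t • y0 := by simp [hw]
    show ∀ y ∈ T, (inner ℝ (w 0) y : ℝ) ≤ inner ℝ (w 0) a
    rw [hw0]; exact ha.2
  have h1 : (Set.Icc (0:ℝ) 1 ∩ UB).Nonempty := by
    refine ⟨1, ⟨zero_le_one, le_refl _⟩, ?_⟩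
    obtain ⟨a, ha⟩ := face_nonempty hT hTne (-x + t • y0)
    have haB : a ∈ face T (-x) := by rw [e2] at ha; exact ha.1
    have hanA : a ∉ A := by
      intro haA
      apply hpq
      have b1 := haA.2 p hp
      have b2 := haA.2 q hq
      have b3 := haB.2 p hp
      have b4 := haB.2 q hq
      rw [inner_neg_left, inner_neg_left] at b3 b4
      linarith
    simp only [hUB, Set.mem_iUnion]
    refine ⟨a, ⟨ha.1, hanA⟩, ?_⟩
    have hw1 : w 1 = -x + t • y0 := by
      simp only [hw]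
      congr 1
      rw [show (1:ℝ) - 2 * 1 = -1 by norm_num, neg_smul, one_smul]
    show ∀ y ∈ T, (inner ℝ (w 1) y : ℝ) ≤ inner ℝ (w 1) a
    rw [hw1]; exact ha.2
  obtain ⟨τ, -, hτA, hτB⟩ :=
    isPreconnected_closed_iff.mp isPreconnected_Icc UA UB hUAc hUBc hcover h0 h1
  simp only [hUA, Set.mem_iUnion] at hτA
  simp only [hUB, Set.mem_iUnion] at hτB
  obtain ⟨a, haA, ha⟩ := hτA
  obtain ⟨b, hbB, hb⟩ := hτB
  have haF : a ∈ face T (w τ) := ⟨haA.1, ha⟩
  have hbF : b ∈ face T (w τ) := ⟨hbB.1, hb⟩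
  have hab : (inner ℝ x b : ℝ) < inner ℝ x a := by
    by_contra h
    push Not at h
    exact hbB.2 ⟨hbB.1, fun y hy => (haA.2 y hy).trans h⟩
  have hne : a ≠ b := by rintro rfl; exact lt_irrefl _ hab
  have hw0 : w τ ≠ 0 := by
    intro h
    apply hy0 _ (Or.inl rfl)
    have : y0 = t⁻¹ • (-(1 - 2 * τ)) • x := by
      have h2 : t • y0 = (-(1 - 2 * τ)) • x := by
        rw [neg_smul]
        have : (1 - 2 * τ) • x + t • y0 = 0 := h
        exact eq_neg_of_add_eq_zero_right this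
      rw [← h2, smul_smul, inv_mul_cancel₀ ht.ne', one_smul]
    rw [this]
    exact Submodule.smul_mem _ _ (Submodule.smul_mem _ _ (Submodule.mem_span_singleton_self x))
  refine ⟨w τ, hw0, ?_, a, haF, b, hbF, hab.ne'⟩
  have hspan : vectorSpan ℝ (face T (w τ)) = Submodule.span ℝ {a - b} := by
    apply le_antisymm
    · rw [vectorSpan_def, Submodule.span_le]
      rintro _ ⟨c, hc, d, hd, rfl⟩
      show c - d ∈ Submodule.span ℝ {a - b}
      by_cases hcd : c = d
      · rw [hcd, sub_self]; exact Submodule.zero_mem _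
      by_cases heq : Submodule.span ℝ {a - b} = Submodule.span ℝ {c - d}
      · rw [heq]; exact Submodule.mem_span_singleton_self _
      exfalso
      have hmem : Submodule.span ℝ {x} ⊔
          (Submodule.span ℝ {a - b} ⊔ Submodule.span ℝ {c - d})ᗮ ∈ F := by
        right
        exact ⟨(Submodule.span ℝ {a - b}, Submodule.span ℝ {c - d}),
          ⟨⟨⟨a, haF.1, b, hbF.1, hne, rfl⟩, ⟨c, hc.1, d, hd.1, hcd, rfl⟩⟩, heq⟩, rfl⟩
      apply hy0 _ hmem
      have hwo : w τ ∈ (Submodule.span ℝ {a - b} ⊔ Submodule.span ℝ {c - d})ᗮ := by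
        rw [← Submodule.inf_orthogonal, Submodule.mem_inf]
        exact ⟨mem_orth_of_sub (face_const haF hbF), mem_orth_of_sub (face_const hc hd)⟩
      have hyeq : y0 = t⁻¹ • ((-(1 - 2 * τ)) • x + w τ) := by
        have : (-(1 - 2 * τ)) • x + w τ = t • y0 := by
          simp only [hw]
          rw [neg_smul]; abel
        rw [this, smul_smul, inv_mul_cancel₀ ht.ne', one_smul]
      rw [hyeq]
      apply Submodule.smul_mem
      apply Submodule.add_mem_sup _ hwo
      exact Submodule.smul_mem _ _ (Submodule.mem_span_singleton_self x)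
    · rw [Submodule.span_singleton_le_iff_mem]
      exact vsub_mem_vectorSpan ℝ haF hbF
  rw [hspan]
  exact isLine_span (sub_ne_zero.mpr hne)

end Pool.Agent.Lib.MP_0d4032_co
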