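import Pool.Agent.Lib.MP_0d4032_co.Add

set_option autoImplicit false

open scoped Pointwise Topology
open Filter

namespace Pool.Agent.Lib.MP_0d4032_co

theorem separate {K : Set E3} (hK : Convex ℝ K) (hcl : IsClosed K) {q : E3} (hq : q ∉ K) :
    ∃ (v : E3) (c : ℝ), (∀ b ∈ K, (inner ℝ v b : ℝ) < c) ∧ c < inner ℝ v q := by
  obtain ⟨f, u, h1, h2⟩ := geometric_hahn_banach_point_closed hK hcl hq
  refine ⟨-((InnerProductSpace.toDual ℝ E3).symm f), -u, fun b hb => ?_, ?_⟩
  · rw [inner_neg_left, InnerProductSpace.toDual_symm_apply]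
    have := h2 b hb
    linarith
  · rw [inner_neg_left, InnerProductSpace.toDual_symm_apply]
    linarith

theorem avoid_perturb {W : Submodule ℝ E3} (v : E3) {w : E3} (hw : w ∉ W) :
    ∀ᶠ t in 𝓝[>] (0:ℝ), v + t • w ∉ W := by
  by_cases h : ∃ t0 : ℝ, 0 < t0 ∧ v + t0 • w ∈ W
  · obtain ⟨t0, ht0, hmem⟩ := h
    have h1 : ∀ᶠ t in 𝓝[>] (0:ℝ), t < t0 :=
      (isOpen_Iio.mem_nhds ht0 : Set.Iio t0 ∈ 𝓝 (0:ℝ)) |> fun h => mem_nhdsWithin_of_mem_nhds h
    filter_upwards [h1] with t ht hmem'
    apply hw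
    have h2 := Submodule.sub_mem _ hmem hmem'
    have h3 : (v + t0 • w) - (v + t • w) = (t0 - t) • w := by rw [sub_smul]; abel
    rw [h3] at h2
    exact (Submodule.smul_mem_iff _ (by linarith : t0 - t ≠ 0)).mp h2
  · push Not at h
    filter_upwards [self_mem_nhdsWithin] with t ht using h t ht

theorem strict_perturb {F : Set E3} (hF : F.Finite) {v w q : E3}
    (h : ∀ y ∈ F, (inner ℝ v y : ℝ) < inner ℝ v q) :
    ∀ᶠ t in 𝓝[>] (0:ℝ), ∀ y ∈ F, (inner ℝ (v + t • w) y : ℝ) < inner ℝ (v + t • w) q := by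
  rw [eventually_all_finite hF]
  intro y hy
  have hcont : ∀ z : E3, Tendsto (fun t : ℝ => (inner ℝ (v + t • w) z : ℝ)) (𝓝[>] (0:ℝ))
      (𝓝 (inner ℝ v z)) := by
    intro z
    have : Continuous (fun t : ℝ => (inner ℝ (v + t • w) z : ℝ)) := by fun_prop
    have h0 := this.tendsto 0
    simp only [zero_smul, add_zero] at h0
    exact h0.mono_left nhdsWithin_le_nhds
  exact (hcont y).eventually_lt (hcont q) (h y hy)

theorem mem_erode {Q : Set E3} (hQ : Convex ℝ Q) {s x : E3} :
    x ∈ erode Q s ↔ x ∈ Q ∧ x + s ∈ Q := by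
  constructor
  · intro h
    exact ⟨h (left_mem_segment ℝ x (x + s)), h (right_mem_segment ℝ x (x + s))⟩
  · rintro ⟨h1, h2⟩
    exact hQ.segment_subset h1 h2

theorem erode_convex {Q : Set E3} (hQ : Convex ℝ Q) (s : E3) : Convex ℝ (erode Q s) := by
  have : erode Q s = Q ∩ (fun x => x + s) ⁻¹' Q := by
    ext x; exact mem_erode hQ
  rw [this]
  apply hQ.inter
  intro x hx y hy a b ha hb hab
  have h := hQ hx hy ha hb hab
  show a • x + b • y + s ∈ Q
  have e : a • (x + s) + b • (y + s) = a • x + b • y + s := by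
    rw [smul_add, smul_add]
    have : a • s + b • s = s := by rw [← add_smul, hab, one_smul]
    calc a • x + a • s + (b • y + b • s) = a • x + b • y + (a • s + b • s) := by abel
      _ = _ := by rw [this]
  rw [← e]; exact h

section

variable {S : Set E3} (hS : S.Finite) (hne : S.Nonempty) {s : E3}
  (hs : Halvable (convexHull ℝ S) s)

include hS hs in
theorem gen_face {x : E3} (hx : Gen (linesOf S) (Submodule.span ℝ {s}) x) :
    ∃ (a : E3) (c : ℝ), 1 ≤ c ∧ face (convexHull ℝ S) x = segment ℝ a (a + c • s) := by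
  have hl := isLine_span hs.1
  have h1 := finrank_dir_of_gen hS subset_rfl hl hx
  have h2 := finrank_dir_of_gen hS subset_rfl hl hx.neg
  rcases hs.2 x hx.1 (orth_of_inner hx.2.1) h1 h2 with ⟨⟨a, ha⟩, -⟩ | ⟨⟨a, c, hc, ha⟩, -⟩
  · exact ⟨a, 1, le_refl _, by rw [one_smul]; exact ha⟩
  · exact ⟨a, c, hc.le, ha⟩

include hS hne hs in
theorem cylinder {q : E3} (hq : q ∈ convexHull ℝ S) :
    ∃ a ∈ erode (convexHull ℝ S) s, ∃ τ : ℝ, q = a + τ • s := by
  set Q := convexHull ℝ S with hQdef
  have hQc : IsCompact Q := hS.isCompact_convexHull ℝ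
  have hQconv : Convex ℝ Q := convex_convexHull ℝ S
  set G := erode Q s with hG
  have hGset : G = Q ∩ (fun x => x + s) ⁻¹' Q := by ext x; exact mem_erode hQconv
  have hGc : IsCompact G := by
    rw [hGset]
    exact hQc.inter_right (hQc.isClosed.preimage (by fun_prop))
  set C := G + (Submodule.span ℝ {s} : Set E3) with hC
  have hCcl : IsClosed C :=
    (Submodule.closed_of_finiteDimensional (Submodule.span ℝ {s})).add_left_of_isCompact hGc
  have hCconv : Convex ℝ C := (erode_convex hQconv s).add (Submodule.convex _)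
  have hl := isLine_span hs.1
  -- points of generic faces lie in C
  have hface : ∀ x : E3, Gen (linesOf S) (Submodule.span ℝ {s}) x → ∀ y ∈ face Q x, y ∈ C := by
    intro x hx y hy
    obtain ⟨a, c, hc, hF⟩ := gen_face hS hs hx
    have ha : a ∈ face Q x := by rw [hF]; exact left_mem_segment _ _ _
    have has : a + s ∈ face Q x := by
      rw [hF, mem_segment_iff]
      have hc0 : 0 < c := by linarith
      refine ⟨1 / c, by positivity, (div_le_one hc0).mpr hc, ?_⟩
      rw [smul_smul, one_div, inv_mul_cancel₀ hc0.ne', one_smul]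
    have haG : a ∈ G := (mem_erode hQconv).mpr ⟨ha.1, has.1⟩
    rw [hF, mem_segment_iff] at hy
    obtain ⟨t, -, -, rfl⟩ := hy
    exact Set.add_mem_add haG (by
      rw [smul_smul]
      exact Submodule.smul_mem _ _ (Submodule.mem_span_singleton_self s))
  have hqC : q ∈ C := by
    by_contra hqC
    obtain ⟨v, c, h1, h2⟩ := separate hCconv hCcl hqC
    obtain ⟨w, hw⟩ := exists_gen (linesOf_finite hS) (fun m hm => isLine_linesOf hm) hl
    have hGne : G.Nonempty := by
      obtain ⟨y, hy⟩ := face_hull_nonempty hS hne w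
      obtain ⟨a, ha, b, hb, -⟩ := hface w hw y hy
      exact ⟨a, ha⟩
    obtain ⟨a0, ha0⟩ := hGne
    have hmemC : ∀ a ∈ G, ∀ τ : ℝ, a + τ • s ∈ C := fun a ha τ =>
      Set.add_mem_add ha (Submodule.smul_mem _ _ (Submodule.mem_span_singleton_self s))
    have hvs : (inner ℝ v s : ℝ) = 0 := by
      by_contra hne'
      have := h1 _ (hmemC a0 ha0 ((c - inner ℝ v a0) / inner ℝ v s))
      rw [inner_add_right, inner_smul_right, div_mul_cancel₀ _ hne'] at this
      linarith
    have hv0 : v ≠ 0 := by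
      rintro rfl
      have := h1 _ (hmemC a0 ha0 0)
      rw [inner_zero_left] at this h2
      linarith
    have e1 := gen_perturb (linesOf_finite hS) (mem_orth_span'.mpr hvs) hv0 hw
    have e2 := strict_perturb (F := {y ∈ S | y ∈ C}) (v := v) (w := w) (q := q)
      (hS.subset (fun y hy => hy.1)) (fun y hy => (h1 y hy.2).trans h2)
    obtain ⟨t, ht1, ht2⟩ := (e1.and e2).exists
    obtain ⟨y, hy⟩ := face_nonempty hS hne (v + t • w)
    have hyF : y ∈ face Q (v + t • w) := by
      rw [hQdef, face_convexHull hS]; exact subset_convexHull ℝ _ hy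
    have hyC := hface _ ht1 y hyF
    have h3 := ht2 y ⟨hy.1, hyC⟩
    have h4 := hyF.2 q hq
    linarith
  obtain ⟨a, ha, b, hb, hab⟩ := hqC
  have hb' : b ∈ Submodule.span ℝ {s} := hb
  rw [Submodule.mem_span_singleton] at hb'
  obtain ⟨τ, rfl⟩ := hb'
  exact ⟨a, ha, τ, hab.symm⟩

include hS hne hs in
theorem chord {q : E3} (hq : q ∈ convexHull ℝ S) :
    ∃ a ∈ erode (convexHull ℝ S) s, ∃ τ : ℝ, 0 ≤ τ ∧ τ ≤ 1 ∧ q = a + τ • s := by
  obtain ⟨a, ha, τ, hτ⟩ := cylinder hS hne hs hq
  have hconv : Convex ℝ (convexHull ℝ S) := convex_convexHull ℝ S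
  have ha' := (mem_erode hconv).mp ha
  rcases lt_or_ge τ 0 with h | h
  · -- q + s is between q and a + s
    refine ⟨q, (mem_erode hconv).mpr ⟨hq, ?_⟩, 0, le_refl _, zero_le_one, by simp⟩
    apply hconv.segment_subset hq ha'.2
    have e : a + s = q + (1 - τ) • s := by rw [hτ, sub_smul, one_smul]; abel
    rw [e, mem_segment_iff]
    have h1 : 0 < 1 - τ := by linarith
    refine ⟨1 / (1 - τ), by positivity, (div_le_one h1).mpr (by linarith), ?_⟩
    rw [smul_smul, one_div, inv_mul_cancel₀ h1.ne', one_smul]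
  · rcases le_or_gt τ 1 with h' | h'
    · exact ⟨a, ha, τ, h, h', hτ⟩
    · -- q - s is between a and q
      refine ⟨q - s, (mem_erode hconv).mpr ⟨?_, by simpa using hq⟩, 1, zero_le_one, le_refl _,
        by simp⟩
      apply hconv.segment_subset ha'.1 hq
      have hτ0 : 0 < τ := by linarith
      have e : q = a + τ • s := hτ
      rw [e, mem_segment_iff]
      refine ⟨(τ - 1) / τ, div_nonneg (by linarith) h, (div_le_one hτ0).mpr (by linarith), ?_⟩
      rw [smul_smul, div_mul_cancel₀ _ hτ0.ne', sub_smul, one_smul]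
      abel

/-- generating set of the eroded polytope -/
def erodeGen (S : Set E3) (s : E3) : Set E3 :=
  {p ∈ S | p + s ∈ convexHull ℝ S} ∪ ((fun p => p - s) '' {p ∈ S | p - s ∈ convexHull ℝ S})

include hS in
theorem erodeGen_finite : (erodeGen S s).Finite :=
  (hS.subset (fun _ h => h.1)).union ((hS.subset (fun _ h => h.1)).image _)

include hS hne hs in
theorem erode_eq_hull : erode (convexHull ℝ S) s = convexHull ℝ (erodeGen S s) := by
  have hconv : Convex ℝ (convexHull ℝ S) := convex_convexHull ℝ S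
  apply Set.Subset.antisymm
  · intro y hy
    by_contra hcon
    have hy' := (mem_erode hconv).mp hy
    have hfin := erodeGen_finite (s := s) hS
    obtain ⟨v, c, h1, h2⟩ := separate (convex_convexHull ℝ _)
      (hfin.isCompact_convexHull ℝ).isClosed hcon
    -- make it non orthogonal to s
    have hws : s ∉ (Submodule.span ℝ {s})ᗮ := by
      intro h
      exact hs.1 (inner_self_eq_zero.mp (orth_of_inner h))
    have e1 := avoid_perturb v hws
    have e2 := strict_perturb (F := erodeGen S s) (v := v) (w := s) (q := y) hfin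
      (fun b hb => (h1 b (subset_convexHull ℝ _ hb)).trans h2)
    obtain ⟨t, ht1, ht2⟩ := (e1.and e2).exists
    set x := v + t • s with hx
    have hxs : (inner ℝ x s : ℝ) ≠ 0 := fun h => ht1 (mem_orth_span'.mpr h)
    obtain ⟨p, hp⟩ := face_nonempty hS hne x
    have hpF : p ∈ face (convexHull ℝ S) x := by
      rw [face_convexHull hS]; exact subset_convexHull ℝ _ hp
    obtain ⟨a, ha, τ, hτ0, hτ1, hpa⟩ := chord hS hne hs hpF.1
    have ha' := (mem_erode hconv).mp ha
    rcases lt_or_gt_of_ne hxs with hneg | hpos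
    · have h3 := hpF.2 a ha'.1
      rw [hpa, inner_add_right, inner_smul_right] at h3
      have hτ : τ = 0 := by
        apply le_antisymm _ hτ0
        by_contra hh
        push Not at hh
        have := mul_neg_of_pos_of_neg hh hneg
        linarith
      have hpa' : p = a := by rw [hpa, hτ]; simp
      have hmem : p ∈ erodeGen S s := Or.inl ⟨hp.1, by rw [hpa']; exact ha'.2⟩
      have h4 := ht2 p hmem
      have h5 := hpF.2 y hy'.1
      linarith
    · have h3 := hpF.2 (a + s) ha'.2
      rw [hpa, inner_add_right, inner_add_right, inner_smul_right] at h3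
      have hτ : τ = 1 := by
        apply le_antisymm hτ1
        by_contra hh
        push Not at hh
        have := mul_lt_mul_of_pos_right hh hpos
        linarith
      have hpa' : p - s = a := by rw [hpa, hτ]; simp
      have hmem : p - s ∈ erodeGen S s :=
        Or.inr ⟨p, ⟨hp.1, by rw [hpa']; exact ha'.1⟩, rfl⟩
      have h4 := ht2 _ hmem
      have h5 := hpF.2 (y + s) hy'.2
      rw [inner_sub_right] at h4
      rw [inner_add_right] at h5
      linarith
  · apply convexHull_min _ (erode_convex hconv s)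
    rintro x (⟨h1, h2⟩ | ⟨p, ⟨h1, h2⟩, rfl⟩)
    · exact (mem_erode hconv).mpr ⟨subset_convexHull ℝ S h1, h2⟩
    · exact (mem_erode hconv).mpr ⟨h2, by simpa using subset_convexHull ℝ S h1⟩

include hS hne hs in
theorem erode_add : erode (convexHull ℝ S) s + segment ℝ 0 s = convexHull ℝ S := by
  have hconv : Convex ℝ (convexHull ℝ S) := convex_convexHull ℝ S
  apply Set.Subset.antisymm
  · rintro _ ⟨a, ha, b, hb, rfl⟩
    obtain ⟨t, h0, h1, rfl⟩ := mem_segment_zero.mp hb
    exact ha (mem_segment_iff.mpr ⟨t, h0, h1, rfl⟩)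
  · intro q hq
    obtain ⟨a, ha, τ, h0, h1, rfl⟩ := chord hS hne hs hq
    exact Set.add_mem_add ha (mem_segment_zero.mpr ⟨τ, h0, h1, rfl⟩)

end

end Pool.Agent.Lib.MP_0d4032_co
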