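import Pool.Agent.Lib.MP_0d4032_co.Types

set_option autoImplicit false

open scoped Pointwise Topology
open Filter

namespace Pool.Agent.Lib.MP_0d4032_co

/-- the lines spanned by the differences of points of `S` -/
def linesOf (S : Set E3) : Set (Submodule ℝ E3) :=
  {l | ∃ p ∈ S, ∃ q ∈ S, p ≠ q ∧ l = Submodule.span ℝ {p - q}}

theorem linesOf_finite {S : Set E3} (hS : S.Finite) : (linesOf S).Finite := by
  have : linesOf S ⊆ (fun pq : E3 × E3 => Submodule.span ℝ {pq.1 - pq.2}) '' (S ×ˢ S) := by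
    rintro l ⟨p, hp, q, hq, -, rfl⟩
    exact ⟨(p, q), ⟨hp, hq⟩, rfl⟩
  exact ((hS.prod hS).image _).subset this

theorem isLine_linesOf {S : Set E3} {l : Submodule ℝ E3} (h : l ∈ linesOf S) : IsLine l := by
  obtain ⟨p, -, q, -, hpq, rfl⟩ := h
  exact isLine_span (sub_ne_zero.mpr hpq)

/-- The direction `x` is orthogonal to `l` but to no other line of `L`. -/
def Gen (L : Set (Submodule ℝ E3)) (l : Submodule ℝ E3) (x : E3) : Prop :=
  x ≠ 0 ∧ x ∈ lᗮ ∧ ∀ m ∈ L, m ≠ l → x ∉ mᗮ

theorem mem_orth_of_sub {v p q : E3} (h : inner ℝ v p = inner ℝ v q) :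
    v ∈ (Submodule.span ℝ {p - q})ᗮ := by
  rw [mem_orth_span', inner_sub_right, h, sub_self]

/-- A direction orthogonal to no line of `S` has a point as its face. -/
theorem subsingleton_of_not_orth {S : Set E3} {L : Set (Submodule ℝ E3)} (hL : linesOf S ⊆ L)
    {v : E3} (h : ∀ m ∈ L, v ∉ mᗮ) : (face S v).Subsingleton := by
  intro p hp q hq
  by_contra hpq
  exact h _ (hL ⟨p, hp.1, q, hq.1, hpq, rfl⟩) (mem_orth_of_sub (face_const hp hq))

theorem dir_le_of_gen {S : Set E3} (hS : S.Finite) {L : Set (Submodule ℝ E3)}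
    (hL : linesOf S ⊆ L) {l : Submodule ℝ E3} {x : E3} (hx : Gen L l x) :
    dir (convexHull ℝ S) x ≤ l := by
  rw [dir_convexHull hS, vectorSpan_def, Submodule.span_le]
  rintro _ ⟨p, hp, q, hq, rfl⟩
  show p - q ∈ l
  by_cases hpq : p = q
  · rw [hpq, sub_self]; exact l.zero_mem
  · have hmem : Submodule.span ℝ {p - q} ∈ L := hL ⟨p, hp.1, q, hq.1, hpq, rfl⟩
    by_cases h : Submodule.span ℝ {p - q} = l
    · rw [← h]; exact Submodule.mem_span_singleton_self _
    · exact absurd (mem_orth_of_sub (face_const hp hq)) (hx.2.2 _ hmem h)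

theorem Gen.neg {L : Set (Submodule ℝ E3)} {l : Submodule ℝ E3} {x : E3} (hx : Gen L l x) :
    Gen L l (-x) :=
  ⟨neg_ne_zero.mpr hx.1, Submodule.neg_mem _ hx.2.1, fun m hm hml h =>
    hx.2.2 m hm hml (by simpa using Submodule.neg_mem _ h)⟩

theorem exists_gen {L : Set (Submodule ℝ E3)} (hfin : L.Finite) (hL : ∀ m ∈ L, IsLine m)
    {l : Submodule ℝ E3} (hl : IsLine l) : ∃ x, Gen L l x := by
  classical
  set F : Set (Submodule ℝ E3) := insert ⊥ ((fun m => mᗮ) '' {m | m ∈ L ∧ m ≠ l}) with hF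
  have hFfin : F.Finite := Set.Finite.insert _ ((hfin.subset (fun m hm => hm.1)).image _)
  have hK : Module.finrank ℝ lᗮ = 2 := by
    have := finrank_orth l
    rw [hl] at this
    omega
  obtain ⟨x, hx, hxF⟩ := avoid lᗮ hFfin (by
    rintro W (rfl | ⟨m, ⟨hm, hml⟩, rfl⟩) hle
    · have := Submodule.finrank_mono hle
      rw [hK, finrank_bot] at this
      omega
    · have h1 := Submodule.orthogonal_le hle
      rw [Submodule.orthogonal_orthogonal, Submodule.orthogonal_orthogonal] at h1
      exact hml ((hL m hm).eq_of_le h1 (by rw [hl])))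
  refine ⟨x, ?_, hx, fun m hm hml h => hxF mᗮ (Or.inr ⟨m, ⟨hm, hml⟩, rfl⟩) h⟩
  intro h0
  exact hxF ⊥ (Or.inl rfl) (by rw [h0]; exact Submodule.zero_mem _)

/-- Perturbing to a generic direction. -/
theorem gen_perturb {L : Set (Submodule ℝ E3)} (hfin : L.Finite) {l : Submodule ℝ E3}
    {x w : E3} (hx : x ∈ lᗮ) (hx0 : x ≠ 0) (hw : Gen L l w) :
    ∀ᶠ t in 𝓝[>] (0:ℝ), Gen L l (x + t • w) := by
  have h1 : ∀ᶠ t in 𝓝[>] (0:ℝ), x + t • w ≠ 0 := by
    have hc : Tendsto (fun t : ℝ => x + t • w) (𝓝[>] (0:ℝ)) (𝓝 x) := by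
      have : Continuous (fun t : ℝ => x + t • w) := by fun_prop
      have h0 := this.tendsto 0
      simp only [zero_smul, add_zero] at h0
      exact h0.mono_left nhdsWithin_le_nhds
    exact hc.eventually_ne hx0
  have h2 : ∀ᶠ t in 𝓝[>] (0:ℝ), ∀ m ∈ L, m ≠ l → x + t • w ∉ mᗮ := by
    rw [eventually_all_finite hfin]
    intro m hm
    by_cases hml : m = l
    · filter_upwards with t h using absurd hml h
    have hwm := hw.2.2 m hm hml
    -- at most one bad t
    have hne : ∀ᶠ t in 𝓝[>] (0:ℝ), x + t • w ∉ mᗮ := by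
      rw [Submodule.mem_orthogonal'] at hwm
      push Not at hwm
      obtain ⟨d, hd, hdw⟩ := hwm
      have : ∀ t : ℝ, x + t • w ∈ mᗮ → inner ℝ x d + t * inner ℝ w d = 0 := by
        intro t ht
        rw [Submodule.mem_orthogonal'] at ht
        have := ht d hd
        rw [inner_add_left, inner_smul_left] at this
        simpa using this
      have h3 : ∀ᶠ t in 𝓝[>] (0:ℝ), t ≠ -(inner ℝ x d) / (inner ℝ w d) := by
        by_cases h0 : -(inner ℝ x d : ℝ) / (inner ℝ w d) = 0
        · rw [h0]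
          filter_upwards [self_mem_nhdsWithin] with t ht using ne_of_gt ht
        · have : ∀ᶠ t in 𝓝 (0:ℝ), t ≠ -(inner ℝ x d) / (inner ℝ w d) :=
            isOpen_ne.mem_nhds (Ne.symm h0)
          exact this.filter_mono nhdsWithin_le_nhds
      filter_upwards [h3] with t ht hmem
      apply ht
      have h4 := this t hmem
      field_simp
      linarith
    filter_upwards [hne] with t ht _ using ht
  filter_upwards [h1, h2] with t ht1 ht2
  exact ⟨ht1, Submodule.add_mem _ hx (Submodule.smul_mem _ _ hw.2.1), ht2⟩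

/-- All pairs of opposite faces in directions orthogonal to `l`, if at most one-dimensional,
contain together exactly `m` edges parallel to `l`. -/
def HasType (P : Set E3) (l : Submodule ℝ E3) (m : ℕ) : Prop :=
  ∀ x : E3, x ≠ 0 → x ∈ lᗮ → Module.finrank ℝ (dir P x) ≤ 1 →
    Module.finrank ℝ (dir P (-x)) ≤ 1 → typ P l x = m

theorem face_face_of_orth {P : Set E3} {x w : E3} {l : Submodule ℝ E3} (h : dir P x = l)
    (hw : w ∈ lᗮ) : face (face P x) w = face P x := by
  ext a
  constructor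
  · intro ha; exact ha.1
  · intro ha
    refine ⟨ha, fun b hb => ?_⟩
    have hmem : a - b ∈ l := by
      rw [← h]
      exact vsub_mem_vectorSpan ℝ ha hb
    rw [Submodule.mem_orthogonal'] at hw
    have := hw _ hmem
    rw [inner_sub_right] at this
    linarith

theorem dir_perturb_iff {P : Set E3} {x w y : E3} {l : Submodule ℝ E3} (hl : IsLine l)
    (hw : w ∈ lᗮ) (hdim : Module.finrank ℝ (dir P x) ≤ 1)
    (hy : face P y = face (face P x) w) : dir P y = l ↔ dir P x = l := by
  constructor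
  · intro h
    have hle : dir P y ≤ dir P x := by
      unfold dir
      rw [hy]
      exact vectorSpan_mono ℝ (face_subset _ _)
    rw [h] at hle
    exact (hl.eq_of_le hle hdim).symm
  · intro h
    unfold dir
    rw [hy, face_face_of_orth h hw]
    exact h

/-- It is enough to know the type at generic directions. -/
theorem hasType_of_generic {S : Set E3} (hS : S.Finite) {L : Set (Submodule ℝ E3)}
    (hfin : L.Finite) (hL : ∀ m ∈ L, IsLine m) {l : Submodule ℝ E3} (hl : IsLine l) {k : ℕ}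
    (h : ∀ x, Gen L l x → typ (convexHull ℝ S) l x = k) : HasType (convexHull ℝ S) l k := by
  intro x hx0 hx h1 h2
  obtain ⟨w, hw⟩ := exists_gen hfin hL hl
  have e1 := face_perturb hS x w
  have e2 := face_perturb hS (-x) (-w)
  obtain ⟨t, ht, f1, f2⟩ := ((gen_perturb hfin hx hx0 hw).and (e1.and e2)).exists
  have f2' : face (convexHull ℝ S) (-(x + t • w)) =
      face (face (convexHull ℝ S) (-x)) (-w) := by
    rw [← f2]; congr 1; rw [neg_add, smul_neg]
  rw [← h _ ht]
  unfold typ
  have i1 := dir_perturb_iff hl hw.2.1 h1 f1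
  have i2 := dir_perturb_iff hl (Submodule.neg_mem _ hw.2.1) h2 f2'
  simp only [i1, i2]

/-- At generic directions the faces are at most one-dimensional. -/
theorem finrank_dir_of_gen {S : Set E3} (hS : S.Finite) {L : Set (Submodule ℝ E3)}
    (hL : linesOf S ⊆ L) {l : Submodule ℝ E3} (hl : IsLine l) {x : E3} (hx : Gen L l x) :
    Module.finrank ℝ (dir (convexHull ℝ S) x) ≤ 1 := by
  have := Submodule.finrank_mono (dir_le_of_gen hS hL hx)
  rw [hl] at this
  exact this

theorem typ_of_gen {S : Set E3} (hS : S.Finite) {L : Set (Submodule ℝ E3)}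
    (hL : linesOf S ⊆ L) {l : Submodule ℝ E3} (hl : IsLine l) {x : E3} (hx : Gen L l x) {k : ℕ}
    (h : HasType (convexHull ℝ S) l k) : typ (convexHull ℝ S) l x = k :=
  h x hx.1 hx.2.1 (finrank_dir_of_gen hS hL hl hx) (finrank_dir_of_gen hS hL hl hx.neg)

/-- Part (III): constant types give a constant edge count. -/
theorem edgeCount_of_types {S : Set E3} (hS : S.Finite) {L : Finset (Submodule ℝ E3)}
    (hL : ∀ l ∈ L, IsLine l) (hdir : ∀ v : E3, v ≠ 0 →
      IsLine (dir (convexHull ℝ S) v) → dir (convexHull ℝ S) v ∈ L) {m : Submodule ℝ E3 → ℕ}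
    (hm : ∀ l ∈ L, HasType (convexHull ℝ S) l (m l)) {u : E3}
    (hu : ¬ ParallelToFace (convexHull ℝ S) u) :
    edgeCount (convexHull ℝ S) u = ∑ l ∈ L, m l := by
  rw [edgeCount_eq hL hdir hu]
  apply Finset.sum_congr rfl
  intro l hl
  by_cases hul : u ∈ l
  · rw [fib_eq_zero hul hu]
    -- the type is zero
    have hL2 : (linesOf S ∪ ↑L).Finite := (linesOf_finite hS).union L.finite_toSet
    obtain ⟨x, hx⟩ := exists_gen hL2 (by
      rintro m (h | h)
      · exact isLine_linesOf h
      · exact hL m h) (hL l hl)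
    have ht := typ_of_gen hS Set.subset_union_left (hL l hl) hx (hm l hl)
    rw [← ht]
    unfold typ
    have n1 : dir (convexHull ℝ S) x ≠ l := by
      intro h
      exact hu ⟨x, hx.1, by show u ∈ dir _ x; rw [h]; exact hul⟩
    have n2 : dir (convexHull ℝ S) (-x) ≠ l := by
      intro h
      exact hu ⟨-x, neg_ne_zero.mpr hx.1, by show u ∈ dir _ (-x); rw [h]; exact hul⟩
    rw [if_neg n1, if_neg n2]
  · obtain ⟨x, h1, h2, h3, -⟩ := exists_perp (hL l hl) hul
    have hx0 : x ≠ 0 := by intro h; rw [h, norm_zero] at h1; norm_num at h1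
    rw [fib_eq (hL l hl) hul hx0 h2 h3]
    refine hm l hl x hx0 h3 (finrank_dir_le_one hx0 h2 hu) (finrank_dir_le_one
      (neg_ne_zero.mpr hx0) ?_ hu)
    rw [inner_neg_right, h2, neg_zero]

end Pool.Agent.Lib.MP_0d4032_co
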