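import Pool.Agent.Lib.MP_0d4032_co.Erode

set_option autoImplicit false

open scoped Pointwise Topology
open Filter

namespace Pool.Agent.Lib.MP_0d4032_co

/-- the length along `s` of a segment is well defined -/
theorem segment_sub_mem {a s x y : E3} {c : ℝ} (hc : 0 ≤ c) (hs : s ≠ 0)
    (hx : x ∈ segment ℝ a (a + c • s)) (hy : y ∈ segment ℝ a (a + c • s)) {r : ℝ}
    (h : y = x + r • s) : r ≤ c := by
  obtain ⟨t, h0, h1, rfl⟩ := mem_segment_iff.mp hx
  obtain ⟨t', h0', h1', rfl⟩ := mem_segment_iff.mp hy
  have e : (t' * c - t * c - r) • s = 0 := by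
    have : a + t' • c • s = a + t • c • s + r • s := h
    rw [sub_smul, sub_smul, ← smul_smul, ← smul_smul]
    have h2 : t' • c • s = t • c • s + r • s := by
      have := congrArg (fun z => z - a) this
      simpa [add_assoc] using this
    rw [h2]; abel
  rcases smul_eq_zero.mp e with h | h
  · have h3 : t' * c ≤ c := by nlinarith
    have h4 : 0 ≤ t * c := mul_nonneg h0 hc
    linarith
  · exact absurd h hs

section

variable {S : Set E3} (hS : S.Finite) (hne : S.Nonempty) {s : E3}
  (hs : Halvable (convexHull ℝ S) s)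

include hS hne hs in
theorem erodeGen_nonempty : (erodeGen S s).Nonempty := by
  obtain ⟨p, hp⟩ := hne
  obtain ⟨a, ha, -⟩ := chord hS ⟨p, hp⟩ hs (subset_convexHull ℝ S hp)
  rw [erode_eq_hull hS ⟨p, hp⟩ hs] at ha
  by_contra h
  rw [Set.not_nonempty_iff_eq_empty] at h
  rw [h, convexHull_empty] at ha
  exact ha

include hS hne hs in
/-- faces of the eroded polytope -/
theorem face_erode_add (v : E3) :
    face (erode (convexHull ℝ S) s) v + face (segment ℝ 0 s) v = face (convexHull ℝ S) v := by
  rw [← face_add, erode_add hS hne hs]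

include hS hne hs in
theorem face_erode_nonempty (v : E3) : (face (erode (convexHull ℝ S) s) v).Nonempty := by
  rw [erode_eq_hull hS hne hs]
  exact face_hull_nonempty (erodeGen_finite hS) (erodeGen_nonempty hS hne hs) v

include hS hne hs in
theorem dir_erode_of_not_orth {v : E3} (h : (inner ℝ v s : ℝ) ≠ 0) :
    dir (convexHull ℝ S) v = dir (erode (convexHull ℝ S) s) v := by
  conv_lhs => rw [← erode_add hS hne hs]
  exact dir_add_of_not_orth (face_erode_nonempty hS hne hs v) h

include hS hne hs in
theorem dir_erode_of_orth {v : E3} (h : (inner ℝ v s : ℝ) = 0) :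
    dir (convexHull ℝ S) v = dir (erode (convexHull ℝ S) s) v ⊔ Submodule.span ℝ {s} := by
  conv_lhs => rw [← erode_add hS hne hs]
  exact dir_add_of_orth (face_erode_nonempty hS hne hs v) h

include hS hne hs in
theorem dir_erode_short {v : E3} (h : (inner ℝ v s : ℝ) = 0)
    (hv : ShortEdge (convexHull ℝ S) v s) : dir (erode (convexHull ℝ S) s) v = ⊥ := by
  obtain ⟨a, ha⟩ := hv
  unfold dir
  rw [vectorSpan_eq_bot_iff_subsingleton]
  have key : ∀ y ∈ face (erode (convexHull ℝ S) s) v, y = a := by
    intro y hy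
    have h1 : y ∈ segment ℝ a (a + s) := by
      rw [← ha, ← face_erode_add hS hne hs, face_segment_orth h]
      exact ⟨y, hy, 0, left_mem_segment _ _ _, by simp⟩
    have h2 : y + s ∈ segment ℝ a (a + s) := by
      rw [← ha, ← face_erode_add hS hne hs, face_segment_orth h]
      exact ⟨y, hy, s, right_mem_segment _ _ _, rfl⟩
    obtain ⟨t, h0, h1', rfl⟩ := mem_segment_iff.mp h1
    obtain ⟨t', h0', h1'', heq⟩ := mem_segment_iff.mp h2
    have e : (t + 1 - t') • s = 0 := by
      have : a + t • s + s = a + t' • s := heq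
      rw [sub_smul, add_smul, one_smul]
      have h3 : t • s + s = t' • s := by
        have := congrArg (fun z => z - a) this
        simpa [add_assoc] using this
      rw [h3, sub_self]
    rcases smul_eq_zero.mp e with h | h
    · have : t = 0 := by linarith
      rw [this]; simp
    · exact absurd h hs.1
  intro x hx y hy
  rw [key x hx, key y hy]

include hS hne hs in
theorem dir_erode_long {v : E3} (h : (inner ℝ v s : ℝ) = 0)
    (hv : LongEdge (convexHull ℝ S) v s) :
    dir (erode (convexHull ℝ S) s) v = Submodule.span ℝ {s} := by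
  obtain ⟨a, c, hc, ha⟩ := hv
  have hle : dir (erode (convexHull ℝ S) s) v ≤ Submodule.span ℝ {s} := by
    have h1 : dir (erode (convexHull ℝ S) s) v ≤ dir (convexHull ℝ S) v := by
      rw [dir_erode_of_orth hS hne hs h]; exact le_sup_left
    refine h1.trans ?_
    unfold dir
    rw [ha, vectorSpan_def, Submodule.span_le]
    rintro _ ⟨x, hx, y, hy, rfl⟩
    obtain ⟨t, -, -, rfl⟩ := mem_segment_iff.mp hx
    obtain ⟨t', -, -, rfl⟩ := mem_segment_iff.mp hy
    show a + t • c • s - (a + t' • c • s) ∈ Submodule.span ℝ {s}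
    have : a + t • c • s - (a + t' • c • s) = (t * c - t' * c) • s := by
      rw [sub_smul, ← smul_smul, ← smul_smul]; abel
    rw [this]
    exact Submodule.smul_mem _ _ (Submodule.mem_span_singleton_self s)
  by_contra hcon
  -- then the face is a point
  have hbot : dir (erode (convexHull ℝ S) s) v = ⊥ := by
    by_contra hb
    apply hcon
    apply Submodule.eq_of_le_of_finrank_le hle
    rw [finrank_span_singleton hs.1, Nat.one_le_iff_ne_zero]
    intro h0
    exact hb (Submodule.finrank_eq_zero.mp h0)
  unfold dir at hbot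
  rw [vectorSpan_eq_bot_iff_subsingleton] at hbot
  obtain ⟨y, hy⟩ := face_erode_nonempty hS hne hs v
  -- end points of the long edge
  have hm1 : a ∈ face (convexHull ℝ S) v := by rw [ha]; exact left_mem_segment _ _ _
  have hm2 : a + c • s ∈ face (convexHull ℝ S) v := by rw [ha]; exact right_mem_segment _ _ _
  rw [← face_erode_add hS hne hs, face_segment_orth h] at hm1 hm2
  obtain ⟨y1, hy1, b1, hb1, e1⟩ := hm1
  obtain ⟨y2, hy2, b2, hb2, e2⟩ := hm2
  obtain ⟨t1, h10, h11, rfl⟩ := mem_segment_zero.mp hb1
  obtain ⟨t2, h20, h21, rfl⟩ := mem_segment_zero.mp hb2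
  rw [hbot hy1 hy] at e1
  rw [hbot hy2 hy] at e2
  have e1 : y + t1 • s = a := e1
  have e2 : y + t2 • s = a + c • s := e2
  have e : (t2 - t1 - c) • s = 0 := by
    rw [sub_smul, sub_smul]
    rw [← e1] at e2
    have h3 : t2 • s = t1 • s + c • s := by
      have := congrArg (fun z => z - y) e2
      simpa [add_assoc] using this
    rw [h3]; abel
  rcases smul_eq_zero.mp e with h | h
  · linarith
  · exact hs.1 h

include hS hne hs in
theorem halvable_typ {x : E3} (hx0 : x ≠ 0) (hxs : (inner ℝ x s : ℝ) = 0)
    (h1 : Module.finrank ℝ (dir (convexHull ℝ S) x) ≤ 1)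
    (h2 : Module.finrank ℝ (dir (convexHull ℝ S) (-x)) ≤ 1) :
    typ (erode (convexHull ℝ S) s) (Submodule.span ℝ {s}) x = 1 := by
  have hxs' : (inner ℝ (-x) s : ℝ) = 0 := by rw [inner_neg_left, hxs, neg_zero]
  have hne' : (⊥ : Submodule ℝ E3) ≠ Submodule.span ℝ {s} := by
    intro h
    exact hs.1 (Submodule.span_singleton_eq_bot.mp h.symm)
  unfold typ
  rcases hs.2 x hx0 hxs h1 h2 with ⟨ha, hb⟩ | ⟨ha, hb⟩
  · rw [dir_erode_short hS hne hs hxs ha, dir_erode_long hS hne hs hxs' hb, if_neg hne', if_pos rfl]
  · rw [dir_erode_long hS hne hs hxs ha, dir_erode_short hS hne hs hxs' hb, if_pos rfl, if_neg hne']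

open Classical in
include hS hne hs in
/-- Soundness of halving a zone. -/
theorem Typed.halve {k : ℕ} {L : Finset (Submodule ℝ E3)} {m : Submodule ℝ E3 → ℕ}
    (h : Typed (k + 1) (convexHull ℝ S) L m) :
    Typed k (erode (convexHull ℝ S) s) L (Function.update m (Submodule.span ℝ {s}) 1) := by
  set l0 := Submodule.span ℝ {s} with hl0
  have hl0line : IsLine l0 := isLine_span hs.1
  -- a generic direction orthogonal to s
  obtain ⟨g, hg⟩ := exists_gen (linesOf_finite hS) (fun m hm => isLine_linesOf hm) hl0line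
  have hg1 := finrank_dir_of_gen hS subset_rfl hl0line hg
  have hg2 := finrank_dir_of_gen hS subset_rfl hl0line hg.neg
  have hgs : (inner ℝ g s : ℝ) = 0 := orth_of_inner hg.2.1
  have hgs' : (inner ℝ (-g) s : ℝ) = 0 := by rw [inner_neg_left, hgs, neg_zero]
  have dg : ∀ x : E3, (inner ℝ x s : ℝ) = 0 →
      Module.finrank ℝ (dir (convexHull ℝ S) x) ≤ 1 → dir (convexHull ℝ S) x = l0 := by
    intro x hx h1
    symm
    apply hl0line.eq_of_le _ h1
    rw [dir_erode_of_orth hS hne hs hx]; exact le_sup_right
  have hl0L : l0 ∈ L := by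
    have := h.edge g hg.1
    rw [dg g hgs hg1] at this
    exact this hl0line
  have hm0 : m l0 = 2 := by
    rw [← h.type l0 hl0L g hg.1 hg.2.1 hg1 hg2]
    unfold typ
    rw [dg g hgs hg1, dg (-g) hgs' hg2, if_pos rfl]
  have hfin' := erodeGen_finite (s := s) hS
  refine ⟨h.line, ?_, ?_, ?_⟩
  · -- edges of the eroded polytope
    intro v hv hline
    by_cases heq : dir (erode (convexHull ℝ S) s) v = l0
    · rw [heq]; exact hl0L
    set l := dir (erode (convexHull ℝ S) s) v with hl
    have hLfin : (insert l0 (linesOf (erodeGen S s)) : Set (Submodule ℝ E3)).Finite :=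
      (linesOf_finite hfin').insert _
    have hLline : ∀ m ∈ (insert l0 (linesOf (erodeGen S s)) : Set (Submodule ℝ E3)),
        IsLine m := by
      rintro m (rfl | hm)
      · exact hl0line
      · exact isLine_linesOf hm
    obtain ⟨w, hw⟩ := exists_gen hLfin hLline hline
    have hvl : v ∈ lᗮ := mem_orth_of_dir hl.symm
    have e1 := gen_perturb hLfin hvl hv hw
    have e2 := face_perturb hfin' v w
    obtain ⟨t, ht1, ht2⟩ := (e1.and e2).exists
    rw [← erode_eq_hull hS hne hs] at ht2
    have h3 : dir (erode (convexHull ℝ S) s) (v + t • w) = l := by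
      unfold dir
      rw [ht2, face_face_of_orth hl.symm hw.2.1]
      rfl
    have hns : (inner ℝ (v + t • w) s : ℝ) ≠ 0 := by
      intro h0
      exact ht1.2.2 l0 (Or.inl rfl) (Ne.symm heq) (mem_orth_span'.mpr h0)
    have h4 := dir_erode_of_not_orth hS hne hs hns
    rw [h3] at h4
    rw [← h4]
    exact h.edge _ ht1.1 (by rw [h4]; exact hline)
  · intro l hlL
    have hlline := h.line l hlL
    -- enough generic directions
    set L' : Set (Submodule ℝ E3) := insert l0 (linesOf S ∪ linesOf (erodeGen S s)) with hL'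
    have hL'fin : L'.Finite := ((linesOf_finite hS).union (linesOf_finite hfin')).insert _
    have hL'line : ∀ m ∈ L', IsLine m := by
      rintro m (rfl | hm | hm)
      · exact hl0line
      · exact isLine_linesOf hm
      · exact isLine_linesOf hm
    have hsub : linesOf S ⊆ L' := fun x hx => Or.inr (Or.inl hx)
    rw [erode_eq_hull hS hne hs]
    apply hasType_of_generic hfin' hL'fin hL'line hlline
    intro x hx
    rw [← erode_eq_hull hS hne hs]
    have g1 := finrank_dir_of_gen hS hsub hlline hx
    have g2 := finrank_dir_of_gen hS hsub hlline hx.neg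
    by_cases hll : l = l0
    · rw [hll, Function.update_self]
      rw [hll] at hx
      exact halvable_typ hS hne hs hx.1 (orth_of_inner hx.2.1) g1 g2
    · rw [Function.update_of_ne hll]
      have hns : (inner ℝ x s : ℝ) ≠ 0 := by
        intro h0
        exact hx.2.2 l0 (Or.inl rfl) (Ne.symm hll) (mem_orth_span'.mpr h0)
      have hns' : (inner ℝ (-x) s : ℝ) ≠ 0 := by rw [inner_neg_left]; exact neg_ne_zero.mpr hns
      rw [← h.type l hlL x hx.1 hx.2.1 g1 g2]
      unfold typ
      rw [← dir_erode_of_not_orth hS hne hs hns, ← dir_erode_of_not_orth hS hne hs hns']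
  · rw [← Finset.add_sum_erase _ _ hl0L, Function.update_self]
    have h5 := h.sum
    rw [← Finset.add_sum_erase _ _ hl0L, hm0] at h5
    have h6 : ∑ x ∈ L.erase l0, Function.update m l0 1 x = ∑ x ∈ L.erase l0, m x := by
      apply Finset.sum_congr rfl
      intro l hl
      rw [Function.update_of_ne (Finset.ne_of_mem_erase hl)]
    rw [h6]
    omega

include hS hne hs in
theorem erode_polyhedron (hint : (interior (convexHull ℝ S)).Nonempty) :
    IsPolyhedron (erode (convexHull ℝ S) s) := by
  have hfin' := erodeGen_finite (s := s) hS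
  have hne' := erodeGen_nonempty hS hne hs
  refine ⟨⟨erodeGen S s, hfin', erode_eq_hull hS hne hs⟩, ?_⟩
  rw [erode_eq_hull hS hne hs]
  apply interior_of_vectorSpan hne'
  have hspan := vectorSpan_of_interior hint
  have hl0line : IsLine (Submodule.span ℝ {s}) := isLine_span hs.1
  obtain ⟨g, hg⟩ := exists_gen (linesOf_finite hS) (fun m hm => isLine_linesOf hm) hl0line
  have hg1 := finrank_dir_of_gen hS subset_rfl hl0line hg
  have hg2 := finrank_dir_of_gen hS subset_rfl hl0line hg.neg
  have hgs : (inner ℝ g s : ℝ) = 0 := orth_of_inner hg.2.1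
  have ht := halvable_typ hS hne hs hg.1 hgs hg1 hg2
  -- span s is contained in the vector span
  have hle : ∀ v : E3, dir (erode (convexHull ℝ S) s) v ≤ vectorSpan ℝ (erodeGen S s) := by
    intro v
    rw [← vectorSpan_convexHull, ← erode_eq_hull hS hne hs]
    exact vectorSpan_mono ℝ (face_subset _ _)
  have hsle : Submodule.span ℝ {s} ≤ vectorSpan ℝ (erodeGen S s) := by
    unfold typ at ht
    by_cases h1 : dir (erode (convexHull ℝ S) s) g = Submodule.span ℝ {s}
    · rw [← h1]; exact hle g
    · by_cases h2 : dir (erode (convexHull ℝ S) s) (-g) = Submodule.span ℝ {s}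
      · rw [← h2]; exact hle (-g)
      · rw [if_neg h1, if_neg h2] at ht
        omega
  have hadd : vectorSpan ℝ (convexHull ℝ S) =
      vectorSpan ℝ (erode (convexHull ℝ S) s) ⊔ Submodule.span ℝ {s} := by
    conv_lhs => rw [← erode_add hS hne hs]
    rw [vectorSpan_add, vectorSpan_segment]
    · rw [erode_eq_hull hS hne hs]; exact hne'.mono (subset_convexHull ℝ _)
    · exact ⟨0, left_mem_segment _ _ _⟩
  rw [vectorSpan_convexHull, hspan, erode_eq_hull hS hne hs, vectorSpan_convexHull,
    sup_eq_left.mpr hsle] at hadd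
  exact hadd.symm

end

end Pool.Agent.Lib.MP_0d4032_co
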