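import Pool.Agent.Lib.MP_0d4032_co.Basic

set_option autoImplicit false

open scoped Pointwise Topology
open Filter

namespace Pool.Agent.Lib.MP_0d4032_co

/-- a line through the origin -/
def IsLine (l : Submodule ℝ E3) : Prop := Module.finrank ℝ l = 1

theorem IsLine.exists_span {l : Submodule ℝ E3} (h : IsLine l) :
    ∃ d : E3, d ≠ 0 ∧ l = Submodule.span ℝ {d} := by
  obtain ⟨v, hv, hall⟩ := finrank_eq_one_iff'.mp h
  refine ⟨(v : E3), fun h0 => hv (Subtype.ext h0), ?_⟩
  apply le_antisymm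
  · intro x hx
    obtain ⟨c, hc⟩ := hall ⟨x, hx⟩
    rw [Submodule.mem_span_singleton]
    exact ⟨c, by simpa using congrArg Subtype.val hc⟩
  · rw [Submodule.span_singleton_le_iff_mem]
    exact v.2

theorem isLine_span {d : E3} (h : d ≠ 0) : IsLine (Submodule.span ℝ {d}) :=
  finrank_span_singleton h

theorem finrank_E3 : Module.finrank ℝ E3 = 3 := by simp

theorem finrank_orth (K : Submodule ℝ E3) :
    Module.finrank ℝ K + Module.finrank ℝ Kᗮ = 3 := by
  rw [Submodule.finrank_add_finrank_orthogonal, finrank_E3]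

theorem IsLine.eq_of_le {l K : Submodule ℝ E3} (h : IsLine l) (hle : l ≤ K)
    (hK : Module.finrank ℝ K ≤ 1) : l = K :=
  Submodule.eq_of_le_of_finrank_le hle (by rw [h]; exact hK)

theorem IsLine.inf_eq_bot {l m : Submodule ℝ E3} (h : IsLine l) (h' : IsLine m) (hne : l ≠ m) :
    l ⊓ m = ⊥ := by
  by_contra hb
  apply hne
  have h1 : 0 < Module.finrank ℝ (l ⊓ m : Submodule ℝ E3) := by
    rw [Nat.pos_iff_ne_zero]
    intro h0
    exact hb (Submodule.finrank_eq_zero.mp h0)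
  have e1 : l ⊓ m = l := Submodule.eq_of_le_of_finrank_le inf_le_left (by rw [h]; exact h1)
  have e2 : l ⊓ m = m := Submodule.eq_of_le_of_finrank_le inf_le_right (by rw [h']; exact h1)
  rw [← e1, e2]

theorem IsLine.finrank_sup {l m : Submodule ℝ E3} (h : IsLine l) (h' : IsLine m) (hne : l ≠ m) :
    Module.finrank ℝ (l ⊔ m : Submodule ℝ E3) = 2 := by
  have := Submodule.finrank_sup_add_finrank_inf_eq l m
  rw [h.inf_eq_bot h' hne, h, h', finrank_bot] at this
  omega

theorem finrank_sup_le {l m : Submodule ℝ E3} (h : IsLine l) (h' : IsLine m) :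
    Module.finrank ℝ (l ⊔ m : Submodule ℝ E3) ≤ 2 := by
  have := Submodule.finrank_sup_add_finrank_inf_eq l m
  rw [h, h'] at this
  omega

/-- avoiding finitely many subspaces -/
theorem avoid (K : Submodule ℝ E3) {F : Set (Submodule ℝ E3)} (hF : F.Finite)
    (h : ∀ W ∈ F, ¬ K ≤ W) : ∃ x ∈ K, ∀ W ∈ F, x ∉ W := by
  classical
  set s : Finset (Subspace ℝ K) := hF.toFinset.image (fun W => W.comap K.subtype) with hs
  have htop : (⊤ : Subspace ℝ K) ∉ s := by
    intro hmem
    rw [hs, Finset.mem_image] at hmem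
    obtain ⟨W, hW, hWt⟩ := hmem
    apply h W (hF.mem_toFinset.mp hW)
    intro x hx
    have : (⟨x, hx⟩ : K) ∈ W.comap K.subtype := by rw [hWt]; trivial
    exact this
  have := Subspace.biUnion_ne_univ_of_top_notMem htop
  rw [Ne, Set.eq_univ_iff_forall] at this
  push Not at this
  obtain ⟨x, hx⟩ := this
  refine ⟨x, x.2, fun W hW hxW => hx ?_⟩
  simp only [Set.mem_iUnion]
  refine ⟨W.comap K.subtype, ?_, hxW⟩
  rw [hs, Finset.mem_image]
  exact ⟨W, hF.mem_toFinset.mpr hW, rfl⟩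

theorem mem_orth_span {d x : E3} : x ∈ (Submodule.span ℝ {d})ᗮ ↔ inner ℝ d x = 0 :=
  Submodule.mem_orthogonal_singleton_iff_inner_right

theorem mem_orth_span' {d x : E3} : x ∈ (Submodule.span ℝ {d})ᗮ ↔ inner ℝ x d = 0 := by
  rw [mem_orth_span, real_inner_comm]

theorem isLine_orth {W : Submodule ℝ E3} (h : Module.finrank ℝ W = 2) : IsLine Wᗮ := by
  have := finrank_orth W
  unfold IsLine
  omega

/-- the common perpendicular of a vector and a line -/
theorem exists_perp {u : E3} {l : Submodule ℝ E3} (hl : IsLine l) (hu : u ∉ l) :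
    ∃ x : E3, ‖x‖ = 1 ∧ inner ℝ u x = 0 ∧ x ∈ lᗮ ∧
      ∀ y : E3, inner ℝ u y = 0 → y ∈ lᗮ → ∃ c : ℝ, y = c • x := by
  have hu0 : u ≠ 0 := fun h => hu (h ▸ l.zero_mem)
  have hne : Submodule.span ℝ {u} ≠ l := fun h => hu (h ▸ Submodule.mem_span_singleton_self u)
  have h2 := (isLine_span hu0).finrank_sup hl hne
  obtain ⟨n, hn, hspan⟩ := (isLine_orth h2).exists_span
  have hno : n ∈ (Submodule.span ℝ {u} ⊔ l)ᗮ := by
    rw [hspan]; exact Submodule.mem_span_singleton_self n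
  rw [← Submodule.inf_orthogonal, Submodule.mem_inf] at hno
  have hnn : ‖n‖ ≠ 0 := norm_ne_zero_iff.mpr hn
  refine ⟨(‖n‖⁻¹ : ℝ) • n, ?_, ?_, Submodule.smul_mem _ _ hno.2, ?_⟩
  · rw [norm_smul, norm_inv, norm_norm, inv_mul_cancel₀ hnn]
  · rw [inner_smul_right, mem_orth_span.mp hno.1, mul_zero]
  · intro y hy1 hy2
    have : y ∈ (Submodule.span ℝ {u} ⊔ l)ᗮ := by
      rw [← Submodule.inf_orthogonal, Submodule.mem_inf]
      exact ⟨mem_orth_span.mpr hy1, hy2⟩
    rw [hspan, Submodule.mem_span_singleton] at this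
    obtain ⟨c, rfl⟩ := this
    refine ⟨c * ‖n‖, ?_⟩
    rw [smul_smul, mul_assoc, mul_inv_cancel₀ hnn, mul_one]

end Pool.Agent.Lib.MP_0d4032_co
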