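import Pool.Agent.Lib.MP_0d4032_co.Zono

set_option autoImplicit false

open scoped Pointwise Topology
open Filter

namespace Pool.Agent.Lib.MP_0d4032_co

theorem hull_nonempty_of_interior {S : Set E3} (h : (interior (convexHull ℝ S)).Nonempty) :
    S.Nonempty := by
  by_contra hne
  rw [Set.not_nonempty_iff_eq_empty] at hne
  rw [hne, convexHull_empty, interior_empty] at h
  exact Set.not_nonempty_empty h

theorem halvings_sound {r : ℕ} {Q P : Set E3} (h : Halvings r Q P) (hQ : IsPolyhedron Q) :
    ∀ j : ℕ, (∃ L m, Typed (j + r) Q L m) → IsPolyhedron P ∧ ∃ L m, Typed j P L m := by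
  induction h with
  | zero Q => intro j hj; exact ⟨hQ, hj⟩
  | succ s h hs ih =>
    intro j hj
    rename_i r Q P
    have hj' : ∃ L m, Typed (j + 1 + r) Q L m := by
      have e : j + 1 + r = j + (r + 1) := by omega
      rw [e]; exact hj
    obtain ⟨⟨⟨S, hS, rfl⟩, hint⟩, L, m, hT⟩ := ih hQ (j + 1) hj'
    have hne := hull_nonempty_of_interior hint
    classical
    exact ⟨erode_polyhedron hS hne hs hint, L, _, Typed.halve hS hne hs hT⟩

theorem segment_add_segment (a s : E3) {c : ℝ} (hc : 0 ≤ c) :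
    segment ℝ a (a + c • s) + segment ℝ 0 s = segment ℝ a (a + (c + 1) • s) := by
  ext x
  constructor
  · rintro ⟨y, hy, z, hz, rfl⟩
    obtain ⟨t, h0, h1, rfl⟩ := mem_segment_iff.mp hy
    obtain ⟨t', h0', h1', rfl⟩ := mem_segment_zero.mp hz
    rw [mem_segment_iff]
    have hc1 : 0 < c + 1 := by linarith
    refine ⟨(t * c + t') / (c + 1), div_nonneg (by positivity) hc1.le,
      (div_le_one hc1).mpr (by nlinarith), ?_⟩
    show a + t • c • s + t' • s = _
    rw [smul_smul ((t * c + t') / (c + 1)), div_mul_cancel₀ _ hc1.ne', add_smul, mul_smul]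
    abel
  · intro hx
    obtain ⟨t, h0, h1, rfl⟩ := mem_segment_iff.mp hx
    refine ⟨a + t • c • s, mem_segment_iff.mpr ⟨t, h0, h1, rfl⟩, t • s,
      mem_segment_zero.mpr ⟨t, h0, h1, rfl⟩, ?_⟩
    show a + t • c • s + t • s = _
    rw [add_smul, one_smul, smul_add]; abel

/-- cancellation -/
theorem erode_add_segment {S : Set E3} (hS : S.Finite) (s : E3) :
    erode (convexHull ℝ S + segment ℝ 0 s) s = convexHull ℝ S := by
  apply Set.Subset.antisymm
  · intro x hx
    by_contra hcon
    obtain ⟨v, c, h1, h2⟩ := separate (convex_convexHull ℝ S)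
      (hS.isCompact_convexHull ℝ).isClosed hcon
    rcases le_or_gt 0 (inner ℝ v s : ℝ) with h | h
    · obtain ⟨p, hp, z, hz, hpz⟩ := hx (right_mem_segment ℝ x (x + s))
      obtain ⟨t, h0, h1', rfl⟩ := mem_segment_zero.mp hz
      have hpz : p + t • s = x + s := hpz
      have h3 := h1 p hp
      have h4 : (inner ℝ v (p + t • s) : ℝ) = inner ℝ v (x + s) := by rw [hpz]
      rw [inner_add_right, inner_add_right, inner_smul_right] at h4
      nlinarith
    · obtain ⟨p, hp, z, hz, hpz⟩ := hx (left_mem_segment ℝ x (x + s))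
      obtain ⟨t, h0, h1', rfl⟩ := mem_segment_zero.mp hz
      have hpz : p + t • s = x := hpz
      have h3 := h1 p hp
      have h4 : (inner ℝ v (p + t • s) : ℝ) = inner ℝ v x := by rw [hpz]
      rw [inner_add_right, inner_smul_right] at h4
      nlinarith
  · intro x hx y hy
    obtain ⟨t, h0, h1, rfl⟩ := mem_segment_iff.mp hy
    exact ⟨x, hx, t • s, mem_segment_zero.mpr ⟨t, h0, h1, rfl⟩, rfl⟩

theorem halvable_add {S : Set E3} (hS : S.Finite) (hne : S.Nonempty) {s : E3} (hs : s ≠ 0)
    (h : HasType (convexHull ℝ S) (Submodule.span ℝ {s}) 1) :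
    Halvable (convexHull ℝ S + segment ℝ 0 s) s := by
  refine ⟨hs, fun v hv hvs h1 h2 => ?_⟩
  have hvs' : (inner ℝ (-v) s : ℝ) = 0 := by rw [inner_neg_left, hvs, neg_zero]
  have hbot : (⊥ : Submodule ℝ E3) ≠ Submodule.span ℝ {s} := by
    intro h
    exact hs (Submodule.span_singleton_eq_bot.mp h.symm)
  -- structure of the faces
  have key : ∀ x : E3, (inner ℝ x s : ℝ) = 0 →
      Module.finrank ℝ (dir (convexHull ℝ S + segment ℝ 0 s) x) ≤ 1 →
      (dir (convexHull ℝ S) x = ⊥ ∧ ShortEdge (convexHull ℝ S + segment ℝ 0 s) x s) ∨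
      (dir (convexHull ℝ S) x = Submodule.span ℝ {s} ∧
        LongEdge (convexHull ℝ S + segment ℝ 0 s) x s) := by
    intro x hx hx1
    have hle : dir (convexHull ℝ S) x ≤ Submodule.span ℝ {s} := by
      rw [← dir_add_eq_of_orth hS hne hs hx hx1]
      exact dir_add_le hS hne s x
    have hle' : vectorSpan ℝ (face S x) ≤ Submodule.span ℝ {s} := by
      rw [← dir_convexHull hS]; exact hle
    obtain ⟨a, c, hc, hseg⟩ := hull_eq_segment (face_finite hS x) (face_nonempty hS hne x) hle'
    have hface : face (convexHull ℝ S) x = segment ℝ a (a + c • s) := by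
      rw [face_convexHull hS, hseg]
    have hface2 : face (convexHull ℝ S + segment ℝ 0 s) x = segment ℝ a (a + (c + 1) • s) := by
      rw [face_add, hface, face_segment_orth hx, segment_add_segment a s hc]
    rcases hc.eq_or_lt with h0 | h0
    · left
      refine ⟨?_, a, ?_⟩
      · unfold dir
        rw [hface, ← h0]; simp
      · rw [hface2, ← h0]; simp
    · right
      refine ⟨?_, a, c + 1, by linarith, hface2⟩
      apply le_antisymm hle
      rw [Submodule.span_singleton_le_iff_mem]
      have hmem : (a + c • s) -ᵥ a ∈ dir (convexHull ℝ S) x := by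
        unfold dir
        apply vsub_mem_vectorSpan ℝ
        · rw [hface]; exact right_mem_segment _ _ _
        · rw [hface]; exact left_mem_segment _ _ _
      rw [vsub_eq_sub, add_sub_cancel_left] at hmem
      exact (Submodule.smul_mem_iff _ h0.ne').mp hmem
  have f1 := (Submodule.finrank_mono (dir_add_le hS hne s v)).trans h1
  have f2 := (Submodule.finrank_mono (dir_add_le hS hne s (-v))).trans h2
  have ht := h v hv (mem_orth_span'.mpr hvs) f1 f2
  unfold typ at ht
  rcases key v hvs h1 with ⟨a1, b1⟩ | ⟨a1, b1⟩ <;> rcases key (-v) hvs' h2 with ⟨a2, b2⟩ | ⟨a2, b2⟩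
  · rw [a1, a2, if_neg hbot] at ht; omega
  · exact Or.inl ⟨b1, b2⟩
  · exact Or.inr ⟨b1, b2⟩
  · rw [a1, a2, if_pos rfl] at ht; omega

theorem add_segment_polyhedron {P : Set E3} (hP : IsPolyhedron P) (s : E3) :
    IsPolyhedron (P + segment ℝ 0 s) := by
  obtain ⟨⟨S, hS, rfl⟩, hint⟩ := hP
  refine ⟨⟨S + {0, s}, hS.add (Set.toFinite _), add_segment_hull S s⟩, ?_⟩
  apply hint.mono
  apply interior_mono
  intro x hx
  exact ⟨x, hx, 0, left_mem_segment _ _ _, by simp⟩

open Classical in
/-- Completeness: every polyhedron with constant types arises from a zonotope. -/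
theorem complete : ∀ (r k : ℕ) (P : Set E3) (L : Finset (Submodule ℝ E3))
    (m : Submodule ℝ E3 → ℕ), IsPolyhedron P → Typed k P L m →
    (L.filter (fun l => m l = 1)).card = r →
    ∃ Z Q, IsZonotope (L.filter (fun l => m l ≠ 0)).card Z ∧ IsPolyhedron Q ∧
      StronglyIsomorphic Z Q ∧ Halvings r Q P ∧
      2 * (L.filter (fun l => m l ≠ 0)).card = k + r := by
  intro r
  induction r with
  | zero =>
    intro k P L m hP hT hcard
    obtain ⟨⟨S, hS, rfl⟩, hint⟩ := hP
    have hm : ∀ l ∈ L, m l ≠ 0 → m l = 2 := by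
      intro l hl h0
      have h2 := hasType_le_two hS (hT.line l hl) (hT.type l hl)
      have h1 : m l ≠ 1 := by
        intro h1
        rw [Finset.card_eq_zero] at hcard
        have : l ∈ L.filter (fun l => m l = 1) := Finset.mem_filter.mpr ⟨hl, h1⟩
        rw [hcard] at this
        exact absurd this (Finset.notMem_empty l)
      omega
    obtain ⟨n, Z, hk, hZ, hiso⟩ := exists_zonotope hS hT hint hm
    have hsum : k = 2 * (L.filter (fun l => m l ≠ 0)).card := by
      rw [← hT.sum]
      have : ∑ l ∈ L, m l = ∑ l ∈ L.filter (fun l => m l ≠ 0), 2 := by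
        rw [Finset.sum_filter]
        apply Finset.sum_congr rfl
        intro l hl
        by_cases h0 : m l = 0
        · simp [h0]
        · rw [if_pos h0, hm l hl h0]
      rw [this, Finset.sum_const, smul_eq_mul, mul_comm]
    have hn : n = (L.filter (fun l => m l ≠ 0)).card := by omega
    rw [← hn]
    exact ⟨Z, _, hZ, ⟨⟨S, hS, rfl⟩, hint⟩, hiso, Halvings.zero _, by omega⟩
  | succ r ih =>
    intro k P L m hP hT hcard
    obtain ⟨l0, hl0⟩ : (L.filter (fun l => m l = 1)).Nonempty := by
      rw [← Finset.card_pos, hcard]; omega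
    obtain ⟨hl0L, hm0⟩ := Finset.mem_filter.mp hl0
    obtain ⟨s, hs, hsl⟩ := (hT.line l0 hl0L).exists_span
    have hP1 := add_segment_polyhedron hP s
    obtain ⟨⟨S, hS, rfl⟩, hint⟩ := hP
    have hne := hull_nonempty_of_interior hint
    have hT1 := Typed.add hS hne hT hs
    rw [← hsl, Finset.insert_eq_of_mem hl0L] at hT1
    have hk : 2 + ∑ l ∈ L.erase l0, m l = k + 1 := by
      have := hT.sum
      rw [← Finset.add_sum_erase _ _ hl0L, hm0] at this
      omega
    rw [hk] at hT1
    have hc1 : (L.filter (fun l => Function.update m l0 2 l = 1)).card = r := by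
      have : L.filter (fun l => Function.update m l0 2 l = 1) =
          (L.filter (fun l => m l = 1)).erase l0 := by
        ext l
        simp only [Finset.mem_filter, Finset.mem_erase]
        by_cases hl : l = l0
        · rw [hl, Function.update_self]; simp
        · rw [Function.update_of_ne hl]; tauto
      rw [this, Finset.card_erase_of_mem hl0, hcard]; omega
    have hc2 : L.filter (fun l => Function.update m l0 2 l ≠ 0) =
        L.filter (fun l => m l ≠ 0) := by
      ext l
      simp only [Finset.mem_filter]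
      by_cases hl : l = l0
      · rw [hl, Function.update_self, hm0]; simp
      · rw [Function.update_of_ne hl]
    obtain ⟨Z, Q, h1, h2, h3, h4, h5⟩ := ih (k + 1) _ L _ hP1 hT1 hc1
    rw [hc2] at h1 h5
    refine ⟨Z, Q, h1, h2, h3, ?_, by omega⟩
    have htype := hT.type l0 hl0L
    rw [hm0, hsl] at htype
    have := Halvings.succ s h4 (halvable_add hS hne hs htype)
    rw [erode_add_segment hS s] at this
    exact this

/-- The classification in normal form. -/
theorem classification (k : ℕ) (P : Set E3) :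
    (IsPolyhedron P ∧ Equiprojective k P) ↔
      ∃ (n r : ℕ) (Z Q : Set E3), n ≤ k ∧ 2 * n = k + r ∧ IsZonotope n Z ∧ IsPolyhedron Q ∧
        StronglyIsomorphic Z Q ∧ Halvings r Q P := by
  classical
  constructor
  · rintro ⟨hP, hE⟩
    obtain ⟨L, m, hT⟩ := (equiprojective_iff hP k).mp hE
    obtain ⟨Z, Q, h1, h2, h3, h4, h5⟩ := complete _ k P L m hP hT rfl
    refine ⟨_, _, Z, Q, ?_, h5, h1, h2, h3, h4⟩
    rw [← hT.sum, Finset.card_eq_sum_ones, Finset.sum_filter]
    apply Finset.sum_le_sum
    intro l _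
    split_ifs with h0
    · omega
    · omega
  · rintro ⟨n, r, Z, Q, -, hk, hZ, hQ, hiso, hH⟩
    obtain ⟨L, m, hTZ⟩ := hZ.typed
    have hZP := hZ.polyhedron
    obtain ⟨⟨S, hS, hZS⟩, -⟩ := hZP
    obtain ⟨⟨S', hS', hQS⟩, hQi⟩ := id hQ
    have hd : ∀ v : E3, v ≠ 0 → dir Z v = dir Q v := by
      intro v hv
      rw [hZS, hQS]
      apply dir_eq_of_stronglyIsomorphic hS hS' _ hv
      rw [← hZS, ← hQS]; exact hiso
    have hTQ := Typed.transfer hd hTZ
    rw [hk] at hTQ
    obtain ⟨hP, hTP⟩ := halvings_sound hH hQ k ⟨L, m, hTQ⟩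
    exact ⟨hP, (equiprojective_iff hP k).mpr hTP⟩

end Pool.Agent.Lib.MP_0d4032_co
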