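import Mathlib

set_option autoImplicit false

open scoped Pointwise Topology
open Filter

namespace Pool.Agent.Lib.MP_0d4032_co

/-- the standard inner product of the plane -/
def fv (w x : ℝ × ℝ) : ℝ := w.1 * x.1 + w.2 * x.2

def face2 (Q : Set (ℝ × ℝ)) (w : ℝ × ℝ) : Set (ℝ × ℝ) :=
  {x | x ∈ Q ∧ ∀ y ∈ Q, fv w y ≤ fv w x}

/-- rotation by a quarter turn -/
def rot (w : ℝ × ℝ) : ℝ × ℝ := (-w.2, w.1)

theorem fv_cont (w : ℝ × ℝ) : Continuous (fv w) := by
  unfold fv; fun_prop

theorem fv_add (w x y : ℝ × ℝ) : fv w (x + y) = fv w x + fv w y := by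
  simp only [fv, Prod.fst_add, Prod.snd_add]; ring

theorem fv_smul (w x : ℝ × ℝ) (c : ℝ) : fv w (c • x) = c * fv w x := by
  simp only [fv, Prod.smul_fst, Prod.smul_snd, smul_eq_mul]; ring

theorem fv_sub (w x y : ℝ × ℝ) : fv w (x - y) = fv w x - fv w y := by
  simp only [fv, Prod.fst_sub, Prod.snd_sub]; ring

theorem fv_isLinear (w : ℝ × ℝ) : IsLinearMap ℝ (fv w) :=
  ⟨fv_add w, fun c x => by rw [fv_smul]; rfl⟩

theorem fv_hull_le {T : Set (ℝ × ℝ)} {w : ℝ × ℝ} {c : ℝ} (h : ∀ y ∈ T, fv w y ≤ c) :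
    ∀ y ∈ convexHull ℝ T, fv w y ≤ c := by
  intro y hy
  exact convexHull_min (s := T) (t := {y | fv w y ≤ c}) h
    (convex_halfSpace_le (fv_isLinear w) c) hy

theorem eq_of_fv {w x y : ℝ × ℝ} (hw : w.1 ^ 2 + w.2 ^ 2 = 1) (h1 : fv w x = fv w y)
    (h2 : fv (rot w) x = fv (rot w) y) : x = y := by
  obtain ⟨a, b⟩ := w
  obtain ⟨x1, x2⟩ := x
  obtain ⟨y1, y2⟩ := y
  simp only [fv, rot] at *
  have e1 : x1 - y1 = 0 := by
    linear_combination a * h1 - b * h2 - (x1 - y1) * hw
  have e2 : x2 - y2 = 0 := by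
    linear_combination b * h1 + a * h2 - (x2 - y2) * hw
  ext <;> simp <;> linarith

theorem exists_last {Q : Set (ℝ × ℝ)} (hQ : IsCompact Q) (hne : Q.Nonempty) (w : ℝ × ℝ) :
    ∃ p ∈ face2 Q w, ∀ q ∈ face2 Q w, fv (rot w) q ≤ fv (rot w) p := by
  obtain ⟨a, ha, hmax⟩ := hQ.exists_isMaxOn hne (fv_cont w).continuousOn
  have hF : face2 Q w = Q ∩ {x | fv w a ≤ fv w x} := by
    ext x
    constructor
    · rintro ⟨h1, h2⟩
      exact ⟨h1, h2 a ha⟩
    · rintro ⟨h1, h2⟩
      exact ⟨h1, fun y hy => (hmax hy).trans h2⟩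
  have hcl : IsClosed {x | fv w a ≤ fv w x} := isClosed_le continuous_const (fv_cont w)
  have hFc : IsCompact (face2 Q w) := by rw [hF]; exact hQ.inter_right hcl
  have hFne : (face2 Q w).Nonempty := ⟨a, ha, fun y hy => hmax hy⟩
  obtain ⟨p, hp, hpm⟩ := hFc.exists_isMaxOn hFne (fv_cont (rot w)).continuousOn
  exact ⟨p, hp, fun q hq => hpm hq⟩

theorem last_extreme {Q : Set (ℝ × ℝ)} {w p : ℝ × ℝ} (hw : w.1 ^ 2 + w.2 ^ 2 = 1)
    (hp : p ∈ face2 Q w) (hl : ∀ q ∈ face2 Q w, fv (rot w) q ≤ fv (rot w) p) :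
    p ∈ Q.extremePoints ℝ := by
  rw [mem_extremePoints]
  refine ⟨hp.1, fun x hx y hy hpxy => ?_⟩
  obtain ⟨s, t, hs, ht, hst, hp'⟩ := hpxy
  have hx1 := hp.2 x hx
  have hy1 := hp.2 y hy
  have e1 : fv w p = s * fv w x + t * fv w y := by rw [← hp', fv_add, fv_smul, fv_smul]
  have ex : fv w x = fv w p := by
    apply le_antisymm hx1
    by_contra h
    push Not at h
    have h2 : s * fv w x < s * fv w p := mul_lt_mul_of_pos_left h hs
    have h3 : t * fv w y ≤ t * fv w p := mul_le_mul_of_nonneg_left hy1 ht.le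
    have h4 : s * fv w p + t * fv w p = fv w p := by rw [← add_mul, hst, one_mul]
    linarith
  have ey : fv w y = fv w p := by
    apply le_antisymm hy1
    by_contra h
    push Not at h
    have h2 : t * fv w y < t * fv w p := mul_lt_mul_of_pos_left h ht
    have h3 : s * fv w x ≤ s * fv w p := mul_le_mul_of_nonneg_left hx1 hs.le
    have h4 : s * fv w p + t * fv w p = fv w p := by rw [← add_mul, hst, one_mul]
    linarith
  have hxF : x ∈ face2 Q w := ⟨hx, fun z hz => (hp.2 z hz).trans ex.ge⟩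
  have hyF : y ∈ face2 Q w := ⟨hy, fun z hz => (hp.2 z hz).trans ey.ge⟩
  have lx := hl x hxF
  have ly := hl y hyF
  have e2 : fv (rot w) p = s * fv (rot w) x + t * fv (rot w) y := by
    rw [← hp', fv_add, fv_smul, fv_smul]
  have ex2 : fv (rot w) x = fv (rot w) p := by
    apply le_antisymm lx
    by_contra h
    push Not at h
    have h2 : s * fv (rot w) x < s * fv (rot w) p := mul_lt_mul_of_pos_left h hs
    have h3 : t * fv (rot w) y ≤ t * fv (rot w) p := mul_le_mul_of_nonneg_left ly ht.le
    have h4 : s * fv (rot w) p + t * fv (rot w) p = fv (rot w) p := by rw [← add_mul, hst, one_mul]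
    linarith
  have ey2 : fv (rot w) y = fv (rot w) p := by
    apply le_antisymm ly
    by_contra h
    push Not at h
    have h2 : t * fv (rot w) y < t * fv (rot w) p := mul_lt_mul_of_pos_left h ht
    have h3 : s * fv (rot w) x ≤ s * fv (rot w) p := mul_le_mul_of_nonneg_left lx hs.le
    have h4 : s * fv (rot w) p + t * fv (rot w) p = fv (rot w) p := by rw [← add_mul, hst, one_mul]
    linarith
  exact ⟨eq_of_fv hw ex ex2, eq_of_fv hw ey ey2⟩

/-- In a polygon the number of vertices is the number of edges. -/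
theorem polygon_count {T : Set (ℝ × ℝ)} (hT : T.Finite)
    (hflat : ∀ w : ℝ × ℝ, w.1 ^ 2 + w.2 ^ 2 = 1 → ∃ p ∈ T, ∃ q ∈ T, fv w p ≠ fv w q) :
    {w : ℝ × ℝ | w.1 ^ 2 + w.2 ^ 2 = 1 ∧ (face2 (convexHull ℝ T) w).Nontrivial}.ncard =
      ((convexHull ℝ T).extremePoints ℝ).ncard := by
  set Q := convexHull ℝ T with hQ
  have hQc : IsCompact Q := hT.isCompact_convexHull ℝ
  have hTne : T.Nonempty := by
    obtain ⟨p, hp, -⟩ := hflat (1, 0) (by norm_num)
    exact ⟨p, hp⟩
  have hQne : Q.Nonempty := hTne.mono (subset_convexHull ℝ T)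
  have hex : ∀ w : ℝ × ℝ, ∃ p, p ∈ face2 Q w ∧ ∀ q ∈ face2 Q w, fv (rot w) q ≤ fv (rot w) p := by
    intro w
    obtain ⟨p, h1, h2⟩ := exists_last hQc hQne w
    exact ⟨p, h1, h2⟩
  choose g hg1 hg2 using hex
  refine Set.ncard_congr (fun w _ => g w) ?_ ?_ ?_
  · rintro w ⟨hw, -⟩
    exact last_extreme hw (hg1 w) (hg2 w)
  · rintro w w' ⟨hw, hn⟩ ⟨hw', hn'⟩ heq
    -- the other end of the face
    have other : ∀ v : ℝ × ℝ, v.1 ^ 2 + v.2 ^ 2 = 1 → (face2 Q v).Nontrivial →
        ∃ c : ℝ, 0 < c ∧ g v - c • rot v ∈ Q := by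
      intro v hv hnv
      obtain ⟨q, hq, hqne⟩ := hnv.exists_ne (g v)
      have e1 : fv v q = fv v (g v) := le_antisymm ((hg1 v).2 q hq.1) (hq.2 _ (hg1 v).1)
      have e2 := hg2 v q hq
      have e3 : fv (rot v) q ≠ fv (rot v) (g v) := fun h => hqne (eq_of_fv hv e1 h)
      have e4 : fv (rot v) q < fv (rot v) (g v) := lt_of_le_of_ne e2 e3
      refine ⟨fv (rot v) (g v) - fv (rot v) q, by linarith, ?_⟩
      have : g v - (fv (rot v) (g v) - fv (rot v) q) • rot v = q := by
        apply eq_of_fv hv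
        · rw [fv_sub, fv_smul]
          have : fv v (rot v) = 0 := by simp only [fv, rot]; ring
          rw [this, e1]; ring
        · rw [fv_sub, fv_smul]
          have : fv (rot v) (rot v) = 1 := by simp only [fv, rot]; linear_combination hv
          rw [this]; ring
      rw [this]
      exact hq.1
    obtain ⟨c, hc, hcQ⟩ := other w hw hn
    obtain ⟨c', hc', hcQ'⟩ := other w' hw' hn'
    have h1 := (hg1 w').2 _ hcQ
    have h2 := (hg1 w).2 _ hcQ'
    rw [heq, fv_sub, fv_smul] at h1
    rw [← heq, fv_sub, fv_smul] at h2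
    have h1' : 0 ≤ fv w' (rot w) := by
      by_contra h; push Not at h; have := mul_neg_of_pos_of_neg hc h; linarith
    have h2' : 0 ≤ fv w (rot w') := by
      by_contra h; push Not at h; have := mul_neg_of_pos_of_neg hc' h; linarith
    obtain ⟨a, b⟩ := w
    obtain ⟨a', b'⟩ := w'
    simp only [fv, rot] at h1' h2' hw hw'
    have hdet : a * b' - b * a' = 0 := by linarith
    -- so w' = ± w
    have hk : (a * a' + b * b') ^ 2 = 1 := by
      have : (a * a' + b * b') ^ 2 + (a * b' - b * a') ^ 2 = (a ^ 2 + b ^ 2) * (a' ^ 2 + b' ^ 2) := by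
        ring
      rw [hdet, hw, hw'] at this
      linarith
    have hk2 : a * a' + b * b' = 1 ∨ a * a' + b * b' = -1 := by
      have : (a * a' + b * b' - 1) * (a * a' + b * b' + 1) = 0 := by linear_combination hk
      rcases mul_eq_zero.mp this with h | h
      · left; linarith
      · right; linarith
    rcases hk2 with hk2 | hk2
    · ext
      · show a = a'
        linear_combination (-a) * hk2 + a' * hw + b * hdet
      · show b = b'
        linear_combination (-b) * hk2 + b' * hw - a * hdet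
    · exfalso
      have ea : a' = -a := by linear_combination a * hk2 - a' * hw - b * hdet
      have eb : b' = -b := by linear_combination b * hk2 - b' * hw + a * hdet
      obtain ⟨p, hp, q, hq, hpq⟩ := hflat (a, b) hw
      have hpQ : p ∈ Q := subset_convexHull ℝ T hp
      have hqQ : q ∈ Q := subset_convexHull ℝ T hq
      have hneg : ∀ x, fv (a', b') x = - fv (a, b) x := by
        intro x; simp only [fv, ea, eb]; ring
      have b1 := (hg1 (a, b)).2 p hpQ
      have b2 := (hg1 (a, b)).2 q hqQ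
      have b3 := (hg1 (a', b')).2 p hpQ
      have b4 := (hg1 (a', b')).2 q hqQ
      rw [hneg, hneg, ← heq] at b3 b4
      exact hpq (by linarith)
  · intro p hp
    have hpT : p ∈ T := extremePoints_convexHull_subset hp
    -- an exposing functional
    have hnot : p ∉ convexHull ℝ (T \ {p}) := by
      intro hmem
      -- extreme points of a convex hull are not in the hull of the others
      have hconv : Convex ℝ (Q \ {p}) := by
        have := (convex_convexHull ℝ T).mem_extremePoints_iff_convex_sdiff (x := p)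
        exact (this.mp hp).2
      have hsub : T \ {p} ⊆ Q \ {p} := fun x hx => ⟨subset_convexHull ℝ T hx.1, hx.2⟩
      have := convexHull_min hsub hconv hmem
      exact this.2 rfl
    have hTfin : (T \ {p}).Finite := hT.subset Set.sdiff_subset
    obtain ⟨φ, u, hφ1, hφ2⟩ := geometric_hahn_banach_point_closed (convex_convexHull ℝ (T \ {p}))
      (hTfin.isCompact_convexHull ℝ).isClosed hnot
    -- φ as a vector
    set f : ℝ × ℝ := (-φ (1, 0), -φ (0, 1)) with hf
    have hfv : ∀ x : ℝ × ℝ, fv f x = - φ x := by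
      intro x
      have : x = x.1 • ((1 : ℝ), (0 : ℝ)) + x.2 • ((0 : ℝ), (1 : ℝ)) := by
        ext <;> simp
      conv_rhs => rw [this]
      rw [map_add, map_smul, map_smul]
      simp only [fv, hf, smul_eq_mul]; ring
    have hden : ∀ q ∈ T, q ≠ p → 0 < fv f p - fv f q := by
      intro q hq hqp
      have := hφ2 q (subset_convexHull ℝ _ ⟨hq, hqp⟩)
      rw [hfv, hfv]; linarith
    have hne : (T \ {p}).Nonempty := by
      obtain ⟨a, ha, b, hb, hab⟩ := hflat (1, 0) (by norm_num)
      by_cases hap : a = p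
      · refine ⟨b, hb, fun hbp => hab ?_⟩
        rw [hap, Set.mem_singleton_iff.mp hbp]
      · exact ⟨a, ha, hap⟩
    obtain ⟨q0, ⟨hq0T, hq0p⟩, hq0⟩ := Set.exists_min_image (T \ {p})
      (fun q => (fv (rot f) q - fv (rot f) p) / (fv f p - fv f q)) hTfin hne
    have hq0p : q0 ≠ p := hq0p
    set δ := q0 - p with hδ
    have hδne : δ ≠ 0 := sub_ne_zero.mpr hq0p
    set c := Real.sqrt (δ.1 ^ 2 + δ.2 ^ 2) with hc
    have hpos : 0 < δ.1 ^ 2 + δ.2 ^ 2 := by
      by_contra h
      push Not at h
      apply hδne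
      have h1 : δ.1 = 0 := by nlinarith [sq_nonneg δ.1, sq_nonneg δ.2]
      have h2 : δ.2 = 0 := by nlinarith [sq_nonneg δ.1, sq_nonneg δ.2]
      ext
      · exact h1
      · exact h2
    have hcpos : 0 < c := Real.sqrt_pos.mpr hpos
    have hcsq : c ^ 2 = δ.1 ^ 2 + δ.2 ^ 2 := Real.sq_sqrt hpos.le
    set w : ℝ × ℝ := (-δ.2 / c, δ.1 / c) with hw
    have hwu : w.1 ^ 2 + w.2 ^ 2 = 1 := by
      simp only [hw]
      rw [div_pow, div_pow, ← add_div, neg_sq, hcsq]
      rw [add_comm (δ.2 ^ 2)]
      exact div_self hpos.ne'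
    have hd0 := hden q0 hq0T hq0p
    have hff : 0 < f.1 ^ 2 + f.2 ^ 2 := by
      by_contra h
      push Not at h
      have h1 : f.1 = 0 := by nlinarith [sq_nonneg f.1, sq_nonneg f.2]
      have h2 : f.2 = 0 := by nlinarith [sq_nonneg f.1, sq_nonneg f.2]
      simp only [fv, h1, h2] at hd0
      linarith
    -- the key identity
    have hkey : ∀ q : ℝ × ℝ, (f.1 ^ 2 + f.2 ^ 2) * (c * (fv w q - fv w p)) =
        (fv (rot f) q0 - fv (rot f) p) * (fv f p - fv f q)
          - (fv (rot f) q - fv (rot f) p) * (fv f p - fv f q0) := by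
      intro q
      have : c * (fv w q - fv w p) = -δ.2 * (q.1 - p.1) + δ.1 * (q.2 - p.2) := by
        simp only [fv, hw]
        field_simp
        ring
      rw [this]
      simp only [fv, rot, hδ, Prod.fst_sub, Prod.snd_sub]
      ring
    have hwle : ∀ q ∈ T, fv w q ≤ fv w p := by
      intro q hq
      by_cases hqp : q = p
      · rw [hqp]
      have hd := hden q hq hqp
      have hm := hq0 q ⟨hq, hqp⟩
      rw [div_le_div_iff₀ hd0 hd] at hm
      have h3 : (f.1 ^ 2 + f.2 ^ 2) * (c * (fv w q - fv w p)) ≤ 0 := by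
        rw [hkey]; linarith
      have h4 : c * (fv w q - fv w p) ≤ 0 := by
        by_contra h
        push Not at h
        have := mul_pos hff h
        linarith
      by_contra h
      push Not at h
      have := mul_pos hcpos (sub_pos.mpr h)
      linarith
    have hpF : p ∈ face2 Q w := ⟨subset_convexHull ℝ T hpT, fun y hy => fv_hull_le hwle y hy⟩
    have hwq0 : fv w q0 = fv w p := by
      have h := hkey q0
      have h2 : (f.1 ^ 2 + f.2 ^ 2) * (c * (fv w q0 - fv w p)) = 0 := by rw [h]; ring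
      rcases mul_eq_zero.mp h2 with h3 | h3
      · linarith
      · rcases mul_eq_zero.mp h3 with h4 | h4
        · linarith
        · linarith
    have hq0F : q0 ∈ face2 Q w :=
      ⟨subset_convexHull ℝ T hq0T, fun y hy => (fv_hull_le hwle y hy).trans hwq0.ge⟩
    refine ⟨w, ⟨hwu, ⟨p, hpF, q0, hq0F, hq0p.symm⟩⟩, ?_⟩
    -- the last point is p
    have hlastT : ∀ q ∈ T, fv w q = fv w p → fv (rot w) q ≤ fv (rot w) p := by
      intro q hq hqw
      by_cases hqp : q = p
      · rw [hqp]
      have hd := hden q hq hqp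
      -- q - p = κ • δ
      have hpar : -δ.2 * (q.1 - p.1) + δ.1 * (q.2 - p.2) = 0 := by
        have : c * (fv w q - fv w p) = -δ.2 * (q.1 - p.1) + δ.1 * (q.2 - p.2) := by
          simp only [fv, hw]
          field_simp
          ring
        rw [← this, hqw]; ring
      set κ := (δ.1 * (q.1 - p.1) + δ.2 * (q.2 - p.2)) with hκ
      have k1 : (δ.1 ^ 2 + δ.2 ^ 2) * (q.1 - p.1) = κ * δ.1 := by
        rw [hκ]; linear_combination (-δ.2) * hpar
      have k2 : (δ.1 ^ 2 + δ.2 ^ 2) * (q.2 - p.2) = κ * δ.2 := by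
        rw [hκ]; linear_combination (δ.1) * hpar
      have k3 : (δ.1 ^ 2 + δ.2 ^ 2) * (fv f p - fv f q) = κ * (fv f p - fv f q0) := by
        simp only [fv]
        have hd1 : δ.1 = q0.1 - p.1 := rfl
        have hd2 : δ.2 = q0.2 - p.2 := rfl
        linear_combination (-f.1) * k1 - f.2 * k2 - κ * f.1 * hd1 - κ * f.2 * hd2
      have hκpos : 0 < κ := by
        have h5 : 0 < κ * (fv f p - fv f q0) := by rw [← k3]; exact mul_pos hpos hd
        exact (mul_pos_iff_of_pos_right hd0).mp h5
      have k4 : c * (fv (rot w) q - fv (rot w) p) = - κ := by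
        have : c * (fv (rot w) q - fv (rot w) p) = -(δ.1 * (q.1 - p.1) + δ.2 * (q.2 - p.2)) := by
          simp only [fv, rot, hw]
          field_simp
          ring
        rw [this]
      by_contra h
      push Not at h
      have := mul_pos hcpos (sub_pos.mpr h)
      linarith
    have hlast : ∀ q ∈ face2 Q w, fv (rot w) q ≤ fv (rot w) p := by
      -- functional w scaled by a large number plus rot w
      intro q hq
      have hqw : fv w q = fv w p := le_antisymm (hpF.2 q hq.1) (hq.2 p hpF.1)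
      -- choose M so that fv (M w + rot w) is maximal at p over T
      have : ∃ M : ℝ, ∀ y ∈ T, M * fv w y + fv (rot w) y ≤ M * fv w p + fv (rot w) p := by
        have hbd : ∀ y ∈ T, ∀ᶠ M : ℝ in atTop,
            M * fv w y + fv (rot w) y ≤ M * fv w p + fv (rot w) p := by
          intro y hy
          rcases (hwle y hy).lt_or_eq with h | h
          · have hpos' : 0 < fv w p - fv w y := by linarith
            filter_upwards [eventually_ge_atTop ((fv (rot w) y - fv (rot w) p) / (fv w p - fv w y))]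
              with M hM
            rw [div_le_iff₀ hpos'] at hM
            linarith
          · filter_upwards with M
            rw [h]
            have := hlastT y hy h
            linarith
        have := (eventually_all_finite hT).mpr hbd
        exact this.exists
      obtain ⟨M, hM⟩ := this
      have hlin : IsLinearMap ℝ (fun y => M * fv w y + fv (rot w) y) := by
        constructor
        · intro x y; simp only [fv_add]; ring
        · intro c x; simp only [fv_smul, smul_eq_mul]; ring
      have := convexHull_min (s := T)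
        (t := {y | M * fv w y + fv (rot w) y ≤ M * fv w p + fv (rot w) p}) hM
        (convex_halfSpace_le hlin _) hq.1
      have h6 : M * fv w q + fv (rot w) q ≤ M * fv w p + fv (rot w) p := this
      rw [hqw] at h6
      linarith
    have h7 := hlast _ (hg1 w)
    have h8 := hg2 w p hpF
    have h9 : fv w (g w) = fv w p := le_antisymm (hpF.2 _ (hg1 w).1) ((hg1 w).2 p hpF.1)
    exact eq_of_fv hwu h9 (le_antisymm h7 h8)

end Pool.Agent.Lib.MP_0d4032_co
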