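import Pool.Agent.Lib.MP_0d4032_co.Criterion

set_option autoImplicit false

open scoped Pointwise Topology
open Filter

namespace Pool.Agent.Lib.MP_0d4032_co

theorem mem_segment_iff {a s x : E3} :
    x ∈ segment ℝ a (a + s) ↔ ∃ t : ℝ, 0 ≤ t ∧ t ≤ 1 ∧ x = a + t • s := by
  rw [segment_eq_image']
  constructor
  · rintro ⟨t, ⟨h0, h1⟩, rfl⟩
    exact ⟨t, h0, h1, by simp⟩
  · rintro ⟨t, h0, h1, rfl⟩
    exact ⟨t, ⟨h0, h1⟩, by simp⟩

theorem mem_segment_zero {s x : E3} :
    x ∈ segment ℝ 0 s ↔ ∃ t : ℝ, 0 ≤ t ∧ t ≤ 1 ∧ x = t • s := by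
  have := mem_segment_iff (a := 0) (s := s) (x := x)
  simpa using this

theorem segment_zero_finite_hull (s : E3) : segment ℝ 0 s = convexHull ℝ ({0, s} : Set E3) := by
  rw [convexHull_pair]

theorem face_segment_orth {v s : E3} (h : inner ℝ v s = (0:ℝ)) :
    face (segment ℝ 0 s) v = segment ℝ 0 s := by
  ext x
  constructor
  · intro hx; exact hx.1
  · intro hx
    refine ⟨hx, fun y hy => ?_⟩
    obtain ⟨t, -, -, rfl⟩ := mem_segment_zero.mp hx
    obtain ⟨r, -, -, rfl⟩ := mem_segment_zero.mp hy
    rw [inner_smul_right, inner_smul_right, h]; simp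

theorem face_segment_pos {v s : E3} (h : 0 < (inner ℝ v s : ℝ)) :
    face (segment ℝ 0 s) v = {s} := by
  ext x
  constructor
  · rintro ⟨hx, hmax⟩
    obtain ⟨t, h0, h1, rfl⟩ := mem_segment_zero.mp hx
    have := hmax s (right_mem_segment ℝ 0 s)
    rw [inner_smul_right] at this
    have ht : t = 1 := by
      apply le_antisymm h1
      by_contra hlt
      push Not at hlt
      have := mul_lt_mul_of_pos_right hlt h
      linarith
    rw [ht, one_smul]; rfl
  · intro hx
    rw [Set.mem_singleton_iff] at hx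
    rw [hx]
    refine ⟨right_mem_segment ℝ 0 s, fun y hy => ?_⟩
    obtain ⟨r, h0, h1, rfl⟩ := mem_segment_zero.mp hy
    rw [inner_smul_right]
    have := mul_le_mul_of_nonneg_right h1 h.le
    linarith

theorem face_segment_neg {v s : E3} (h : (inner ℝ v s : ℝ) < 0) :
    face (segment ℝ 0 s) v = {0} := by
  ext x
  constructor
  · rintro ⟨hx, hmax⟩
    obtain ⟨t, h0, h1, rfl⟩ := mem_segment_zero.mp hx
    have := hmax 0 (left_mem_segment ℝ 0 s)
    rw [inner_smul_right, inner_zero_right] at this
    have ht : t = 0 := by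
      apply le_antisymm _ h0
      by_contra hlt
      push Not at hlt
      have := mul_neg_of_pos_of_neg hlt h
      linarith
    rw [ht, zero_smul]; rfl
  · intro hx
    rw [Set.mem_singleton_iff] at hx
    rw [hx]
    refine ⟨left_mem_segment ℝ 0 s, fun y hy => ?_⟩
    obtain ⟨r, h0, h1, rfl⟩ := mem_segment_zero.mp hy
    rw [inner_smul_right, inner_zero_right]
    exact mul_nonpos_of_nonneg_of_nonpos h0 h.le

theorem vectorSpan_segment (s : E3) : vectorSpan ℝ (segment ℝ 0 s) = Submodule.span ℝ {s} := by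
  rw [segment_zero_finite_hull, vectorSpan_convexHull, vectorSpan_pair, vsub_eq_sub, zero_sub,
    ← Set.neg_singleton, Submodule.span_neg]

open Classical in
theorem dir_segment (s v : E3) :
    dir (segment ℝ 0 s) v = if (inner ℝ v s : ℝ) = 0 then Submodule.span ℝ {s} else ⊥ := by
  unfold dir
  split_ifs with h
  · rw [face_segment_orth h, vectorSpan_segment]
  · rcases lt_or_gt_of_ne h with h' | h'
    · rw [face_segment_neg h']; simp
    · rw [face_segment_pos h']; simp

open Classical in
/-- directions of the faces of `P + [0,s]` -/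
theorem dir_add_segment {P : Set E3} {v : E3} (hne : (face P v).Nonempty) (s : E3) :
    dir (P + segment ℝ 0 s) v =
      dir P v ⊔ (if (inner ℝ v s : ℝ) = 0 then Submodule.span ℝ {s} else ⊥) := by
  rw [← dir_segment s v]
  unfold dir
  rw [face_add, vectorSpan_add hne]
  rw [segment_zero_finite_hull, face_convexHull (Set.toFinite _)]
  exact (face_nonempty (Set.toFinite _) ⟨0, by simp⟩ v).mono (subset_convexHull ℝ _)

theorem dir_add_of_orth {P : Set E3} {v s : E3} (hne : (face P v).Nonempty)
    (h : (inner ℝ v s : ℝ) = 0) :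
    dir (P + segment ℝ 0 s) v = dir P v ⊔ Submodule.span ℝ {s} := by
  classical
  rw [dir_add_segment hne, if_pos h]

theorem dir_add_of_not_orth {P : Set E3} {v s : E3} (hne : (face P v).Nonempty)
    (h : (inner ℝ v s : ℝ) ≠ 0) :
    dir (P + segment ℝ 0 s) v = dir P v := by
  classical
  rw [dir_add_segment hne, if_neg h, sup_bot_eq]

theorem face_hull_nonempty {S : Set E3} (hS : S.Finite) (hne : S.Nonempty) (v : E3) :
    (face (convexHull ℝ S) v).Nonempty := by
  rw [face_convexHull hS]
  exact (face_nonempty hS hne v).mono (subset_convexHull ℝ _)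

/-- `P + [0,s]` is again the convex hull of a finite set. -/
theorem add_segment_hull (S : Set E3) (s : E3) :
    convexHull ℝ S + segment ℝ 0 s = convexHull ℝ (S + {0, s}) := by
  rw [segment_zero_finite_hull, convexHull_add]

/-- A finite set all of whose differences are multiples of `s` has a segment as its hull. -/
theorem hull_eq_segment {T : Set E3} (hT : T.Finite) (hne : T.Nonempty) {s : E3}
    (h : vectorSpan ℝ T ≤ Submodule.span ℝ {s}) :
    ∃ (a : E3) (c : ℝ), 0 ≤ c ∧ convexHull ℝ T = segment ℝ a (a + c • s) := by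
  by_cases hs : s = 0
  · obtain ⟨p, hp⟩ := hne
    have hsub : T.Subsingleton := by
      rw [← vectorSpan_eq_bot_iff_subsingleton ℝ, eq_bot_iff]
      refine h.trans ?_
      rw [hs, Submodule.span_zero_singleton]
    refine ⟨p, 0, le_refl _, ?_⟩
    rw [hsub.eq_singleton_of_mem hp]
    simp
  have hss : 0 < (inner ℝ s s : ℝ) := by
    rw [real_inner_self_eq_norm_sq]
    have := norm_pos_iff.mpr hs
    positivity
  obtain ⟨a, ha, hmin⟩ := Set.exists_min_image T (fun y => (inner ℝ s y : ℝ)) hT hne
  obtain ⟨b, hb, hmax⟩ := Set.exists_max_image T (fun y => (inner ℝ s y : ℝ)) hT hne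
  have hpar : ∀ x ∈ T, ∃ r : ℝ, x = a + r • s := by
    intro x hx
    have : x - a ∈ Submodule.span ℝ {s} := h (vsub_mem_vectorSpan ℝ hx ha)
    rw [Submodule.mem_span_singleton] at this
    obtain ⟨r, hr⟩ := this
    exact ⟨r, by rw [hr]; abel⟩
  obtain ⟨c, hc⟩ := hpar b hb
  have hc0 : 0 ≤ c := by
    have := hmin b hb
    simp only [hc, inner_add_right, inner_smul_right] at this
    by_contra hneg
    push Not at hneg
    have := mul_neg_of_neg_of_pos hneg hss
    linarith
  refine ⟨a, c, hc0, ?_⟩
  apply Set.Subset.antisymm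
  · apply convexHull_min _ (convex_segment a (a + c • s))
    intro x hx
    obtain ⟨r, hr⟩ := hpar x hx
    have h1 := hmin x hx
    have h2 := hmax x hx
    simp only [hr, hc, inner_add_right, inner_smul_right] at h1 h2
    have hr0 : 0 ≤ r := by
      by_contra hneg
      push Not at hneg
      have := mul_neg_of_neg_of_pos hneg hss
      linarith
    have hrc : r ≤ c := by
      by_contra hneg
      push Not at hneg
      have := mul_lt_mul_of_pos_right hneg hss
      linarith
    rw [mem_segment_iff]
    rcases hc0.eq_or_lt with h0 | h0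
    · refine ⟨0, le_refl _, zero_le_one, ?_⟩
      have : r = 0 := le_antisymm (by rw [h0]; exact hrc) hr0
      rw [hr, this]; simp
    · refine ⟨r / c, div_nonneg hr0 hc0, (div_le_one h0).mpr hrc, ?_⟩
      rw [hr, smul_smul, div_mul_cancel₀ _ h0.ne']
  · rw [← convexHull_pair]
    apply convexHull_mono
    rintro x (rfl | hx)
    · exact ha
    · rw [Set.mem_singleton_iff] at hx
      rw [hx, ← hc]; exact hb

end Pool.Agent.Lib.MP_0d4032_co
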