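import Pool.Agent.Lib.MP_0d4032_co.Basic
import Pool.Agent.Lib.MP_0d4032_co.Polygon

set_option autoImplicit false

open scoped Pointwise Topology
open Filter

namespace Pool.Agent.Lib.MP_0d4032_co

/-- number of unit vectors orthogonal to `u` whose face is not a point -/
noncomputable def edgeCount (P : Set E3) (u : E3) : ℕ :=
  {v : E3 | ‖v‖ = 1 ∧ inner ℝ u v = 0 ∧ (face P v).Nontrivial}.ncard

theorem exists_basis (u : E3) (hu : ‖u‖ = 1) :
    ∃ b : OrthonormalBasis (Fin 3) ℝ E3, b 0 = u := by
  have h : Orthonormal ℝ (({0} : Set (Fin 3)).domRestrict (fun _ : Fin 3 => u)) := by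
    constructor
    · intro i; simpa using hu
    · intro i j hij
      exact absurd (Subsingleton.elim i j) hij
  obtain ⟨b, hb⟩ := Orthonormal.exists_orthonormalBasis_extension_of_card_eq (ι := Fin 3) (by simp) h
  exact ⟨b, hb 0 (by simp)⟩

theorem extremePoints_image_inj {E F : Type*} [AddCommGroup E] [Module ℝ E] [AddCommGroup F]
    [Module ℝ F] (M : E →ₗ[ℝ] F) (hM : Function.Injective M) (Q : Set E) :
    (M '' Q).extremePoints ℝ = M '' (Q.extremePoints ℝ) := by
  ext x
  constructor
  · intro hx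
    rw [mem_extremePoints] at hx
    obtain ⟨⟨y, hy, rfl⟩, hx2⟩ := hx
    refine ⟨y, ?_, rfl⟩
    rw [mem_extremePoints]
    refine ⟨hy, fun a ha b hb hab => ?_⟩
    have := hx2 (M a) ⟨a, ha, rfl⟩ (M b) ⟨b, hb, rfl⟩ (by
      obtain ⟨s, t, hs, ht, hst, rfl⟩ := hab
      exact ⟨s, t, hs, ht, hst, by simp⟩)
    exact ⟨hM this.1, hM this.2⟩
  · rintro ⟨y, hy, rfl⟩
    rw [mem_extremePoints] at hy ⊢
    refine ⟨⟨y, hy.1, rfl⟩, ?_⟩
    rintro _ ⟨a, ha, rfl⟩ _ ⟨b, hb, rfl⟩ hab
    obtain ⟨s, t, hs, ht, hst, h⟩ := hab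
    have h' : y = s • a + t • b := by
      apply hM
      rw [← h]; simp
    have := hy.2 a ha b hb ⟨s, t, hs, ht, hst, h'.symm⟩
    exact ⟨by rw [this.1], by rw [this.2]⟩

/-- The number of vertices of a shadow is the number of its edges. -/
theorem shadow_count {S : Set E3} (hS : S.Finite)
    (hspan : vectorSpan ℝ S = ⊤) {u : E3} (hu : ‖u‖ = 1)
    (hgen : ¬ ParallelToFace (convexHull ℝ S) u) :
    ((shadow (convexHull ℝ S) u).extremePoints ℝ).ncard = edgeCount (convexHull ℝ S) u := by
  obtain ⟨b, hb0⟩ := exists_basis u hu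
  have h01 : inner ℝ (b 0) (b 1) = (0:ℝ) := by simp
  have h02 : inner ℝ (b 0) (b 2) = (0:ℝ) := by simp
  have h12 : inner ℝ (b 1) (b 2) = (0:ℝ) := by simp
  have h21 : inner ℝ (b 2) (b 1) = (0:ℝ) := by simp
  have h11 : inner ℝ (b 1) (b 1) = (1:ℝ) := by simp
  have h22 : inner ℝ (b 2) (b 2) = (1:ℝ) := by simp
  set L : E3 →ₗ[ℝ] ℝ × ℝ :=
    LinearMap.prod (innerSL ℝ (b 1)).toLinearMap (innerSL ℝ (b 2)).toLinearMap with hL
  have hLx : ∀ x : E3, L x = (inner ℝ (b 1) x, inner ℝ (b 2) x) := fun x => rfl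
  set M : ℝ × ℝ →ₗ[ℝ] E3 :=
    (LinearMap.toSpanSingleton ℝ E3 (b 1)).coprod (LinearMap.toSpanSingleton ℝ E3 (b 2)) with hM
  have hMw : ∀ w : ℝ × ℝ, M w = w.1 • b 1 + w.2 • b 2 := by
    intro w; simp [hM, LinearMap.coprod_apply, LinearMap.toSpanSingleton_apply]
  have hLM : ∀ w, L (M w) = w := by
    intro w
    rw [hLx, hMw]
    ext
    · simp [inner_add_right, inner_smul_right, h12]
    · simp [inner_add_right, inner_smul_right, h21]
  have hMinj : Function.Injective M := fun x y h => by rw [← hLM x, h, hLM]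
  have hrep : ∀ x : E3, x = (inner ℝ u x : ℝ) • u + M (L x) := by
    intro x
    have := b.sum_repr' x
    rw [Fin.sum_univ_three, hb0] at this
    rw [hMw, hLx]
    conv_lhs => rw [← this]
    rw [add_assoc]
  have hproj : ∀ x : E3, (Submodule.span ℝ {u})ᗮ.starProjection x = M (L x) := by
    intro x
    rw [Submodule.starProjection_orthogonal_val, Submodule.starProjection_unit_singleton ℝ hu]
    conv_lhs => rw [hrep x]
    have : inner ℝ u ((inner ℝ u x : ℝ) • u + M (L x)) = (inner ℝ u x : ℝ) := by rw [← hrep x]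
    rw [this]
    abel
  have hsh : shadow (convexHull ℝ S) u = M '' (convexHull ℝ (L '' S)) := by
    unfold shadow
    rw [← LinearMap.image_convexHull, Set.image_image]
    apply Set.image_congr
    intro x _
    exact hproj x
  have huM : ∀ w, inner ℝ u (M w) = (0:ℝ) := by
    intro w
    rw [hMw, ← hb0, inner_add_right, inner_smul_right, inner_smul_right, h01, h02]; simp
  have hinner : ∀ (w : ℝ × ℝ) (x : E3), inner ℝ (M w) x = fv w (L x) := by
    intro w x
    rw [hMw, hLx, inner_add_left, inner_smul_left, inner_smul_left]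
    simp [fv]
  have hnorm : ∀ w : ℝ × ℝ, ‖M w‖ ^ 2 = w.1 ^ 2 + w.2 ^ 2 := by
    intro w
    rw [← real_inner_self_eq_norm_sq, hinner, hLM]
    simp only [fv]; ring
  have hnorm1 : ∀ w : ℝ × ℝ, ‖M w‖ = 1 ↔ w.1 ^ 2 + w.2 ^ 2 = 1 := by
    intro w
    rw [← hnorm]
    constructor
    · intro h; rw [h]; norm_num
    · intro h
      have h2 : (‖M w‖ - 1) * (‖M w‖ + 1) = 0 := by linear_combination h
      rcases mul_eq_zero.mp h2 with h3 | h3
      · linarith
      · have := norm_nonneg (M w); linarith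
  rw [hsh, extremePoints_image_inj M hMinj, Set.ncard_image_of_injective _ hMinj]
  rw [← polygon_count (hS.image L)]
  · unfold edgeCount
    have hset : {v : E3 | ‖v‖ = 1 ∧ inner ℝ u v = 0 ∧ (face (convexHull ℝ S) v).Nontrivial} =
        M '' {w : ℝ × ℝ | w.1 ^ 2 + w.2 ^ 2 = 1 ∧
          (face2 (convexHull ℝ (L '' S)) w).Nontrivial} := by
      have hface : ∀ w : ℝ × ℝ, face2 (convexHull ℝ (L '' S)) w =
          L '' (face (convexHull ℝ S) (M w)) := by
        intro w
        rw [← LinearMap.image_convexHull]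
        ext y
        constructor
        · rintro ⟨⟨x, hx, rfl⟩, hy⟩
          refine ⟨x, ⟨hx, fun z hz => ?_⟩, rfl⟩
          rw [hinner, hinner]
          exact hy _ ⟨z, hz, rfl⟩
        · rintro ⟨x, ⟨hx, hx2⟩, rfl⟩
          refine ⟨⟨x, hx, rfl⟩, ?_⟩
          rintro _ ⟨z, hz, rfl⟩
          rw [← hinner, ← hinner]
          exact hx2 z hz
      have hnt : ∀ w : ℝ × ℝ, w.1 ^ 2 + w.2 ^ 2 = 1 →
          ((face2 (convexHull ℝ (L '' S)) w).Nontrivial ↔
            (face (convexHull ℝ S) (M w)).Nontrivial) := by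
        intro w hw
        rw [hface w]
        constructor
        · intro h
          exact Set.nontrivial_of_image L _ h
        · rintro ⟨x, hx, y, hy, hxy⟩
          refine ⟨L x, ⟨x, hx, rfl⟩, L y, ⟨y, hy, rfl⟩, fun h => ?_⟩
          apply hgen
          refine ⟨M w, ?_, ?_⟩
          · intro h0
            have := (hnorm1 w).mpr hw
            rw [h0, norm_zero] at this
            norm_num at this
          · have hd : x - y = (inner ℝ u (x - y) : ℝ) • u := by
              have := hrep (x - y)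
              rw [map_sub, h, sub_self, map_zero, add_zero] at this
              exact this
            have hne : (inner ℝ u (x - y) : ℝ) ≠ 0 := by
              intro h0
              rw [h0, zero_smul] at hd
              exact hxy (sub_eq_zero.mp hd)
            have hmem : x - y ∈ vectorSpan ℝ (face (convexHull ℝ S) (M w)) :=
              vsub_mem_vectorSpan ℝ hx hy
            have : u = (inner ℝ u (x - y) : ℝ)⁻¹ • (x - y) := by
              conv_rhs => rw [hd]
              have : inner ℝ u ((inner ℝ u (x - y) : ℝ) • u) = (inner ℝ u (x - y) : ℝ) := by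
                rw [← hd]
              rw [this, smul_smul, inv_mul_cancel₀ hne, one_smul]
            rw [this]
            exact Submodule.smul_mem _ _ hmem
      ext v
      constructor
      · rintro ⟨hv1, hv2, hv3⟩
        have hvM : v = M (L v) := by
          have := hrep v
          rw [hv2, zero_smul, zero_add] at this
          exact this
        refine ⟨L v, ⟨?_, ?_⟩, hvM.symm⟩
        · rw [← hnorm1, ← hvM]; exact hv1
        · rw [hnt, ← hvM]
          · exact hv3
          · rw [← hnorm1, ← hvM]; exact hv1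
      · rintro ⟨w, ⟨hw1, hw2⟩, rfl⟩
        exact ⟨(hnorm1 w).mpr hw1, huM w, (hnt w hw1).mp hw2⟩
    rw [hset, Set.ncard_image_of_injective _ hMinj]
  · intro w hw
    by_contra hcon
    push Not at hcon
    have hall : ∀ x ∈ S, ∀ y ∈ S, inner ℝ (M w) x = inner ℝ (M w) y := by
      intro x hx y hy
      rw [hinner, hinner]
      exact hcon _ ⟨x, hx, rfl⟩ _ ⟨y, hy, rfl⟩
    have hle : vectorSpan ℝ S ≤ LinearMap.ker (innerSL ℝ (M w)).toLinearMap := by
      rw [vectorSpan_def, Submodule.span_le]
      rintro _ ⟨y, hy, z, hz, rfl⟩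
      show inner ℝ (M w) (y - z) = 0
      rw [inner_sub_right, hall y hy z hz, sub_self]
    rw [hspan] at hle
    have : inner ℝ (M w) (M w) = (0:ℝ) := hle (Submodule.mem_top (x := M w))
    rw [inner_self_eq_zero] at this
    have h1 := (hnorm1 w).mpr hw
    rw [this, norm_zero] at h1
    norm_num at h1

end Pool.Agent.Lib.MP_0d4032_co
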