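import Pool.Agent.Lib.MP_0d4032_co.Lines
import Pool.Agent.Lib.MP_0d4032_co.Shadow

set_option autoImplicit false

open scoped Pointwise Topology
open Filter

namespace Pool.Agent.Lib.MP_0d4032_co

open Classical in
/-- how many of the two faces in directions `x`, `-x` are edges parallel to `l` -/
noncomputable def typ (P : Set E3) (l : Submodule ℝ E3) (x : E3) : ℕ :=
  (if dir P x = l then 1 else 0) + (if dir P (-x) = l then 1 else 0)

/-- number of unit vectors orthogonal to `u` whose face is parallel to `l` -/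
noncomputable def fib (P : Set E3) (l : Submodule ℝ E3) (u : E3) : ℕ :=
  {v : E3 | ‖v‖ = 1 ∧ inner ℝ u v = 0 ∧ dir P v = l}.ncard

theorem typ_neg (P : Set E3) (l : Submodule ℝ E3) (x : E3) : typ P l (-x) = typ P l x := by
  unfold typ; rw [neg_neg, add_comm]

theorem typ_smul (P : Set E3) (l : Submodule ℝ E3) (x : E3) {c : ℝ} (hc : c ≠ 0) :
    typ P l (c • x) = typ P l x := by
  rcases lt_or_gt_of_ne hc with h | h
  · have h1 : c • x = -((-c) • x) := by simp
    rw [h1, typ_neg]
    unfold typ
    rw [← smul_neg, dir_smul (by linarith), dir_smul (by linarith)]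
  · unfold typ
    rw [← smul_neg, dir_smul h, dir_smul h]

theorem dir_le (P : Set E3) (v : E3) : dir P v ≤ (Submodule.span ℝ {v})ᗮ := by
  intro x hx
  exact mem_orth_span.mpr (inner_dir hx)

theorem finrank_orth_span {v : E3} (hv : v ≠ 0) :
    Module.finrank ℝ (Submodule.span ℝ {v})ᗮ = 2 := by
  have := finrank_orth (Submodule.span ℝ {v})
  rw [finrank_span_singleton hv] at this
  omega

theorem finrank_dir_le_two (P : Set E3) {v : E3} (hv : v ≠ 0) :
    Module.finrank ℝ (dir P v) ≤ 2 :=
  (Submodule.finrank_mono (dir_le P v)).trans (finrank_orth_span hv).le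

theorem finrank_dir_le_one {P : Set E3} {u v : E3} (hv : v ≠ 0) (huv : inner ℝ u v = 0)
    (hu : ¬ ParallelToFace P u) : Module.finrank ℝ (dir P v) ≤ 1 := by
  have hne : dir P v ≠ (Submodule.span ℝ {v})ᗮ := by
    intro h
    apply hu
    refine ⟨v, hv, ?_⟩
    show u ∈ dir P v
    rw [h]
    exact mem_orth_span'.mpr huv
  have hlt : dir P v < (Submodule.span ℝ {v})ᗮ := lt_of_le_of_ne (dir_le P v) hne
  have := Submodule.finrank_lt_finrank_of_lt hlt
  rw [finrank_orth_span hv] at this
  omega

theorem nontrivial_iff {P : Set E3} {v : E3} : (face P v).Nontrivial ↔ dir P v ≠ ⊥ := by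
  unfold dir
  rw [Ne, vectorSpan_eq_bot_iff_subsingleton, Set.not_subsingleton_iff]

theorem mem_orth_of_dir {P : Set E3} {l : Submodule ℝ E3} {v : E3} (h : dir P v = l) : v ∈ lᗮ := by
  rw [Submodule.mem_orthogonal']
  intro d hd
  rw [← h] at hd
  exact inner_dir hd

theorem fib_subset {P : Set E3} {l : Submodule ℝ E3} (hl : IsLine l) {u : E3} (hu : u ∉ l) :
    ∃ x : E3, ‖x‖ = 1 ∧ inner ℝ u x = 0 ∧ x ∈ lᗮ ∧
      (∀ y : E3, inner ℝ u y = 0 → y ∈ lᗮ → ∃ c : ℝ, y = c • x) ∧
      {v : E3 | ‖v‖ = 1 ∧ inner ℝ u v = 0 ∧ dir P v = l} =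
        {v | (v = x ∨ v = -x) ∧ dir P v = l} := by
  obtain ⟨x, h1, h2, h3, h4⟩ := exists_perp hl hu
  refine ⟨x, h1, h2, h3, h4, ?_⟩
  ext v
  constructor
  · rintro ⟨a, b, c⟩
    refine ⟨?_, c⟩
    obtain ⟨r, hr⟩ := h4 v b (mem_orth_of_dir c)
    rw [hr, norm_smul, h1, mul_one, Real.norm_eq_abs] at a
    rcases eq_or_eq_neg_of_abs_eq a with h | h
    · left; rw [hr, h, one_smul]
    · right; rw [hr, h, neg_smul, one_smul]
  · rintro ⟨h | h, c⟩
    · exact ⟨by rw [h, h1], by rw [h, h2], c⟩
    · exact ⟨by rw [h, norm_neg, h1], by rw [h, inner_neg_right, h2, neg_zero], c⟩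

theorem fib_eq {P : Set E3} {l : Submodule ℝ E3} (hl : IsLine l) {u : E3} (hu : u ∉ l)
    {x : E3} (hx0 : x ≠ 0) (hux : inner ℝ u x = 0) (hxl : x ∈ lᗮ) :
    fib P l u = typ P l x := by
  obtain ⟨z, h1, h2, h3, h4, h5⟩ := fib_subset (P := P) hl hu
  obtain ⟨c, hc⟩ := h4 x hux hxl
  have hc0 : c ≠ 0 := by
    intro h0
    rw [h0, zero_smul] at hc
    exact hx0 hc
  rw [hc, typ_smul P l z hc0]
  unfold fib
  rw [h5]
  have hz : z ≠ -z := by
    intro h
    have : (2:ℝ) • z = 0 := by rw [two_smul]; nth_rewrite 2 [h]; simp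
    rw [smul_eq_zero] at this
    rcases this with h | h
    · norm_num at h
    · rw [h, norm_zero] at h1; norm_num at h1
  unfold typ
  by_cases ha : dir P z = l <;> by_cases hb : dir P (-z) = l
  · have : {v | (v = z ∨ v = -z) ∧ dir P v = l} = {z, -z} := by
      ext v
      constructor
      · rintro ⟨h | h, -⟩
        · left; exact h
        · right; exact h
      · rintro (h | h)
        · exact ⟨Or.inl h, by rw [h]; exact ha⟩
        · exact ⟨Or.inr h, by rw [Set.mem_singleton_iff.mp h]; exact hb⟩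
    rw [this, Set.ncard_pair hz, if_pos ha, if_pos hb]
  · have : {v | (v = z ∨ v = -z) ∧ dir P v = l} = {z} := by
      ext v
      constructor
      · rintro ⟨h | h, h'⟩
        · exact h
        · rw [h] at h'; exact absurd h' hb
      · intro h
        rw [Set.mem_singleton_iff] at h
        exact ⟨Or.inl h, by rw [h]; exact ha⟩
    rw [this, Set.ncard_singleton, if_pos ha, if_neg hb]
  · have : {v | (v = z ∨ v = -z) ∧ dir P v = l} = {-z} := by
      ext v
      constructor
      · rintro ⟨h | h, h'⟩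
        · rw [h] at h'; exact absurd h' ha
        · exact h
      · intro h
        rw [Set.mem_singleton_iff] at h
        exact ⟨Or.inr h, by rw [h]; exact hb⟩
    rw [this, Set.ncard_singleton, if_neg ha, if_pos hb]
  · have : {v | (v = z ∨ v = -z) ∧ dir P v = l} = ∅ := by
      ext v
      constructor
      · rintro ⟨h | h, h'⟩
        · rw [h] at h'; exact absurd h' ha
        · rw [h] at h'; exact absurd h' hb
      · intro h; exact absurd h (Set.notMem_empty v)
    rw [this, Set.ncard_empty, if_neg ha, if_neg hb]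

/-- if `u` is in the line but not parallel to a face, nothing is counted -/
theorem fib_eq_zero {P : Set E3} {l : Submodule ℝ E3} {u : E3} (hul : u ∈ l)
    (hu : ¬ ParallelToFace P u) : fib P l u = 0 := by
  unfold fib
  have : {v : E3 | ‖v‖ = 1 ∧ inner ℝ u v = 0 ∧ dir P v = l} = ∅ := by
    ext v
    constructor
    · rintro ⟨a, b, c⟩
      exfalso
      apply hu
      refine ⟨v, ?_, ?_⟩
      · intro h; rw [h, norm_zero] at a; norm_num at a
      · show u ∈ dir P v
        rw [c]; exact hul
    · intro h; exact absurd h (Set.notMem_empty v)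
  rw [this, Set.ncard_empty]

theorem fib_finite {P : Set E3} {l : Submodule ℝ E3} (hl : IsLine l) {u : E3}
    (hu : ¬ ParallelToFace P u) :
    {v : E3 | ‖v‖ = 1 ∧ inner ℝ u v = 0 ∧ dir P v = l}.Finite := by
  by_cases hul : u ∈ l
  · have : {v : E3 | ‖v‖ = 1 ∧ inner ℝ u v = 0 ∧ dir P v = l} = ∅ := by
      ext v
      constructor
      · rintro ⟨a, b, c⟩
        exfalso
        apply hu
        refine ⟨v, ?_, ?_⟩
        · intro h; rw [h, norm_zero] at a; norm_num at a
        · show u ∈ dir P v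
          rw [c]; exact hul
      · intro h; exact absurd h (Set.notMem_empty v)
    rw [this]; exact Set.finite_empty
  · obtain ⟨z, -, -, -, -, h5⟩ := fib_subset (P := P) hl hul
    rw [h5]
    apply (Set.toFinite ({z, -z} : Set E3)).subset
    rintro v ⟨h | h, -⟩
    · left; exact h
    · right; exact h

/-- the edge count is the sum of the counts of the parallel classes -/
theorem edgeCount_eq {P : Set E3} {L : Finset (Submodule ℝ E3)} (hL : ∀ l ∈ L, IsLine l)
    (hdir : ∀ v : E3, v ≠ 0 → IsLine (dir P v) → dir P v ∈ L) {u : E3}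
    (hu : ¬ ParallelToFace P u) : edgeCount P u = ∑ l ∈ L, fib P l u := by
  classical
  set A := {v : E3 | ‖v‖ = 1 ∧ inner ℝ u v = 0 ∧ (face P v).Nontrivial} with hA
  have hline : ∀ v ∈ A, IsLine (dir P v) := by
    rintro v ⟨a, b, c⟩
    have hv : v ≠ 0 := by intro h; rw [h, norm_zero] at a; norm_num at a
    have h1 := finrank_dir_le_one hv b hu
    have h2 : Module.finrank ℝ (dir P v) ≠ 0 := by
      intro h0
      exact (nontrivial_iff.mp c) (Submodule.finrank_eq_zero.mp h0)
    unfold IsLine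
    omega
  have hnz : ∀ v ∈ A, v ≠ 0 := by
    rintro v ⟨a, -, -⟩ h
    rw [h, norm_zero] at a; norm_num at a
  have hAfin : A.Finite := by
    have : A ⊆ ⋃ l ∈ L, {v : E3 | ‖v‖ = 1 ∧ inner ℝ u v = 0 ∧ dir P v = l} := by
      intro v hv
      simp only [Set.mem_iUnion]
      exact ⟨dir P v, hdir v (hnz v hv) (hline v hv), hv.1, hv.2.1, rfl⟩
    apply Set.Finite.subset _ this
    exact Set.Finite.biUnion L.finite_toSet (fun l hl => fib_finite (hL l hl) hu)
  unfold edgeCount
  rw [← hA, Set.ncard_eq_toFinset_card A hAfin]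
  rw [Finset.card_eq_sum_card_fiberwise (f := fun v => dir P v) (t := L)]
  · apply Finset.sum_congr rfl
    intro l hl
    unfold fib
    rw [← Set.ncard_coe_finset]
    congr 1
    ext v
    simp only [Finset.coe_filter, Set.Finite.mem_toFinset]
    constructor
    · rintro ⟨⟨a, b, -⟩, h⟩
      exact ⟨a, b, h⟩
    · rintro ⟨a, b, h⟩
      refine ⟨⟨a, b, ?_⟩, h⟩
      rw [nontrivial_iff, h]
      intro h0
      have := hL l hl
      unfold IsLine at this
      rw [h0, finrank_bot] at this
      omega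
  · intro v hv
    have hv' : v ∈ A := by simpa using hv
    exact hdir v (hnz v hv') (hline v hv')

end Pool.Agent.Lib.MP_0d4032_co
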