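import Pool.Agent.Lib.MP_0d4032_co.Edge
import Pool.Agent.Lib.MP_0d4032_co.Halve

set_option autoImplicit false

open scoped Pointwise Topology
open Filter

namespace Pool.Agent.Lib.MP_0d4032_co

theorem sum_segments_hull {ι : Type*} (J : Finset ι) (s : ι → E3) :
    ∃ S : Set E3, S.Finite ∧ S.Nonempty ∧ ∑ i ∈ J, segment ℝ 0 (s i) = convexHull ℝ S := by
  classical
  induction J using Finset.induction_on with
  | empty =>
    exact ⟨{0}, Set.finite_singleton _, ⟨0, rfl⟩, by
      rw [Finset.sum_empty, convexHull_singleton]; rfl⟩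
  | insert i J hi ih =>
    obtain ⟨S, h1, h2, h3⟩ := ih
    refine ⟨S + {0, s i}, h1.add (Set.toFinite _), h2.add ⟨0, by simp⟩, ?_⟩
    rw [Finset.sum_insert hi, h3, add_comm, add_segment_hull]

open Classical in
theorem dir_sum_segments {ι : Type*} (J : Finset ι) (s : ι → E3) (v : E3) :
    dir (∑ i ∈ J, segment ℝ 0 (s i)) v =
      ⨆ i ∈ J, (if (inner ℝ v (s i) : ℝ) = 0 then Submodule.span ℝ {s i} else ⊥) := by
  induction J using Finset.induction_on with
  | empty =>
    rw [Finset.sum_empty]
    simp only [Finset.notMem_empty, iSup_false, iSup_bot]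
    unfold dir
    rw [vectorSpan_eq_bot_iff_subsingleton]
    intro x hx y hy
    rw [Set.mem_zero.mp hx.1, Set.mem_zero.mp hy.1]
  | insert i J hi ih =>
    obtain ⟨S, h1, h2, h3⟩ := sum_segments_hull J s
    rw [Finset.sum_insert hi, add_comm, h3,
      dir_add_segment (face_hull_nonempty h1 h2 v) (s i), ← h3, ih, Finset.iSup_insert, sup_comm]

section

variable {n : ℕ} {s : Fin n → E3} (hind : ∀ i j, i ≠ j → LinearIndependent ℝ ![s i, s j])

include hind

theorem span_injective :
    Function.Injective (fun i => Submodule.span ℝ {s i}) := by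
  intro i j hij
  by_contra hne
  have h := hind i j hne
  have hij : Submodule.span ℝ {s i} = Submodule.span ℝ {s j} := hij
  have hmem : s j ∈ Submodule.span ℝ {s i} := by
    rw [hij]; exact Submodule.mem_span_singleton_self _
  rw [Submodule.mem_span_singleton] at hmem
  obtain ⟨c, hc⟩ := hmem
  rw [LinearIndependent.pair_iff] at h
  have := h c (-1) (by rw [hc, neg_one_smul, add_neg_cancel])
  norm_num at this

theorem ne_zero_of_span (hspan : Submodule.span ℝ (Set.range s) = ⊤) (i : Fin n) : s i ≠ 0 := by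
  -- there is another index
  have hn : 2 ≤ n := by
    by_contra h
    push Not at h
    have h1 : Module.finrank ℝ (Submodule.span ℝ (Set.range s)) ≤ n := by
      have := finrank_range_le_card (R := ℝ) s
      simpa [Set.finrank] using this
    rw [hspan, finrank_top, finrank_E3] at h1
    omega
  obtain ⟨j, hj⟩ : ∃ j : Fin n, i ≠ j := by
    by_cases h0 : i = ⟨0, by omega⟩
    · exact ⟨⟨1, by omega⟩, by rw [h0]; intro h; simp [Fin.ext_iff] at h⟩
    · exact ⟨⟨0, by omega⟩, h0⟩
  have := (hind i j hj).ne_zero 0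
  simpa using this

end

theorem IsZonotope.polyhedron {n : ℕ} {Z : Set E3} (h : IsZonotope n Z) : IsPolyhedron Z := by
  obtain ⟨s, hind, hspan, rfl⟩ := h
  obtain ⟨S, h1, h2, h3⟩ := sum_segments_hull Finset.univ s
  rw [h3]
  refine ⟨⟨S, h1, rfl⟩, interior_of_vectorSpan h2 ?_⟩
  rw [← vectorSpan_convexHull, ← h3, eq_top_iff, ← hspan, Submodule.span_le]
  rintro _ ⟨i, rfl⟩
  have h4 : ∀ J : Finset (Fin n), (0 : E3) ∈ ∑ i ∈ J, segment ℝ 0 (s i) := by
    classical
    intro J
    induction J using Finset.induction_on with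
    | empty => simp
    | insert j J hj ih =>
      rw [Finset.sum_insert hj]
      exact ⟨0, left_mem_segment _ _ _, 0, ih, by simp⟩
  have h5 : s i ∈ ∑ i, segment ℝ 0 (s i) := by
    classical
    rw [← Finset.add_sum_erase _ _ (Finset.mem_univ i)]
    exact ⟨s i, right_mem_segment _ _ _, 0, h4 _, by simp⟩
  have := vsub_mem_vectorSpan ℝ h5 (h4 Finset.univ)
  simpa using this

open Classical in
theorem IsZonotope.typed {n : ℕ} {Z : Set E3} (h : IsZonotope n Z) :
    ∃ L m, Typed (2 * n) Z L m := by
  obtain ⟨s, hind, hspan, rfl⟩ := h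
  have hn := ne_zero_of_span hind hspan
  have hinj := span_injective hind
  refine ⟨Finset.univ.image (fun i => Submodule.span ℝ {s i}), fun _ => 2, ?_, ?_, ?_, ?_⟩
  · intro l hl
    obtain ⟨i, -, rfl⟩ := Finset.mem_image.mp hl
    exact isLine_span (hn i)
  · intro v hv hline
    rw [dir_sum_segments] at hline ⊢
    by_cases hex : ∃ i, (inner ℝ v (s i) : ℝ) = 0
    · obtain ⟨i, hi⟩ := hex
      have hle : Submodule.span ℝ {s i} ≤
          ⨆ i ∈ Finset.univ, (if (inner ℝ v (s i) : ℝ) = 0 then Submodule.span ℝ {s i} else ⊥) := by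
        refine le_trans ?_ (le_iSup₂ i (Finset.mem_univ i))
        rw [if_pos hi]
      rw [← (isLine_span (hn i)).eq_of_le hle (le_of_eq hline)]
      exact Finset.mem_image_of_mem _ (Finset.mem_univ i)
    · push Not at hex
      exfalso
      have : (⨆ i ∈ Finset.univ, (if (inner ℝ v (s i) : ℝ) = 0 then Submodule.span ℝ {s i}
          else (⊥ : Submodule ℝ E3))) = ⊥ := by
        simp only [iSup_eq_bot]
        intro i _
        rw [if_neg (hex i)]
      rw [this] at hline
      unfold IsLine at hline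
      rw [finrank_bot] at hline
      omega
  · intro l hl
    obtain ⟨i, -, rfl⟩ := Finset.mem_image.mp hl
    intro x hx0 hxl h1 h2
    have hxs := orth_of_inner hxl
    have key : ∀ y : E3, (inner ℝ y (s i) : ℝ) = 0 →
        Module.finrank ℝ (dir (∑ i, segment ℝ 0 (s i)) y) ≤ 1 →
        dir (∑ i, segment ℝ 0 (s i)) y = Submodule.span ℝ {s i} := by
      intro y hy hy1
      symm
      apply (isLine_span (hn i)).eq_of_le _ hy1
      rw [dir_sum_segments]
      refine le_trans ?_ (le_iSup₂ i (Finset.mem_univ i))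
      rw [if_pos hy]
    unfold typ
    rw [key x hxs h1, key (-x) (by rw [inner_neg_left, hxs, neg_zero]) h2, if_pos rfl]
  · rw [Finset.sum_const, Finset.card_image_of_injective _ hinj, Finset.card_univ,
      Fintype.card_fin, smul_eq_mul, mul_comm]

/-- strongly isomorphic polytopes have parallel faces -/
theorem dir_eq_of_stronglyIsomorphic {S S' : Set E3} (hS : S.Finite) (hS' : S'.Finite)
    (h : StronglyIsomorphic (convexHull ℝ S) (convexHull ℝ S')) {v : E3} (hv : v ≠ 0) :
    dir (convexHull ℝ S) v = dir (convexHull ℝ S') v := by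
  have hf : Module.finrank ℝ (dir (convexHull ℝ S) v) =
    Module.finrank ℝ (dir (convexHull ℝ S') v) := h v hv
  have h2 := finrank_dir_le_two (convexHull ℝ S) hv
  rcases Nat.lt_or_ge (Module.finrank ℝ (dir (convexHull ℝ S) v)) 1 with h0 | h0
  · have e1 : dir (convexHull ℝ S) v = ⊥ := Submodule.finrank_eq_zero.mp (by omega)
    have e2 : dir (convexHull ℝ S') v = ⊥ := Submodule.finrank_eq_zero.mp (by omega)
    rw [e1, e2]
  · rcases Nat.lt_or_ge (Module.finrank ℝ (dir (convexHull ℝ S) v)) 2 with h1 | h1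
    · -- both are lines
      have hl : IsLine (dir (convexHull ℝ S) v) := by unfold IsLine; omega
      have hl' : IsLine (dir (convexHull ℝ S') v) := by unfold IsLine; omega
      by_contra hne
      obtain ⟨w, hw⟩ := exists_gen (L := {dir (convexHull ℝ S') v}) (Set.finite_singleton _)
        (fun m hm => by rw [Set.mem_singleton_iff.mp hm]; exact hl') hl
      have hwn : w ∉ (dir (convexHull ℝ S') v)ᗮ := hw.2.2 _ rfl (Ne.symm hne)
      have e0 := gen_perturb (Set.finite_singleton (dir (convexHull ℝ S') v))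
        (mem_orth_of_dir (P := convexHull ℝ S) (v := v) rfl) hv hw
      obtain ⟨t, ht0, ⟨ht1, ht2⟩, ht3⟩ := (e0.and (((face_perturb hS v w).and
        (face_perturb hS' v w)).and self_mem_nhdsWithin)).exists
      have ht3 : 0 < t := ht3
      have d1 : dir (convexHull ℝ S) (v + t • w) = dir (convexHull ℝ S) v := by
        unfold dir
        rw [ht1, face_face_of_orth rfl hw.2.1]
      have hfin := h _ ht0.1
      have d2 : IsLine (dir (convexHull ℝ S') (v + t • w)) := by
        unfold IsLine
        have : Module.finrank ℝ (dir (convexHull ℝ S) (v + t • w)) = 1 := by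
          rw [d1]; exact hl
        rw [← this]
        exact hfin.symm
      have d3 : dir (convexHull ℝ S') (v + t • w) ≤ dir (convexHull ℝ S') v := by
        unfold dir
        rw [ht2]
        exact vectorSpan_mono ℝ (face_subset _ _)
      have d4 := d2.eq_of_le d3 (le_of_eq hl')
      apply hwn
      have o1 : v + t • w ∈ (dir (convexHull ℝ S') v)ᗮ := mem_orth_of_dir d4
      have o2 : v ∈ (dir (convexHull ℝ S') v)ᗮ := mem_orth_of_dir rfl
      have o3 := Submodule.sub_mem _ o1 o2
      rw [add_sub_cancel_left] at o3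
      exact (Submodule.smul_mem_iff _ ht3.ne').mp o3
    · have e1 : dir (convexHull ℝ S) v = (Submodule.span ℝ {v})ᗮ :=
        Submodule.eq_of_le_of_finrank_le (dir_le _ v) (by rw [finrank_orth_span hv]; exact h1)
      have e2 : dir (convexHull ℝ S') v = (Submodule.span ℝ {v})ᗮ :=
        Submodule.eq_of_le_of_finrank_le (dir_le _ v) (by
          rw [finrank_orth_span hv, ← hf]; exact h1)
      rw [e1, e2]

/-- the types depend only on the strong isomorphism class -/
theorem Typed.transfer {P P' : Set E3} (hd : ∀ v : E3, v ≠ 0 → dir P v = dir P' v) {k : ℕ}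
    {L : Finset (Submodule ℝ E3)} {m : Submodule ℝ E3 → ℕ} (h : Typed k P L m) :
    Typed k P' L m := by
  refine ⟨h.line, ?_, ?_, h.sum⟩
  · intro v hv hl
    rw [← hd v hv] at hl ⊢
    exact h.edge v hv hl
  · intro l hl x hx0 hxl h1 h2
    have hx0' := neg_ne_zero.mpr hx0
    rw [← hd x hx0] at h1
    rw [← hd (-x) hx0'] at h2
    rw [← h.type l hl x hx0 hxl h1 h2]
    unfold typ
    rw [hd x hx0, hd (-x) hx0']

section

variable {S : Set E3} (hS : S.Finite)
  {k : ℕ} {L : Finset (Submodule ℝ E3)} {m : Submodule ℝ E3 → ℕ}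
  (h : Typed k (convexHull ℝ S) L m)

include hS h

/-- edge directions have positive type -/
theorem type_pos {v : E3} (hv : v ≠ 0) (hl : IsLine (dir (convexHull ℝ S) v)) :
    m (dir (convexHull ℝ S) v) ≠ 0 := by
  set l := dir (convexHull ℝ S) v with hldef
  obtain ⟨w, hw⟩ := exists_gen (linesOf_finite hS) (fun m hm => isLine_linesOf hm) hl
  have hvl : v ∈ lᗮ := mem_orth_of_dir hldef.symm
  have e1 := gen_perturb (linesOf_finite hS) hvl hv hw
  obtain ⟨t, ht1, ht2⟩ := (e1.and (face_perturb hS v w)).exists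
  have hd : dir (convexHull ℝ S) (v + t • w) = l := by
    unfold dir
    rw [ht2, face_face_of_orth hldef.symm hw.2.1]
    rfl
  have := typ_of_gen hS subset_rfl hl ht1 (h.type l (h.edge v hv hl))
  intro h0
  rw [h0] at this
  unfold typ at this
  rw [if_pos hd] at this
  omega

/-- lines of type two lie in every face whose normal is orthogonal to them -/
theorem le_dir_of_type_two {l : Submodule ℝ E3} (hl : l ∈ L) (hm : m l = 2) {v : E3}
    (hv : v ≠ 0) (hvl : v ∈ lᗮ) : l ≤ dir (convexHull ℝ S) v := by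
  have hline := h.line l hl
  obtain ⟨w, hw⟩ := exists_gen (linesOf_finite hS) (fun m hm => isLine_linesOf hm) hline
  have e1 := gen_perturb (linesOf_finite hS) hvl hv hw
  obtain ⟨t, ht1, ht2⟩ := (e1.and (face_perturb hS v w)).exists
  have ht := typ_of_gen hS subset_rfl hline ht1 (h.type l hl)
  rw [hm] at ht
  have hd : dir (convexHull ℝ S) (v + t • w) = l := by
    by_contra hne
    unfold typ at ht
    rw [if_neg hne] at ht
    split_ifs at ht <;> omega
  rw [← hd]
  unfold dir
  rw [ht2]
  exact vectorSpan_mono ℝ (face_subset _ _)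

/-- Every direction space of a face is spanned by edge directions. -/
theorem edge_in_face {v : E3} (hv : v ≠ 0) {x : E3} (hx : x ∈ dir (convexHull ℝ S) v)
    (hx0 : x ≠ 0) : ∃ l ∈ L, m l ≠ 0 ∧ l ≤ dir (convexHull ℝ S) v ∧ x ∉ lᗮ := by
  have hT := face_finite hS v
  have hdir := dir_convexHull hS v
  -- x is not constant on the face
  obtain ⟨p, hp, q, hq, hpq⟩ : ∃ p ∈ face S v, ∃ q ∈ face S v,
      (inner ℝ x p : ℝ) ≠ inner ℝ x q := by
    by_contra hcon
    push Not at hcon
    have hle : dir (convexHull ℝ S) v ≤ (Submodule.span ℝ {x})ᗮ := by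
      rw [hdir, vectorSpan_def, Submodule.span_le]
      rintro _ ⟨p, hp, q, hq, rfl⟩
      rw [SetLike.mem_coe, mem_orth_span]
      show inner ℝ x (p - q) = 0
      rw [inner_sub_right, hcon p hp q hq, sub_self]
    have := mem_orth_span.mp (hle hx)
    exact hx0 (inner_self_eq_zero.mp this)
  obtain ⟨w, hw0, hline, a, ha, b, hb, hab⟩ := edge_exists hT hp hq hpq
  have hne0 : ∀ᶠ t in 𝓝[>] (0:ℝ), v + t • w ≠ 0 := by
    have hc : Tendsto (fun t : ℝ => v + t • w) (𝓝[>] (0:ℝ)) (𝓝 v) := by
      have : Continuous (fun t : ℝ => v + t • w) := by fun_prop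
      have h0 := this.tendsto 0
      simp only [zero_smul, add_zero] at h0
      exact h0.mono_left nhdsWithin_le_nhds
    exact hc.eventually_ne hv
  obtain ⟨t, ht1, ht2⟩ := (hne0.and (face_perturb_finite hS v w)).exists
  have hd : dir (convexHull ℝ S) (v + t • w) = vectorSpan ℝ (face (face S v) w) := by
    rw [dir_convexHull hS, ht2]
  rw [← hd] at hline
  refine ⟨_, h.edge _ ht1 hline, type_pos hS h ht1 hline, ?_, ?_⟩
  · rw [hd, hdir]
    exact vectorSpan_mono ℝ (face_subset _ _)
  · intro hmem
    rw [hd, Submodule.mem_orthogonal'] at hmem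
    have := hmem (a - b) (vsub_mem_vectorSpan ℝ ha hb)
    rw [inner_sub_right] at this
    exact hab (by linarith)

/-- The edge directions span the space. -/
theorem edge_span (hint : (interior (convexHull ℝ S)).Nonempty) {x : E3} (hx0 : x ≠ 0) :
    ∃ l ∈ L, m l ≠ 0 ∧ x ∉ lᗮ := by
  have hspan := vectorSpan_of_interior hint
  obtain ⟨p, hp, q, hq, hpq⟩ : ∃ p ∈ S, ∃ q ∈ S, (inner ℝ x p : ℝ) ≠ inner ℝ x q := by
    by_contra hcon
    push Not at hcon
    have hle : vectorSpan ℝ S ≤ (Submodule.span ℝ {x})ᗮ := by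
      rw [vectorSpan_def, Submodule.span_le]
      rintro _ ⟨p, hp, q, hq, rfl⟩
      rw [SetLike.mem_coe, mem_orth_span]
      show inner ℝ x (p - q) = 0
      rw [inner_sub_right, hcon p hp q hq, sub_self]
    rw [hspan] at hle
    have := mem_orth_span.mp (hle (Submodule.mem_top (x := x)))
    exact hx0 (inner_self_eq_zero.mp this)
  obtain ⟨w, hw0, hline, a, ha, b, hb, hab⟩ := edge_exists hS hp hq hpq
  rw [← dir_convexHull hS] at hline
  refine ⟨_, h.edge _ hw0 hline, type_pos hS h hw0 hline, ?_⟩
  intro hmem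
  rw [dir_convexHull hS, Submodule.mem_orthogonal'] at hmem
  have := hmem (a - b) (vsub_mem_vectorSpan ℝ ha hb)
  rw [inner_sub_right] at this
  exact hab (by linarith)

end

open Classical in
/-- If all types are 0 or 2 then the polytope is strongly isomorphic to a zonotope. -/
theorem exists_zonotope {S : Set E3} (hS : S.Finite)
    {k : ℕ} {L : Finset (Submodule ℝ E3)} {m : Submodule ℝ E3 → ℕ}
    (h : Typed k (convexHull ℝ S) L m) (hint : (interior (convexHull ℝ S)).Nonempty)
    (hm : ∀ l ∈ L, m l ≠ 0 → m l = 2) :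
    ∃ (n : ℕ) (Z : Set E3), k = 2 * n ∧ IsZonotope n Z ∧
      StronglyIsomorphic Z (convexHull ℝ S) := by
  set I : Finset (Submodule ℝ E3) := L.filter (fun l => m l = 2) with hI
  have hIL : ∀ l ∈ I, l ∈ L ∧ m l = 2 := fun l hl => Finset.mem_filter.mp hl
  set e := I.equivFin with he
  have hex : ∀ i : Fin I.card, ∃ d : E3, d ≠ 0 ∧ ((e.symm i : I) : Submodule ℝ E3) =
      Submodule.span ℝ {d} := fun i =>
    (h.line _ (hIL _ (e.symm i).2).1).exists_span
  choose s hs0 hsl using hex
  have hIdx : ∀ l ∈ I, ∃ i, l = Submodule.span ℝ {s i} := by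
    intro l hl
    refine ⟨e ⟨l, hl⟩, ?_⟩
    rw [← hsl, Equiv.symm_apply_apply]
  have hiI : ∀ i, Submodule.span ℝ {s i} ∈ I := by
    intro i; rw [← hsl]; exact (e.symm i).2
  refine ⟨I.card, ∑ i, segment ℝ 0 (s i), ?_, ⟨s, ?_, ?_, rfl⟩, ?_⟩
  · rw [← h.sum]
    have : ∑ l ∈ L, m l = ∑ l ∈ I, 2 := by
      rw [hI, Finset.sum_filter]
      apply Finset.sum_congr rfl
      intro l hl
      by_cases h2 : m l = 2
      · rw [if_pos h2, h2]
      · rw [if_neg h2]
        by_contra h0
        exact h2 (hm l hl h0)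
    rw [this, Finset.sum_const, smul_eq_mul, mul_comm]
  · intro i j hij
    rw [LinearIndependent.pair_iff]
    intro a b hab
    by_contra hcon
    have hne : Submodule.span ℝ {s i} ≠ Submodule.span ℝ {s j} := by
      intro heq
      apply hij
      rw [← hsl, ← hsl] at heq
      exact e.symm.injective (Subtype.ext heq)
    by_cases ha : a = 0
    · rw [ha, zero_smul, zero_add] at hab
      rcases smul_eq_zero.mp hab with hb | hb
      · exact hcon ⟨ha, hb⟩
      · exact hs0 j hb
    · have h1 : s i = (-(a⁻¹ * b)) • s j := by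
        have : a • s i = -(b • s j) := eq_neg_of_add_eq_zero_left hab
        have h2 : s i = a⁻¹ • (a • s i) := by rw [smul_smul, inv_mul_cancel₀ ha, one_smul]
        rw [h2, this, smul_neg, smul_smul, neg_smul]
      apply hne
      apply (isLine_span (hs0 i)).eq_of_le _ (le_of_eq (isLine_span (hs0 j)))
      rw [Submodule.span_singleton_le_iff_mem, h1]
      exact Submodule.smul_mem _ _ (Submodule.mem_span_singleton_self _)
  · -- spanning
    by_contra hne
    have hlt : Submodule.span ℝ (Set.range s) < ⊤ := lt_top_iff_ne_top.mpr hne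
    have hob : (Submodule.span ℝ (Set.range s))ᗮ ≠ ⊥ := by
      intro hb
      exact hne (Submodule.orthogonal_eq_bot_iff.mp hb)
    obtain ⟨x, hx, hx0⟩ := Submodule.exists_mem_ne_zero_of_ne_bot hob
    obtain ⟨l, hl, hml, hxl⟩ := edge_span hS h hint hx0
    obtain ⟨i, hi⟩ := hIdx l (Finset.mem_filter.mpr ⟨hl, hm l hl hml⟩)
    apply hxl
    rw [hi]
    apply Submodule.orthogonal_le _ hx
    rw [Submodule.span_singleton_le_iff_mem]
    exact Submodule.subset_span ⟨i, rfl⟩
  · intro v hv
    suffices hdd : dir (∑ i, segment ℝ 0 (s i)) v = dir (convexHull ℝ S) v by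
      unfold dir at hdd
      rw [hdd]
    have hle : dir (∑ i, segment ℝ 0 (s i)) v ≤ dir (convexHull ℝ S) v := by
      rw [dir_sum_segments]
      apply iSup₂_le
      intro i _
      by_cases ho : (inner ℝ v (s i) : ℝ) = 0
      · rw [if_pos ho]
        exact le_dir_of_type_two hS h (hIL _ (hiI i)).1 (hIL _ (hiI i)).2 hv
          (mem_orth_span'.mpr ho)
      · rw [if_neg ho]; exact bot_le
    apply le_antisymm hle
    by_contra hnle
    have hinf : (dir (∑ i, segment ℝ 0 (s i)) v)ᗮ ⊓ dir (convexHull ℝ S) v ≠ ⊥ := by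
      intro hb
      have := Submodule.sup_orthogonal_inf_of_hasOrthogonalProjection hle
      rw [hb, sup_bot_eq] at this
      exact hnle this.ge
    obtain ⟨x, hx, hx0⟩ := Submodule.exists_mem_ne_zero_of_ne_bot hinf
    rw [Submodule.mem_inf] at hx
    obtain ⟨l, hl, hml, hld, hxl⟩ := edge_in_face hS h hv hx.2 hx0
    obtain ⟨i, hi⟩ := hIdx l (Finset.mem_filter.mpr ⟨hl, hm l hl hml⟩)
    apply hxl
    apply Submodule.orthogonal_le _ hx.1
    rw [dir_sum_segments]
    refine le_trans ?_ (le_iSup₂ i (Finset.mem_univ i))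
    have hvo : (inner ℝ v (s i) : ℝ) = 0 := by
      apply inner_dir (P := convexHull ℝ S)
      apply hld
      rw [hi]; exact Submodule.mem_span_singleton_self _
    rw [if_pos hvo, hi]

end Pool.Agent.Lib.MP_0d4032_co
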